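import Pool.Agent.Lib.MP_591455_an.NoRetract

open MeasureTheory Set Metric Filter Topology
open scoped ENNReal NNReal

namespace Pool.Agent.Lib.MP_591455_an

namespace BrouwerAux

/-- the radial projection onto the closed unit ball -/
noncomputable def rad {n : ℕ} (x : E n) : E n := (max 1 ‖x‖)⁻¹ • x

lemma rad_cont {n : ℕ} : Continuous (rad : E n → E n) := by
  unfold rad
  refine Continuous.smul (Continuous.inv₀ (continuous_const.max continuous_norm) ?_) continuous_id
  intro x
  exact (lt_of_lt_of_le one_pos (le_max_left _ _)).ne'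

lemma rad_mem {n : ℕ} (x : E n) : rad x ∈ closedBall (0 : E n) 1 := by
  have h : 0 < max 1 ‖x‖ := lt_of_lt_of_le one_pos (le_max_left _ _)
  rw [mem_closedBall, dist_zero_right, rad, norm_smul, norm_inv, Real.norm_eq_abs, abs_of_pos h,
    inv_mul_le_iff₀ h, mul_one]
  exact le_max_right _ _

lemma rad_eq {n : ℕ} {x : E n} (hx : x ∈ closedBall (0 : E n) 1) : rad x = x := by
  rw [mem_closedBall, dist_zero_right] at hx
  rw [rad, max_eq_left hx, inv_one, one_smul]

/-- no smooth fixed point free self map -/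
lemma smooth_case {n : ℕ} (hn : 1 ≤ n) {G : E n → E n} (hG : ContDiff ℝ 1 G)
    (hm : ∀ x ∈ closedBall (0 : E n) 1, ‖G x‖ < 1)
    (hfix : ∀ x ∈ closedBall (0 : E n) 1, G x ≠ x) : False := by
  set u : E n → E n := fun x => x - G x with hu
  have huC : ContDiff ℝ 1 u := contDiff_id.sub hG
  set b : E n → ℝ := fun x => inner ℝ x (u x) with hb
  have hbC : ContDiff ℝ 1 b := contDiff_id.inner ℝ huC
  set a : E n → ℝ := fun x => ‖u x‖ ^ 2 with ha
  have haC : ContDiff ℝ 1 a := huC.norm_sq ℝ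
  set D : E n → ℝ := fun x => b x ^ 2 + a x * (1 - ‖x‖ ^ 2) with hD
  have hDC : ContDiff ℝ 1 D := (hbC.pow 2).add (haC.mul (contDiff_const.sub (contDiff_norm_sq ℝ)))
  set V : Set (E n) := {x | 0 < a x ∧ 0 < D x} with hV
  have hVo : IsOpen V := (isOpen_lt continuous_const haC.continuous).inter
    (isOpen_lt continuous_const hDC.continuous)
  have hua : ∀ x ∈ closedBall (0 : E n) 1, 0 < a x := by
    intro x hx
    have h1 : u x ≠ 0 := fun h => hfix x hx (sub_eq_zero.1 h).symm
    have h2 : 0 < ‖u x‖ := norm_pos_iff.2 h1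
    simp only [ha]
    positivity
  have hb1 : ∀ x : E n, ‖x‖ = 1 → 0 < b x := by
    intro x hx
    have hxc : x ∈ closedBall (0 : E n) 1 := by simp [hx]
    have h1 : inner ℝ x (G x) ≤ ‖x‖ * ‖G x‖ := real_inner_le_norm x (G x)
    have h2 := hm x hxc
    have h3 : b x = ‖x‖ ^ 2 - inner ℝ x (G x) := by
      simp only [hb, hu]
      rw [inner_sub_right, real_inner_self_eq_norm_sq]
    rw [h3, hx]
    rw [hx, one_mul] at h1
    linarith
  have hVs : closedBall (0 : E n) 1 ⊆ V := by
    intro x hx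
    refine ⟨hua x hx, ?_⟩
    have hx' : ‖x‖ ≤ 1 := by simpa using hx
    rcases hx'.lt_or_eq with h | h
    · have h1 : 0 < 1 - ‖x‖ ^ 2 := by nlinarith [norm_nonneg x]
      have h2 := mul_pos (hua x hx) h1
      simp only [hD]
      positivity
    · have h1 := hb1 x h
      simp only [hD, h]
      norm_num
      positivity
  set t : E n → ℝ := fun x => (-b x + Real.sqrt (D x)) / a x with ht
  have htC : ContDiffOn ℝ 1 t V := by
    apply ContDiffOn.div
    · apply ContDiffOn.add hbC.neg.contDiffOn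
      exact ContDiffOn.sqrt hDC.contDiffOn (fun x hx => hx.2.ne')
    · exact haC.contDiffOn
    · intro x hx
      exact hx.1.ne'
  set f : E n → E n := fun x => x + t x • u x with hf
  have hfC : ContDiffOn ℝ 1 f V := contDiffOn_id.add (htC.smul huC.contDiffOn)
  refine no_retract hn hVo hVs hfC ?_ ?_
  · intro x hx
    have hax := hua x hx
    have hDx := (hVs hx).2
    have h1 : ‖f x‖ ^ 2 = ‖x‖ ^ 2 + 2 * t x * b x + t x ^ 2 * a x := by
      simp only [hf, hb, ha]
      rw [norm_add_sq_real, inner_smul_right, norm_smul, mul_pow, Real.norm_eq_abs, sq_abs]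
      ring
    have h2 : Real.sqrt (D x) ^ 2 = D x := Real.sq_sqrt hDx.le
    have h3 : ‖f x‖ ^ 2 = 1 := by
      rw [h1]
      simp only [ht]
      have h4 : ‖x‖ ^ 2 + 2 * ((-b x + Real.sqrt (D x)) / a x) * b x +
          ((-b x + Real.sqrt (D x)) / a x) ^ 2 * a x =
          ‖x‖ ^ 2 + (Real.sqrt (D x) ^ 2 - b x ^ 2) / a x := by
        field_simp
        ring
      rw [h4, h2]
      simp only [hD]
      field_simp
      ring
    have h5 := norm_nonneg (f x)
    nlinarith
  · intro x hx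
    have hbx := hb1 x hx
    have h1 : D x = b x ^ 2 := by
      simp only [hD, hx]
      ring
    simp only [hf, ht]
    rw [h1, Real.sqrt_sq hbx.le]
    simp

end BrouwerAux

open BrouwerAux

theorem brouwer {n : ℕ} (hn : 1 ≤ n) {F : E n → E n}
    (hc : ContinuousOn F (closedBall (0 : E n) 1))
    (hm : MapsTo F (closedBall (0 : E n) 1) (closedBall (0 : E n) 1)) :
    ∃ x ∈ closedBall (0 : E n) 1, F x = x := by
  by_contra hno
  push Not at hno
  have hF' : Continuous (F ∘ rad) := hc.comp_continuous rad_cont rad_mem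
  obtain ⟨x0, hx0, hmin⟩ := (isCompact_closedBall (0 : E n) 1).exists_isMinOn
    ⟨0, by simp⟩ (hc.sub continuousOn_id).norm
  set ε : ℝ := ‖F x0 - x0‖ with hε
  have hε0 : 0 < ε := norm_pos_iff.2 (sub_ne_zero.2 (hno x0 hx0))
  have hεm : ∀ x ∈ closedBall (0 : E n) 1, ε ≤ ‖F x - x‖ := fun x hx => hmin hx
  obtain ⟨G0, hG0, hGF, -⟩ := hF'.exists_contDiff_approx (n := 1) (ε := fun _ => ε / 4)
    continuous_const (fun _ => by positivity)
  have hc1 : 0 < 1 + ε / 4 := by positivity
  have hGF' : ∀ x ∈ closedBall (0 : E n) 1, ‖G0 x - F x‖ < ε / 4 := by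
    intro x hx
    have := hGF x
    rwa [Function.comp_apply, rad_eq hx, dist_eq_norm] at this
  have hFn : ∀ x ∈ closedBall (0 : E n) 1, ‖F x‖ ≤ 1 := fun x hx => by simpa using hm hx
  refine smooth_case hn (G := fun x => (1 + ε / 4)⁻¹ • G0 x) (hG0.const_smul _) ?_ ?_
  · intro x hx
    have h1 := hGF' x hx
    have h2 := hFn x hx
    have h3 : ‖G0 x‖ < 1 + ε / 4 := by
      calc ‖G0 x‖ = ‖F x + (G0 x - F x)‖ := by congr 1; abel
        _ ≤ ‖F x‖ + ‖G0 x - F x‖ := norm_add_le _ _
        _ < 1 + ε / 4 := by linarith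
    rw [norm_smul, norm_inv, Real.norm_eq_abs, abs_of_pos hc1, inv_mul_lt_iff₀ hc1, mul_one]
    exact h3
  · intro x hx h
    have h1 := hGF' x hx
    have h2 := hFn x hx
    have h3 := hεm x hx
    have h4 : G0 x = (1 + ε / 4) • x := by
      rw [← h, smul_smul, mul_inv_cancel₀ hc1.ne', one_smul]
      simp [h]
    have hxn : ‖x‖ ≤ 1 := by simpa using hx
    have h5 : ‖F x - x‖ ≤ ‖G0 x - F x‖ + ‖(ε / 4) • x‖ := by
      calc ‖F x - x‖ = ‖-(G0 x - F x) + (ε / 4) • x‖ := by
            congr 1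
            rw [h4, add_smul, one_smul]
            abel
        _ ≤ ‖-(G0 x - F x)‖ + ‖(ε / 4) • x‖ := norm_add_le _ _
        _ = _ := by rw [norm_neg]
    rw [norm_smul, Real.norm_eq_abs, abs_of_pos (by positivity : 0 < ε / 4)] at h5
    nlinarith

end Pool.Agent.Lib.MP_591455_an
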