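import Pool.Agent.Lib.MP_591455_an.Defs

/-!
Logarithmic cut-off functions.
-/

open MeasureTheory Set Metric Filter Topology
open scoped ENNReal NNReal

namespace Pool.Agent.Lib.MP_591455_an

namespace Cut

lemma abs_log_sub_le {a b m : ℝ} (hm : 0 < m) (ha : m ≤ a) (hb : m ≤ b) :
    |Real.log a - Real.log b| ≤ |a - b| / m := by
  have key : ∀ x y : ℝ, m ≤ x → m ≤ y → Real.log x - Real.log y ≤ |x - y| / m := by
    intro x y hx hy
    have hx0 : 0 < x := lt_of_lt_of_le hm hx
    have hy0 : 0 < y := lt_of_lt_of_le hm hy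
    rw [← Real.log_div hx0.ne' hy0.ne']
    have h1 : Real.log (x / y) ≤ x / y - 1 := Real.log_le_sub_one_of_pos (by positivity)
    have h2 : x / y - 1 = (x - y) / y := by field_simp
    rw [h2] at h1
    refine h1.trans ?_
    calc (x - y) / y ≤ |x - y| / y := by gcongr; exact le_abs_self _
      _ ≤ |x - y| / m := by gcongr
  rw [abs_le]
  constructor
  · have := key b a hb ha
    rw [abs_sub_comm] at this
    linarith
  · exact key a b ha hb

/-- The profile of the cut-off function. -/
noncomputable def g (s t r : ℝ) : ℝ :=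
  max ((Real.log t - Real.log (max r s)) / Real.log (t / s)) 0

lemma g_sub_le {s t : ℝ} (hst : 0 < Real.log (t / s)) {r r' m : ℝ} (hm : 0 < m)
    (h1 : m ≤ max r s) (h2 : m ≤ max r' s) :
    |g s t r' - g s t r| ≤ 1 / (Real.log (t / s) * m) * |r' - r| := by
  unfold g
  refine (abs_max_sub_max_le_abs _ _ _).trans ?_
  have e : (Real.log t - Real.log (max r' s)) / Real.log (t / s) -
      (Real.log t - Real.log (max r s)) / Real.log (t / s)
      = (Real.log (max r s) - Real.log (max r' s)) / Real.log (t / s) := by ring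
  rw [e, abs_div, abs_of_pos hst]
  have h3 := abs_log_sub_le hm h1 h2
  have h4 : |max r s - max r' s| ≤ |r' - r| := by
    rw [abs_sub_comm]
    exact abs_max_sub_max_le_abs _ _ _
  calc |Real.log (max r s) - Real.log (max r' s)| / Real.log (t / s)
      ≤ (|r' - r| / m) / Real.log (t / s) := by
        gcongr
        exact h3.trans (by gcongr)
    _ = 1 / (Real.log (t / s) * m) * |r' - r| := by
        field_simp

lemma g_of_le {s t r : ℝ} (hs : 0 < s) (ht : 0 < t) (hst : 0 < Real.log (t / s)) (h : r ≤ s) :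
    g s t r = 1 := by
  unfold g
  rw [max_eq_right h, Real.log_div ht.ne' hs.ne']
  rw [Real.log_div ht.ne' hs.ne'] at hst
  rw [div_self hst.ne']
  simp

lemma g_of_ge {s t r : ℝ} (ht : 0 < t) (hst : 0 < Real.log (t / s)) (h : t ≤ r) :
    g s t r = 0 := by
  unfold g
  apply max_eq_right
  apply div_nonpos_of_nonpos_of_nonneg _ hst.le
  have : Real.log t ≤ Real.log (max r s) := Real.log_le_log ht (h.trans (le_max_left _ _))
  linarith

lemma g_nonneg (s t r : ℝ) : 0 ≤ g s t r := le_max_right _ _

lemma g_le_one {s t : ℝ} (r : ℝ) (hs : 0 < s) (ht : 0 < t) (hst : 0 < Real.log (t / s)) :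
    g s t r ≤ 1 := by
  unfold g
  apply max_le _ zero_le_one
  rw [div_le_one hst, Real.log_div ht.ne' hs.ne']
  have : Real.log s ≤ Real.log (max r s) := Real.log_le_log hs (le_max_right _ _)
  linarith

/-- The real density. -/
noncomputable def d (s t r : ℝ) : ℝ := (Icc s t).indicator (fun r => 1 / (Real.log (t / s) * r)) r

lemma measurable_d (s t : ℝ) : Measurable (d s t) := by
  unfold d
  apply Measurable.indicator _ measurableSet_Icc
  fun_prop

lemma d_nonneg {s t : ℝ} (hs : 0 < s) (hst : 0 < Real.log (t / s)) (r : ℝ) : 0 ≤ d s t r := by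
  unfold d
  apply indicator_nonneg
  intro x hx
  have : 0 < x := lt_of_lt_of_le hs hx.1
  positivity

lemma d_le {s t : ℝ} (hs : 0 < s) (hst : 0 < Real.log (t / s)) (r : ℝ) :
    d s t r ≤ 1 / (Real.log (t / s) * s) := by
  unfold d
  by_cases h : r ∈ Icc s t
  · rw [indicator_of_mem h]
    have := h.1
    gcongr
  · rw [indicator_of_notMem h]
    positivity

lemma pl {n : ℕ} (p : E n) {s t : ℝ} (hs : 0 < s) (ht : s < t)
    (hst : 0 < Real.log (t / s)) (y : E n) :
    PL (fun y => g s t (dist y p)) y (ENNReal.ofReal (d s t (dist y p))) := by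
  intro c' hc'
  have ht0 : 0 < t := hs.trans ht
  by_cases h1 : dist y p < s
  · have : ∀ᶠ z in 𝓝 y, dist z p < s :=
      (continuous_id.dist continuous_const).continuousAt.eventually_lt
        continuousAt_const h1
    filter_upwards [this] with z hz
    rw [g_of_le hs ht0 hst h1.le, g_of_le hs ht0 hst hz.le]
    simp only [dist_self]
    positivity
  by_cases h2 : t < dist y p
  · have : ∀ᶠ z in 𝓝 y, t < dist z p :=
      continuousAt_const.eventually_lt
        (continuous_id.dist continuous_const).continuousAt h2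
    filter_upwards [this] with z hz
    rw [g_of_ge ht0 hst h2.le, g_of_ge ht0 hst hz.le]
    simp only [dist_self]
    positivity
  push Not at h1 h2
  have hr0 : 0 < dist y p := hs.trans_le h1
  have hmem : dist y p ∈ Icc s t := ⟨h1, h2⟩
  have hd : d s t (dist y p) = 1 / (Real.log (t / s) * dist y p) := by
    unfold d
    rw [indicator_of_mem hmem]
  rw [hd] at hc'
  have hc2 : 1 / (Real.log (t / s) * dist y p) < (c' : ℝ) := by
    rw [ENNReal.ofReal_lt_iff_lt_toReal (by positivity) (by simp)] at hc'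
    simpa using hc'
  -- there is m < dist y p with 1/(Λ m) < c'
  have hcpos : (0 : ℝ) < c' := lt_trans (by positivity) hc2
  obtain ⟨m, hm1, hm2⟩ : ∃ m, 1 / (Real.log (t / s) * c') < m ∧ m < dist y p := by
    apply exists_between
    rw [div_lt_iff₀ (by positivity)] at hc2 ⊢
    nlinarith
  have hm0 : 0 < m := lt_trans (by positivity) hm1
  have hm3 : 1 / (Real.log (t / s) * m) ≤ c' := by
    rw [div_lt_iff₀ (by positivity)] at hm1
    rw [div_le_iff₀ (by positivity)]
    nlinarith
  have : ∀ᶠ z in 𝓝 y, m < dist z p :=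
      continuousAt_const.eventually_lt
        (continuous_id.dist continuous_const).continuousAt hm2
  filter_upwards [this] with z hz
  rw [Real.dist_eq]
  refine (g_sub_le hst hm0 (hm2.le.trans (le_max_left _ _))
    (hz.le.trans (le_max_left _ _))).trans ?_
  have h5 : |dist z p - dist y p| ≤ dist z y := abs_dist_sub_le _ _ _
  calc 1 / (Real.log (t / s) * m) * |dist z p - dist y p| ≤ c' * |dist z p - dist y p| := by
        gcongr
    _ ≤ c' * dist z y := by gcongr

lemma lip {n : ℕ} (p : E n) {s t : ℝ} (hs : 0 < s) (hst : 0 < Real.log (t / s)) :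
    LipschitzWith (Real.toNNReal (1 / (Real.log (t / s) * s)))
      (fun y : E n => g s t (dist y p)) := by
  apply LipschitzWith.of_dist_le_mul
  intro x y
  rw [Real.coe_toNNReal _ (by positivity), Real.dist_eq]
  refine (g_sub_le hst hs (le_max_right _ _) (le_max_right _ _)).trans ?_
  gcongr
  exact abs_dist_sub_le _ _ _

lemma integral_d {n : ℕ} (hn : 2 ≤ n) {s t : ℝ} (hs : 0 < s) (ht : s < t) :
    ∫ y in Ioi (0 : ℝ), y ^ (n - 1) • (d s t y) ^ n =
      Real.log (t / s) / Real.log (t / s) ^ n := by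
  have e : ∀ y : ℝ, y ^ (n - 1) • (d s t y) ^ n =
      (Icc s t).indicator (fun y => (1 / Real.log (t / s) ^ n) * y⁻¹) y := by
    intro y
    unfold d
    by_cases h : y ∈ Icc s t
    · rw [indicator_of_mem h, indicator_of_mem h, smul_eq_mul]
      have hy : y ≠ 0 := (hs.trans_le h.1).ne'
      have : y ^ n = y ^ (n - 1) * y := by
        rw [← pow_succ]; congr 1; omega
      rw [div_pow, one_pow, mul_pow, this]
      by_cases hl : Real.log (t / s) = 0
      · rw [hl, zero_pow (by omega)]; simp
      · field_simp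
    · rw [indicator_of_notMem h, indicator_of_notMem h, zero_pow (by omega)]
      simp
  simp_rw [e]
  rw [setIntegral_indicator measurableSet_Icc]
  have : Ioi (0 : ℝ) ∩ Icc s t = Icc s t := by
    apply inter_eq_right.2
    intro x hx
    exact hs.trans_le hx.1
  rw [this, integral_const_mul, integral_Icc_eq_integral_Ioc,
    ← intervalIntegral.integral_of_le ht.le, integral_inv_of_pos hs (hs.trans ht)]
  ring

lemma lintegral_d {n : ℕ} (hn : 2 ≤ n) (p : E n) {s t : ℝ} (hs : 0 < s) (ht : s < t)
    (hst : 0 < Real.log (t / s)) :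
    ∫⁻ y : E n, ENNReal.ofReal (d s t (dist y p)) ^ n =
      ENNReal.ofReal (n * (Real.log (t / s) / Real.log (t / s) ^ n)) * Om n := by
  have h1 : ∫⁻ y : E n, ENNReal.ofReal (d s t (dist y p)) ^ n
      = ∫⁻ y : E n, ENNReal.ofReal ((d s t ‖y‖) ^ n) := by
    have := lintegral_sub_right_eq_self (μ := (volume : Measure (E n)))
      (fun y : E n => ENNReal.ofReal ((d s t ‖y‖) ^ n)) p
    rw [← this]
    apply lintegral_congr
    intro y
    rw [dist_eq_norm, ENNReal.ofReal_pow (d_nonneg hs hst _)]
  rw [h1]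
  have : Nonempty (Fin n) := ⟨⟨0, by omega⟩⟩
  have : Nontrivial (E n) := inferInstance
  have hfr : Module.finrank ℝ (E n) = n := by simp
  have hint : Integrable (fun y : E n => (d s t ‖y‖) ^ n) := by
    have hb : Integrable ((closedBall (0 : E n) t).indicator
        (fun _ : E n => (1 / (Real.log (t / s) * s)) ^ n)) := by
      rw [integrable_indicator_iff measurableSet_closedBall]
      exact integrableOn_const (measure_closedBall_lt_top (x := (0 : E n)) (r := t)).ne
        enorm_ne_top
    apply hb.mono'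
    · apply Measurable.aestronglyMeasurable
      exact ((measurable_d s t).comp measurable_norm).pow_const n
    · filter_upwards with y
      rw [Real.norm_eq_abs, abs_of_nonneg (pow_nonneg (d_nonneg hs hst _) _)]
      by_cases hy : y ∈ closedBall (0 : E n) t
      · rw [indicator_of_mem hy]
        gcongr
        · exact d_nonneg hs hst _
        · exact d_le hs hst _
      · rw [indicator_of_notMem hy]
        have : d s t ‖y‖ = 0 := by
          unfold d
          apply indicator_of_notMem
          intro h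
          apply hy
          simpa using h.2
        rw [this, zero_pow (by omega)]
  rw [← ofReal_integral_eq_lintegral_ofReal hint
    (by filter_upwards with y; exact pow_nonneg (d_nonneg hs hst _) _)]
  rw [integral_fun_norm_addHaar (volume : Measure (E n)) (fun r => (d s t r) ^ n), hfr,
    integral_d hn hs ht]
  rw [nsmul_eq_mul, smul_eq_mul, ← mul_assoc, mul_comm (n : ℝ) (Measure.real _ _), mul_assoc,
    ENNReal.ofReal_mul measureReal_nonneg, mul_comm]
  congr 1
  rw [Measure.real, ENNReal.ofReal_toReal]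
  · rfl
  · exact (measure_ball_lt_top).ne

lemma nat_le_pow {n : ℕ} (hn : 2 ≤ n) : (n : ℝ) ≤ (3 / 2) ^ n := by
  induction n, hn using Nat.le_induction with
  | base => norm_num
  | succ n hn ih =>
    rw [pow_succ]
    push_cast
    have : (2 : ℝ) ≤ n := by exact_mod_cast hn
    nlinarith

end Cut

theorem logcut {n : ℕ} (hn : 2 ≤ n) (p : E n) {s t : ℝ} (hs : 0 < s) (ht : s < t)
    (hst : 1 ≤ Real.log (t / s)) :
    ∃ (F : E n → ℝ) (ρ : E n → ℝ≥0∞) (L : ℝ≥0), LipschitzWith L F ∧ Measurable ρ ∧
      (∀ y, ρ y ≤ L) ∧ (∀ y, PL F y (ρ y)) ∧ (∀ y, 0 ≤ F y ∧ F y ≤ 1) ∧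
      (∀ y, dist y p ≤ s → F y = 1) ∧ (∀ y, t ≤ dist y p → F y = 0) ∧
      ∫⁻ y, ρ y ^ n ≤ ENNReal.ofReal (3 / 2 / Real.sqrt (Real.log (t / s))) ^ n * Om n := by
  have ht0 : 0 < t := hs.trans ht
  have hL : 0 < Real.log (t / s) := by linarith
  refine ⟨fun y => Cut.g s t (dist y p), fun y => ENNReal.ofReal (Cut.d s t (dist y p)),
    Real.toNNReal (1 / (Real.log (t / s) * s)), Cut.lip p hs hL, ?_, ?_,
    Cut.pl p hs ht hL, ?_, ?_, ?_, ?_⟩
  · apply ENNReal.measurable_ofReal.comp
    exact (Cut.measurable_d s t).comp (measurable_id.dist measurable_const)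
  · intro y
    exact ENNReal.ofReal_le_ofReal (Cut.d_le hs hL _)
  · intro y
    exact ⟨Cut.g_nonneg _ _ _, Cut.g_le_one _ hs ht0 hL⟩
  · intro y hy
    exact Cut.g_of_le hs ht0 hL hy
  · intro y hy
    exact Cut.g_of_ge ht0 hL hy
  · rw [Cut.lintegral_d hn p hs ht hL, ← ENNReal.ofReal_pow (by positivity)]
    gcongr
    set Λ := Real.log (t / s) with hΛ
    have hsq : 1 ≤ Real.sqrt Λ := by
      rw [Real.one_le_sqrt]; exact hst
    have hsq2 : Real.sqrt Λ ^ 2 = Λ := Real.sq_sqrt hL.le
    have h1 : Λ ≤ Real.sqrt Λ ^ n := by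
      calc Λ = Real.sqrt Λ ^ 2 := hsq2.symm
        _ ≤ Real.sqrt Λ ^ n := pow_le_pow_right₀ hsq hn
    have h2 : Λ ^ n = Real.sqrt Λ ^ n * Real.sqrt Λ ^ n := by
      rw [← mul_pow, ← sq, hsq2]
    have h3 := Cut.nat_le_pow hn
    rw [div_pow, h2, mul_div_assoc', div_le_div_iff₀ (by positivity) (by positivity)]
    have h4 : (n : ℝ) * Λ ≤ (3 / 2) ^ n * Real.sqrt Λ ^ n :=
      mul_le_mul h3 h1 hL.le (by positivity)
    calc (n : ℝ) * Λ * Real.sqrt Λ ^ n ≤ ((3 / 2) ^ n * Real.sqrt Λ ^ n) * Real.sqrt Λ ^ n := by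
          gcongr
      _ = (3 / 2) ^ n * (Real.sqrt Λ ^ n * Real.sqrt Λ ^ n) := by ring

end Pool.Agent.Lib.MP_591455_an
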