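import Pool.Agent.Lib.MP_591455_an.Defs

open MeasureTheory Set Metric Filter Topology
open scoped ENNReal NNReal

namespace Pool.Agent.Lib.MP_591455_an.Density

theorem cover {n : ℕ} {U : Set (E n)} (hU : IsOpen U) (κ : Measure (E n))
    (hκ : ∀ K : Set (E n), K ⊆ U → IsCompact K → κ K < ∞) :
    ∃ S : Set (Set (E n)), S.Countable ∧ (∀ V ∈ S, IsOpen V ∧ V ⊆ U ∧ κ V < ∞) ∧ ⋃₀ S = U := by
  have h1 : ∀ x ∈ U, ∃ r : ℝ, 0 < r ∧ closedBall x r ⊆ U := by
    intro x hx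
    obtain ⟨r, hr, hrU⟩ := Metric.nhds_basis_closedBall.mem_iff.1 (hU.mem_nhds hx)
    exact ⟨r, hr, hrU⟩
  choose! r hr hrU using h1
  obtain ⟨t, htU, htc, hcov⟩ := TopologicalSpace.countable_cover_nhdsWithin
    (f := fun x => ball x (r x)) (s := U)
    (fun x hx => mem_nhdsWithin_of_mem_nhds (ball_mem_nhds x (hr x hx)))
  refine ⟨(fun x => ball x (r x)) '' t, htc.image _, ?_, ?_⟩
  · rintro V ⟨x, hx, rfl⟩
    refine ⟨isOpen_ball, ball_subset_closedBall.trans (hrU x (htU hx)), ?_⟩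
    exact lt_of_le_of_lt (measure_mono ball_subset_closedBall)
      (hκ _ (hrU x (htU hx)) (isCompact_closedBall _ _))
  · apply Subset.antisymm
    · rintro y ⟨V, ⟨x, hx, rfl⟩, hy⟩
      exact hrU x (htU hx) (ball_subset_closedBall hy)
    · intro y hy
      obtain ⟨x, hx, hyx⟩ := mem_iUnion₂.1 (hcov hy)
      exact ⟨_, ⟨x, hx, rfl⟩, hyx⟩

theorem sigmaFinite_restrict {n : ℕ} {U : Set (E n)} (hU : IsOpen U) (κ : Measure (E n))
    (hκ : ∀ K : Set (E n), K ⊆ U → IsCompact K → κ K < ∞) : SigmaFinite (κ.restrict U) := by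
  obtain ⟨S, hSc, hS, hSU⟩ := cover hU κ hκ
  refine Measure.sigmaFinite_of_countable (S := insert Uᶜ S) (hSc.insert _) ?_ ?_
  · rintro V (rfl | hV)
    · rw [Measure.restrict_apply hU.measurableSet.compl]
      simp
    · rw [Measure.restrict_apply (hS V hV).1.measurableSet]
      exact lt_of_le_of_lt (measure_mono inter_subset_left) (hS V hV).2.2
  · rw [sUnion_insert, hSU, compl_union_self]

theorem Om_pos {n : ℕ} : Om n ≠ 0 := by
  unfold Om
  exact (measure_ball_pos volume (0 : E n) one_pos).ne'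

theorem Om_ne_top {n : ℕ} : Om n ≠ ∞ := by
  unfold Om
  exact measure_ball_lt_top.ne

theorem vol_closedBall {n : ℕ} (x : E n) {r : ℝ} (hr : 0 ≤ r) :
    volume (closedBall x r) = ENNReal.ofReal r ^ n * Om n := by
  unfold Om
  rw [Measure.addHaar_closedBall volume x hr]
  simp [ENNReal.ofReal_pow hr]

/-- the differentiation statement -/
theorem ae_tendsto {n : ℕ} {U : Set (E n)} (hU : IsOpen U) (κ : Measure (E n))
    (hκ : ∀ K : Set (E n), K ⊆ U → IsCompact K → κ K < ∞) :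
    ∀ᵐ x : E n, x ∈ U → Tendsto (fun r => κ (closedBall x r) / volume (closedBall x r)) (𝓝[>] 0)
      (𝓝 ((κ.restrict U).rnDeriv volume x)) := by
  have := sigmaFinite_restrict hU κ hκ
  obtain ⟨S, hSc, hS, hSU⟩ := cover hU κ hκ
  have h1 : ∀ V ∈ S, ∀ᵐ x : E n, x ∈ V →
      Tendsto (fun r => κ (closedBall x r) / volume (closedBall x r)) (𝓝[>] 0)
      (𝓝 ((κ.restrict U).rnDeriv volume x)) := by
    intro V hV
    obtain ⟨hVo, hVU, hVf⟩ := hS V hV
    have : IsFiniteMeasure (κ.restrict V) := ⟨by simpa using hVf⟩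
    have e1 := Besicovitch.ae_tendsto_rnDeriv (κ.restrict V) (volume : Measure (E n))
    have e2 := Measure.rnDeriv_restrict (κ.restrict U) (volume : Measure (E n)) hVo.measurableSet
    have e3 : (κ.restrict U).restrict V = κ.restrict V := by
      rw [Measure.restrict_restrict hVo.measurableSet, inter_eq_self_of_subset_left hVU]
    rw [e3] at e2
    filter_upwards [e1, e2] with x hx1 hx2 hxV
    rw [hx2, indicator_of_mem hxV] at hx1
    refine hx1.congr' ?_
    obtain ⟨r, hr, hrV⟩ := Metric.nhds_basis_closedBall.mem_iff.1 (hVo.mem_nhds hxV)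
    have : ∀ᶠ s in 𝓝[>] (0 : ℝ), s < r := mem_nhdsWithin_of_mem_nhds (Iio_mem_nhds hr)
    filter_upwards [this] with s hs
    rw [Measure.restrict_apply isClosed_closedBall.measurableSet,
      inter_eq_self_of_subset_left ((closedBall_subset_closedBall hs.le).trans hrV)]
  have h2 := (ae_ball_iff hSc).2 h1
  filter_upwards [h2] with x hx hxU
  rw [← hSU] at hxU
  obtain ⟨V, hV, hxV⟩ := hxU
  exact hx V hV hxV

theorem choose_consts {n : ℕ} (hn : 1 ≤ n) {a : ℝ} (ha : 0 < a) {L : ℝ≥0∞} (hL : L < ∞) {c' : ℝ≥0}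
    (h : ENNReal.ofReal a * L ^ ((n : ℝ)⁻¹) < c') :
    ∃ H : ℝ, a < H ∧ ∃ L' : ℝ≥0∞, L < L' ∧ ENNReal.ofReal H ^ n * L' ≤ (c' : ℝ≥0∞) ^ n := by
  have hn0 : (n : ℝ) ≠ 0 := by positivity
  have hn1 : n ≠ 0 := by omega
  have h1 : ENNReal.ofReal a ^ n * L < (c' : ℝ≥0∞) ^ n := by
    have := ENNReal.pow_lt_pow_left hn1 h
    rw [mul_pow, ← ENNReal.rpow_natCast (L ^ ((n : ℝ)⁻¹)), ← ENNReal.rpow_mul,
      inv_mul_cancel₀ hn0, ENNReal.rpow_one] at this
    exact this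
  lift L to ℝ≥0 using hL.ne
  have h2 : Tendsto (fun t : ℝ => ENNReal.ofReal (a + t) ^ n * ((L : ℝ≥0∞) + ENNReal.ofReal t))
      (𝓝[>] 0) (𝓝 (ENNReal.ofReal (a + 0) ^ n * ((L : ℝ≥0∞) + ENNReal.ofReal 0))) := by
    apply Tendsto.mono_left _ nhdsWithin_le_nhds
    apply ENNReal.Tendsto.mul
    · apply ENNReal.Tendsto.pow
      exact ENNReal.tendsto_ofReal ((continuous_const.add continuous_id).tendsto _)
    · right
      exact (ENNReal.add_lt_top.2 ⟨ENNReal.coe_lt_top, ENNReal.ofReal_lt_top⟩).ne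
    · exact tendsto_const_nhds.add (ENNReal.tendsto_ofReal (continuous_id.tendsto _))
    · right
      exact (ENNReal.pow_lt_top ENNReal.ofReal_lt_top).ne
  rw [add_zero, ENNReal.ofReal_zero, add_zero] at h2
  have h3 := h2.eventually (gt_mem_nhds h1)
  obtain ⟨t, ht, ht0⟩ := (h3.and self_mem_nhdsWithin).exists
  have ht0' : 0 < t := ht0
  refine ⟨a + t, by linarith, (L : ℝ≥0∞) + ENNReal.ofReal t, ?_, ht.le⟩
  exact ENNReal.lt_add_right ENNReal.coe_ne_top (ENNReal.ofReal_pos.2 ht0').ne'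

theorem pl_point {n : ℕ} (hn : 1 ≤ n) {κ : Measure (E n)} {h : E n → E n} {a : ℝ} (ha : 0 < a)
    {x : E n} {L : ℝ≥0∞} (hL : L < ∞)
    (hlim : Tendsto (fun r => κ (closedBall x r) / volume (closedBall x r)) (𝓝[>] 0) (𝓝 L))
    (hq : ∀ H : ℝ, a < H → ∃ b c δ : ℝ, 0 < b ∧ 0 < c ∧
      b * c ≤ H ∧ 0 < δ ∧ ∀ s : ℝ, 0 < s → s < δ → ∀ z : E n, dist z x ≤ s →
        edist (h z) (h x) ^ n * Om n ≤ ENNReal.ofReal b ^ n * κ (closedBall x (c * s))) :
    PL h x (ENNReal.ofReal a * L ^ ((n : ℝ)⁻¹)) := by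
  intro c' hc'
  have hn1 : n ≠ 0 := by omega
  obtain ⟨H, haH, L', hLL', hHL⟩ := choose_consts hn ha hL hc'
  obtain ⟨b, c, δ, hb, hc, hbc, hδ, hs⟩ := hq H haH
  have h1 := hlim.eventually (gt_mem_nhds hLL')
  obtain ⟨ε, hε, hεs⟩ := mem_nhdsGT_iff_exists_Ioo_subset.1 h1
  have hε' : 0 < ε := hε
  have h2 : ∀ᶠ y in 𝓝 x, dist y x < min δ (ε / c) :=
    ball_mem_nhds x (lt_min hδ (div_pos hε' hc))
  filter_upwards [h2] with z hz
  rcases eq_or_lt_of_le (dist_nonneg (x := z) (y := x)) with h0 | h0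
  · rw [← h0]
    have : z = x := dist_eq_zero.1 h0.symm
    rw [this]; simp
  · have hz1 : dist z x < δ := hz.trans_le (min_le_left _ _)
    have hz2 : dist z x < ε / c := hz.trans_le (min_le_right _ _)
    have h3 := hs (dist z x) h0 hz1 z le_rfl
    have hcs : c * dist z x ∈ Ioo 0 ε := ⟨mul_pos hc h0, by
      rw [lt_div_iff₀ hc] at hz2; rw [mul_comm]; exact hz2⟩
    have h4 : κ (closedBall x (c * dist z x)) / volume (closedBall x (c * dist z x)) < L' :=
      hεs hcs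
    have h5 : κ (closedBall x (c * dist z x)) ≤
        L' * (ENNReal.ofReal (c * dist z x) ^ n * Om n) := by
      rw [← vol_closedBall x hcs.1.le]
      have hv0 : volume (closedBall x (c * dist z x)) ≠ 0 :=
        (measure_closedBall_pos volume x hcs.1).ne'
      exact (ENNReal.div_le_iff hv0 measure_closedBall_lt_top.ne).1 h4.le
    have h6 : edist (h z) (h x) ^ n * Om n ≤
        (((c' : ℝ≥0∞) * ENNReal.ofReal (dist z x)) ^ n) * Om n := by
      calc edist (h z) (h x) ^ n * Om n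
          ≤ ENNReal.ofReal b ^ n * (L' * (ENNReal.ofReal (c * dist z x) ^ n * Om n)) :=
            h3.trans (by gcongr)
        _ = (ENNReal.ofReal (b * c) ^ n * L') * (ENNReal.ofReal (dist z x) ^ n * Om n) := by
            rw [ENNReal.ofReal_mul hc.le, ENNReal.ofReal_mul hb.le]
            ring
        _ ≤ (ENNReal.ofReal H ^ n * L') * (ENNReal.ofReal (dist z x) ^ n * Om n) := by
            gcongr
        _ ≤ ((c' : ℝ≥0∞) ^ n) * (ENNReal.ofReal (dist z x) ^ n * Om n) := by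
            gcongr
        _ = _ := by ring
    have h7 : edist (h z) (h x) ^ n ≤ ((c' : ℝ≥0∞) * ENNReal.ofReal (dist z x)) ^ n :=
      (ENNReal.mul_le_mul_iff_left Om_pos Om_ne_top).1 h6
    have h8 : edist (h z) (h x) ≤ (c' : ℝ≥0∞) * ENNReal.ofReal (dist z x) :=
      (ENNReal.pow_le_pow_left_iff hn1).1 h7
    rw [edist_dist, ← ENNReal.ofReal_coe_nnreal, ← ENNReal.ofReal_mul (by positivity)] at h8
    exact (ENNReal.ofReal_le_ofReal_iff (by positivity)).1 h8

end Pool.Agent.Lib.MP_591455_an.Density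

namespace Pool.Agent.Lib.MP_591455_an

theorem pl_density {n : ℕ} (hn : 1 ≤ n) {U : Set (E n)} (hU : IsOpen U) (κ : Measure (E n))
    (hκ : ∀ K : Set (E n), K ⊆ U → IsCompact K → κ K < ∞) {h : E n → E n} {a : ℝ} (ha : 0 < a)
    (hq : ∀ᵐ x : E n, x ∈ U → PL h x 0 ∨ ∀ H : ℝ, a < H → ∃ b c δ : ℝ, 0 < b ∧ 0 < c ∧
      b * c ≤ H ∧ 0 < δ ∧ ∀ s : ℝ, 0 < s → s < δ → ∀ z : E n, dist z x ≤ s →
        edist (h z) (h x) ^ n * Om n ≤ ENNReal.ofReal b ^ n * κ (closedBall x (c * s))) :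
    ∃ τ : E n → ℝ≥0∞, Measurable τ ∧ (∀ x, x ∉ U → τ x = 0) ∧
      (∀ᵐ x : E n, x ∈ U → τ x ≠ ∞ ∧ PL h x (τ x)) ∧
      (∀ T : E n → ℝ≥0∞, Measurable T →
        ∫⁻ x, T x * τ x ^ n ≤ ENNReal.ofReal a ^ n * ∫⁻ x in U, T x ∂κ) := by
  classical
  have := Density.sigmaFinite_restrict hU κ hκ
  have hn0 : (n : ℝ) ≠ 0 := by positivity
  have hn1 : n ≠ 0 := by omega
  set rn : E n → ℝ≥0∞ := (κ.restrict U).rnDeriv volume with hrn
  have hrnm : Measurable rn := Measure.measurable_rnDeriv _ _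
  refine ⟨U.indicator (fun x => ENNReal.ofReal a * rn x ^ ((n : ℝ)⁻¹)), ?_, ?_, ?_, ?_⟩
  · exact (measurable_const.mul (hrnm.pow_const _)).indicator hU.measurableSet
  · intro x hx
    exact indicator_of_notMem hx _
  · filter_upwards [hq, Density.ae_tendsto hU κ hκ,
      Measure.rnDeriv_lt_top (κ.restrict U) (volume : Measure (E n))] with x h1 h2 h3 hxU
    rw [indicator_of_mem hxU]
    refine ⟨?_, ?_⟩
    · exact ENNReal.mul_ne_top ENNReal.ofReal_ne_top
        (ENNReal.rpow_ne_top_of_nonneg (by positivity) h3.ne)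
    · rcases h1 hxU with h1 | h1
      · intro c' hc'
        exact h1 c' (lt_of_le_of_lt (zero_le) hc')
      · exact Density.pl_point hn ha h3 (h2 hxU) h1
  · intro T hT
    have e1 : ∀ x, T x * (U.indicator (fun x => ENNReal.ofReal a * rn x ^ ((n : ℝ)⁻¹)) x) ^ n ≤
        ENNReal.ofReal a ^ n * (rn x * T x) := by
      intro x
      by_cases hx : x ∈ U
      · rw [indicator_of_mem hx, mul_pow, ← ENNReal.rpow_natCast (rn x ^ ((n : ℝ)⁻¹)),
          ← ENNReal.rpow_mul, inv_mul_cancel₀ hn0, ENNReal.rpow_one]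
        apply le_of_eq; ring
      · rw [indicator_of_notMem hx, zero_pow hn1, mul_zero]
        exact zero_le
    calc ∫⁻ x, T x * (U.indicator (fun x => ENNReal.ofReal a * rn x ^ ((n : ℝ)⁻¹)) x) ^ n
        ≤ ∫⁻ x, ENNReal.ofReal a ^ n * (rn x * T x) := lintegral_mono e1
      _ = ENNReal.ofReal a ^ n * ∫⁻ x, (rn x * T x) :=
          lintegral_const_mul _ (hrnm.mul hT)
      _ = ENNReal.ofReal a ^ n * ∫⁻ x, T x ∂(volume.withDensity rn) := by
          rw [lintegral_withDensity_eq_lintegral_mul _ hrnm hT]; rfl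
      _ ≤ ENNReal.ofReal a ^ n * ∫⁻ x in U, T x ∂κ := by
          gcongr
          exact Measure.withDensity_rnDeriv_le _ _

end Pool.Agent.Lib.MP_591455_an
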