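import Pool.Agent.Lib.MP_591455_an.Defs

/-!
Auxiliary lemmas for the modules EnergyF and EnergyG.
-/

open MeasureTheory Set Metric Filter Topology
open scoped ENNReal NNReal

namespace Pool.Agent.Lib.MP_591455_an.EnergyAux

theorem qs_mono {n : ℕ} {f : E n → E n} {H H' : ℝ} {x : E n} (h : Qs f H x) (hH : H ≤ H') :
    Qs f H' x := by
  obtain ⟨δ, hδ, h⟩ := h
  exact ⟨δ, hδ, fun ξ ξ' h1 h2 => (h ξ ξ' h1 h2).trans
    (mul_le_mul_of_nonneg_right hH dist_nonneg)⟩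

theorem ae_all_qs {n : ℕ} {k : ℝ} {f : E n → E n} (hf : QCE n k f) :
    ∀ᵐ x : E n, ∀ H : ℝ, k < H → Qs f H x := by
  have h1 : ∀ᵐ x : E n, ∀ j : ℕ, Qs f (k + 1 / ((j : ℝ) + 1)) x := by
    rw [ae_all_iff]
    intro j
    exact hf.ae _ (by have : (0 : ℝ) < 1 / ((j : ℝ) + 1) := by positivity
                      linarith)
  filter_upwards [h1] with x hx H hH
  obtain ⟨j, hj⟩ := exists_nat_one_div_lt (sub_pos.2 hH)
  exact qs_mono (hx j) (by linarith)

section PL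

variable {X Y Z : Type*} [PseudoMetricSpace X] [PseudoMetricSpace Y] [PseudoMetricSpace Z]

theorem pl_continuousAt {h : X → Y} {x : X} {b : ℝ≥0∞} (hb : b ≠ ∞) (hh : PL h x b) :
    ContinuousAt h x := by
  lift b to ℝ≥0 using hb
  have h1 := hh (b + 1) (by exact_mod_cast lt_add_one b)
  rw [ContinuousAt, tendsto_iff_dist_tendsto_zero]
  have h2 : Tendsto (fun y => ((b + 1 : ℝ≥0) : ℝ) * dist y x) (𝓝 x) (𝓝 0) := by
    have h3 : Tendsto (fun y => dist y x) (𝓝 x) (𝓝 0) := by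
      rw [← tendsto_iff_dist_tendsto_zero]; exact tendsto_id
    simpa using h3.const_mul ((b + 1 : ℝ≥0) : ℝ)
  exact squeeze_zero' (Eventually.of_forall fun _ => dist_nonneg) h1 h2

theorem exists_mul_le {a b c : ℝ≥0} (h : a * b < c) : ∃ a' b' : ℝ≥0, a < a' ∧ b < b' ∧ a' * b' ≤ c := by
  have h1 : Tendsto (fun e : ℝ≥0 => (a + e) * (b + e)) (𝓝[>] 0) (𝓝 (a * b)) := by
    have : Continuous (fun e : ℝ≥0 => (a + e) * (b + e)) := by fun_prop
    have h2 := this.tendsto 0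
    simp only [add_zero] at h2
    exact h2.mono_left nhdsWithin_le_nhds
  have h3 : ∀ᶠ e in 𝓝[>] (0 : ℝ≥0), (a + e) * (b + e) < c := h1.eventually (gt_mem_nhds h)
  have h4 : ∀ᶠ e in 𝓝[>] (0 : ℝ≥0), 0 < e := eventually_mem_nhdsWithin
  obtain ⟨e, he, he0⟩ := (h3.and h4).exists
  exact ⟨a + e, b + e, lt_add_of_pos_right a he0, lt_add_of_pos_right b he0, he.le⟩

theorem pl_comp {F : Y → Z} {h : X → Y} {x : X} {a b : ℝ≥0∞} (ha : a ≠ ∞) (hb : b ≠ ∞)
    (hF : PL F (h x) a) (hh : PL h x b) : PL (F ∘ h) x (a * b) := by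
  intro c hc
  have hcont := pl_continuousAt hb hh
  lift a to ℝ≥0 using ha
  lift b to ℝ≥0 using hb
  rw [← ENNReal.coe_mul, ENNReal.coe_lt_coe] at hc
  obtain ⟨a', b', ha', hb', hab⟩ := exists_mul_le hc
  have h1 := hcont.eventually (hF a' (by exact_mod_cast ha'))
  have h2 := hh b' (by exact_mod_cast hb')
  filter_upwards [h1, h2] with y hy1 hy2
  calc dist ((F ∘ h) y) ((F ∘ h) x) ≤ a' * dist (h y) (h x) := hy1
    _ ≤ a' * (b' * dist y x) := by gcongr
    _ = (a' * b' : ℝ≥0) * dist y x := by push_cast; ring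
    _ ≤ c * dist y x := by gcongr

theorem pl_congr {ψ φ : X → Y} {x : X} {c : ℝ≥0∞} (h : ψ =ᶠ[𝓝 x] φ) (hp : PL φ x c) :
    PL ψ x c := by
  intro c' hc'
  filter_upwards [hp c' hc', h] with y hy1 hy2
  rw [hy2, h.eq_of_nhds]
  exact hy1

theorem pl_const {x : X} {y : Y} {c : ℝ≥0∞} : PL (fun _ : X => y) x c := by
  intro c' _
  filter_upwards with z
  simp only [dist_self]
  positivity

theorem pl_mono {ψ : X → Y} {x : X} {c d : ℝ≥0∞} (h : PL ψ x c) (hcd : c ≤ d) : PL ψ x d :=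
  fun c' hc' => h c' (hcd.trans_lt hc')

end PL

/-- Lipschitz images of sets of zero one-dimensional measure are null. -/
theorem volume_image_eq_zero {n : ℕ} {F : E n → ℝ} {L : ℝ≥0} (hF : LipschitzWith L F)
    {Z : Set (E n)} (hZ : Measure.hausdorffMeasure 1 Z = 0) : volume (F '' Z) = 0 := by
  have h1 := hF.hausdorffMeasure_image_le (d := 1) zero_le_one Z
  rw [hZ, mul_zero] at h1
  rw [← hausdorffMeasure_real]
  exact le_antisymm h1 bot_le

theorem Om_ne_zero {n : ℕ} : Om n ≠ 0 := (measure_ball_pos volume (0 : E n) one_pos).ne'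

theorem Om_ne_top {n : ℕ} : Om n ≠ ∞ := measure_ball_lt_top.ne

end Pool.Agent.Lib.MP_591455_an.EnergyAux
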