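import Pool.Agent.Lib.MP_591455_an.Defs

open MeasureTheory Set Metric Filter Topology
open scoped ENNReal NNReal

namespace Pool.Agent.Lib.MP_591455_an.LineCover

open Classical in
/-- the cells of the grid of step r which meet K -/
noncomputable def cells (K : Set ℝ) (a b r : ℝ) : Finset ℤ :=
  (Finset.Icc ⌊a / r⌋ ⌊b / r⌋).filter (fun i => ∃ t ∈ K, ⌊t / r⌋ = i)

theorem mem_cells {K : Set ℝ} {a b r : ℝ} (hr : 0 < r) (hK : K ⊆ Icc a b) {t : ℝ} (ht : t ∈ K) :
    ⌊t / r⌋ ∈ cells K a b r := by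
  classical
  unfold cells
  rw [Finset.mem_filter, Finset.mem_Icc]
  exact ⟨⟨Int.floor_mono (div_le_div_of_nonneg_right (hK ht).1 hr.le),
    Int.floor_mono (div_le_div_of_nonneg_right (hK ht).2 hr.le)⟩, t, ht, rfl⟩

open Classical in
/-- a point of K in the cell i -/
noncomputable def pt (K : Set ℝ) (r : ℝ) (i : ℤ) : ℝ :=
  if h : ∃ t ∈ K, ⌊t / r⌋ = i then h.choose else 0

theorem pt_spec {K : Set ℝ} {a b r : ℝ} (hr : 0 < r) {i : ℤ} (hi : i ∈ cells K a b r) :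
    pt K r i ∈ K ∧ i * r ≤ pt K r i ∧ pt K r i < i * r + r := by
  classical
  unfold cells at hi
  have h := (Finset.mem_filter.1 hi).2
  unfold pt
  rw [dif_pos h]
  obtain ⟨h1, h2⟩ := h.choose_spec
  refine ⟨h1, ?_, ?_⟩
  · have := Int.floor_le (h.choose / r)
    rw [h2, le_div_iff₀ hr] at this
    exact this
  · have := Int.lt_floor_add_one (h.choose / r)
    rw [h2, div_lt_iff₀ hr] at this
    linarith

theorem card_cells {K : Set ℝ} {a b r : ℝ} (hr : 0 < r) :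
    ((cells K a b r).card : ℝ≥0∞) * ENNReal.ofReal r ≤ volume (cthickening r K) := by
  have h1 : ((cells K a b r : Finset ℤ) : Set ℤ).PairwiseDisjoint
      (fun i : ℤ => Ico ((i : ℝ) * r) ((i : ℝ) * r + r)) := by
    intro i _ j _ hij
    rw [Function.onFun, Set.disjoint_left]
    intro y hy1 hy2
    apply hij
    have key : ∀ k : ℤ, y ∈ Ico ((k : ℝ) * r) ((k : ℝ) * r + r) → ⌊y / r⌋ = k := by
      intro k hk
      rw [Int.floor_eq_iff]
      constructor
      · rw [le_div_iff₀ hr]; exact hk.1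
      · rw [div_lt_iff₀ hr]; linarith [hk.2]
    rw [← key i hy1, key j hy2]
  have h2 := measure_biUnion_finset (μ := volume) h1 (fun i _ => measurableSet_Ico)
  have h3 : ∀ i ∈ cells K a b r,
      volume (Ico ((i : ℝ) * r) ((i : ℝ) * r + r)) = ENNReal.ofReal r := by
    intro i _
    rw [Real.volume_Ico]; congr 1; ring
  rw [Finset.sum_congr rfl h3, Finset.sum_const, nsmul_eq_mul] at h2
  rw [← h2]
  apply measure_mono
  intro y hy
  obtain ⟨i, hi, hy⟩ := mem_iUnion₂.1 hy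
  obtain ⟨h4, h5, h6⟩ := pt_spec hr hi
  apply closedBall_subset_cthickening h4 r
  rw [mem_closedBall, Real.dist_eq, abs_le]
  constructor <;> linarith [hy.1, hy.2]

theorem dist_line {n : ℕ} {x v : E n} (hv : ‖v‖ = 1) (s t : ℝ) :
    dist (x + s • v) (x + t • v) = |s - t| := by
  rw [dist_add_left, dist_eq_norm, ← sub_smul, norm_smul, hv, mul_one, Real.norm_eq_abs]

theorem cb_sub {n : ℕ} {x v : E n} {a b t s : ℝ} (ht : t ∈ Icc a b) :
    closedBall (x + t • v) s ⊆ cthickening s ((fun t : ℝ => x + t • v) '' Icc a b) := by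
  have h : x + t • v ∈ ((fun t : ℝ => x + t • v) '' Icc a b) := ⟨t, ht, rfl⟩
  exact closedBall_subset_cthickening h s

theorem far {K : Set ℝ} {a b r lam : ℝ} (hr : 0 < r) {m : ℕ} (hm : 2 * lam + 1 ≤ m) {i j : ℤ}
    (hi : i ∈ cells K a b r) (hj : j ∈ cells K a b r) (hij : j + m ≤ i) :
    lam * r + lam * r < |pt K r i - pt K r j| := by
  obtain ⟨_, h1, h2⟩ := pt_spec hr hi
  obtain ⟨_, h3, h4⟩ := pt_spec hr hj
  have h5 : (j : ℝ) + m ≤ i := by exact_mod_cast hij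
  have h6 : ((j : ℝ) + m) * r ≤ i * r := mul_le_mul_of_nonneg_right h5 hr.le
  have h7 : (2 * lam + 1) * r ≤ m * r := mul_le_mul_of_nonneg_right hm hr.le
  apply lt_of_lt_of_le _ (le_abs_self _)
  nlinarith

theorem sum_kappa {n : ℕ} {κ : Measure (E n)} {x v : E n} (hv : ‖v‖ = 1) {lam : ℝ}
    {K : Set ℝ} {a b r : ℝ} (hr : 0 < r) (hK : K ⊆ Icc a b) {m : ℕ} (hm0 : 0 < m)
    (hm : 2 * lam + 1 ≤ m) :
    ∑ i ∈ cells K a b r, κ (closedBall (x + pt K r i • v) (lam * r)) ≤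
      (m : ℝ≥0∞) * κ (cthickening (lam * r) ((fun t : ℝ => x + t • v) '' Icc a b)) := by
  classical
  have hmaps : ∀ i ∈ cells K a b r, (i % (m : ℤ)).toNat ∈ Finset.range m := by
    intro i _
    rw [Finset.mem_range]
    have h1 : 0 ≤ i % (m : ℤ) := Int.emod_nonneg _ (by omega)
    have h2 : i % (m : ℤ) < m := Int.emod_lt_of_pos _ (by omega)
    omega
  rw [← Finset.sum_fiberwise_of_maps_to hmaps]
  have hj : ∀ j ∈ Finset.range m, ∑ i ∈ cells K a b r with (i % (m : ℤ)).toNat = j,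
      κ (closedBall (x + pt K r i • v) (lam * r)) ≤
      κ (cthickening (lam * r) ((fun t : ℝ => x + t • v) '' Icc a b)) := by
    intro j _
    have hd : (((cells K a b r).filter (fun i => (i % (m : ℤ)).toNat = j) : Finset ℤ) :
        Set ℤ).PairwiseDisjoint (fun i => closedBall (x + pt K r i • v) (lam * r)) := by
      intro i hi i' hi' hne
      rw [Finset.mem_coe, Finset.mem_filter] at hi hi'
      have h1 : 0 ≤ i % (m : ℤ) := Int.emod_nonneg _ (by omega)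
      have h2 : 0 ≤ i' % (m : ℤ) := Int.emod_nonneg _ (by omega)
      have h3 : i % (m : ℤ) = i' % (m : ℤ) := by
        have := hi.2.trans hi'.2.symm
        omega
      have h4 : (m : ℤ) ∣ i - i' := Int.ModEq.dvd (Eq.symm h3)
      have hdis : ∀ p q : ℤ, p ∈ cells K a b r → q ∈ cells K a b r → (m : ℤ) ∣ p - q → q < p →
          lam * r + lam * r < |pt K r p - pt K r q| := by
        intro p q hp hq hdvd hlt
        apply far hr hm hp hq
        have := Int.le_of_dvd (by omega) hdvd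
        omega
      apply closedBall_disjoint_closedBall
      rw [dist_line hv]
      rcases lt_or_gt_of_ne hne with h | h
      · rw [abs_sub_comm]
        exact hdis i' i hi'.1 hi.1 ((dvd_sub_comm).1 h4) h
      · exact hdis i i' hi.1 hi'.1 h4 h
    rw [← measure_biUnion_finset hd (fun i _ => isClosed_closedBall.measurableSet)]
    apply measure_mono
    apply iUnion₂_subset
    intro i hi
    rw [Finset.mem_filter] at hi
    exact cb_sub (hK (pt_spec hr hi.1).1)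
  calc _ ≤ ∑ j ∈ Finset.range m,
        κ (cthickening (lam * r) ((fun t : ℝ => x + t • v) '' Icc a b)) := Finset.sum_le_sum hj
    _ = _ := by simp

theorem main_sum {n : ℕ} (hn : 2 ≤ n) {h : E n → E n} {κ : Measure (E n)} {x v : E n}
    (hv : ‖v‖ = 1) {C M : ℝ≥0∞} {lam : ℝ} (hlam : 1 ≤ lam)
    {a b r : ℝ} (hr : 0 < r)
    (hT : κ (cthickening (lam * r) ((fun t : ℝ => x + t • v) '' Icc a b)) ≤
      M * ENNReal.ofReal (lam * r) ^ (n - 1))
    {K : Set ℝ} (hK : K ⊆ Icc a b)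
    (hq : ∀ t ∈ K, ∀ z : E n, dist z (x + t • v) ≤ r →
        edist (h z) (h (x + t • v)) ^ n ≤ C * κ (closedBall (x + t • v) (lam * r)))
    {m : ℕ} (hm0 : 0 < m) (hm : 2 * lam + 1 ≤ m) :
    ∑ i ∈ cells K a b r, ediam (h '' closedBall (x + pt K r i • v) r) ≤
      (2 * (C * m * M * ENNReal.ofReal lam ^ (n - 1)) ^ ((n : ℝ)⁻¹)) *
        volume (cthickening r K) ^ (((n : ℝ) - 1) / n) := by
  have hnpos : 0 < (n : ℝ) := by positivity
  have hn0 : (n : ℝ) ≠ 0 := hnpos.ne'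
  set κi : ℤ → ℝ≥0∞ := fun i => κ (closedBall (x + pt K r i • v) (lam * r)) with hκi
  have e1 : ∀ i ∈ cells K a b r, ediam (h '' closedBall (x + pt K r i • v) r) ≤
      2 * (C * κi i) ^ ((n : ℝ)⁻¹) := by
    intro i hi
    have hp := (pt_spec hr hi).1
    have e2 : ∀ z ∈ closedBall (x + pt K r i • v) r,
        edist (h z) (h (x + pt K r i • v)) ≤ (C * κi i) ^ ((n : ℝ)⁻¹) := by
      intro z hz
      rw [ENNReal.le_rpow_inv_iff hnpos, ENNReal.rpow_natCast]
      exact hq _ hp z hz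
    apply ediam_le
    rintro _ ⟨z, hz, rfl⟩ _ ⟨w, hw, rfl⟩
    calc edist (h z) (h w) ≤ edist (h z) (h (x + pt K r i • v)) +
          edist (h w) (h (x + pt K r i • v)) := edist_triangle_right _ _ _
      _ ≤ (C * κi i) ^ ((n : ℝ)⁻¹) + (C * κi i) ^ ((n : ℝ)⁻¹) := add_le_add (e2 z hz) (e2 w hw)
      _ = _ := by rw [two_mul]
  set V := volume (cthickening r K) with hV
  set A := C * m * M * ENNReal.ofReal lam ^ (n - 1) with hA
  set D := ∑ i ∈ cells K a b r, (C * κi i) ^ ((n : ℝ)⁻¹) with hD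
  have e3 : D ^ (n : ℝ) ≤ A * V ^ ((n : ℝ) - 1) := by
    have h1 := ENNReal.rpow_sum_le_const_mul_sum_rpow (cells K a b r)
      (fun i => (C * κi i) ^ ((n : ℝ)⁻¹)) (p := (n : ℝ)) (by exact_mod_cast (by omega : 1 ≤ n))
    have h2 : ∑ i ∈ cells K a b r, ((C * κi i) ^ ((n : ℝ)⁻¹)) ^ (n : ℝ) =
        C * ∑ i ∈ cells K a b r, κi i := by
      rw [Finset.mul_sum]
      apply Finset.sum_congr rfl
      intro i _
      rw [← ENNReal.rpow_mul, inv_mul_cancel₀ hn0, ENNReal.rpow_one]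
    rw [h2] at h1
    have h3 : ∑ i ∈ cells K a b r, κi i ≤ (m : ℝ≥0∞) * (M * ENNReal.ofReal (lam * r) ^ (n - 1)) :=
      (sum_kappa hv hr hK hm0 hm).trans (by gcongr)
    have h4 : ((n : ℝ) - 1) = ((n - 1 : ℕ) : ℝ) := by
      rw [Nat.cast_sub (by omega)]; simp
    rw [h4] at h1 ⊢
    simp only [ENNReal.rpow_natCast] at h1 ⊢
    calc D ^ n ≤ ((cells K a b r).card : ℝ≥0∞) ^ (n - 1) *
          (C * ∑ i ∈ cells K a b r, κi i) := h1
      _ ≤ ((cells K a b r).card : ℝ≥0∞) ^ (n - 1) *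
          (C * ((m : ℝ≥0∞) * (M * ENNReal.ofReal (lam * r) ^ (n - 1)))) := by gcongr
      _ = A * (((cells K a b r).card : ℝ≥0∞) * ENNReal.ofReal r) ^ (n - 1) := by
          rw [ENNReal.ofReal_mul (by linarith), hA, mul_pow, mul_pow]
          ring
      _ ≤ A * V ^ (n - 1) := by
          gcongr
          exact card_cells hr
  have e4 : D ≤ A ^ ((n : ℝ)⁻¹) * V ^ (((n : ℝ) - 1) / n) := by
    have h5 : D ≤ (A * V ^ ((n : ℝ) - 1)) ^ ((n : ℝ)⁻¹) :=
      (ENNReal.le_rpow_inv_iff hnpos).2 e3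
    rw [ENNReal.mul_rpow_of_nonneg _ _ (by positivity), ← ENNReal.rpow_mul,
      ← div_eq_mul_inv] at h5
    exact h5
  calc _ ≤ ∑ i ∈ cells K a b r, 2 * (C * κi i) ^ ((n : ℝ)⁻¹) := Finset.sum_le_sum e1
    _ = 2 * D := by rw [← Finset.mul_sum]
    _ ≤ 2 * (A ^ ((n : ℝ)⁻¹) * V ^ (((n : ℝ) - 1) / n)) := by gcongr
    _ = _ := by rw [mul_assoc]

end Pool.Agent.Lib.MP_591455_an.LineCover

namespace Pool.Agent.Lib.MP_591455_an

theorem line_cover {n : ℕ} (hn : 2 ≤ n) {h : E n → E n} {κ : Measure (E n)} {x v : E n}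
    (hv : ‖v‖ = 1) {C M : ℝ≥0∞} (hC : C ≠ ∞) (hM : M ≠ ∞) {lam : ℝ} (hlam : 1 ≤ lam)
    {a b r₀ δ₀ : ℝ} (hr₀ : 0 < r₀) (hδ₀ : 0 < δ₀)
    (hT : ∀ r : ℝ, 0 < r → r < r₀ →
      κ (cthickening r ((fun t : ℝ => x + t • v) '' Icc a b)) ≤ M * ENNReal.ofReal r ^ (n - 1)) :
    ∃ C' : ℝ≥0∞, C' ≠ ∞ ∧ ∀ K : Set ℝ, K ⊆ Icc a b → IsCompact K →
      (∀ t ∈ K, ∀ s : ℝ, 0 < s → s < δ₀ → ∀ z : E n, dist z (x + t • v) ≤ s →
        edist (h z) (h (x + t • v)) ^ n ≤ C * κ (closedBall (x + t • v) (lam * s))) →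
      Measure.hausdorffMeasure 1 (h '' ((fun t : ℝ => x + t • v) '' K)) ≤
        C' * volume K ^ (((n : ℝ) - 1) / n) := by
  have hnpos : 0 < (n : ℝ) := by positivity
  have hn0 : (n : ℝ) ≠ 0 := hnpos.ne'
  have hlam0 : 0 < lam := by linarith
  set m : ℕ := ⌈2 * lam⌉₊ + 1 with hm
  have hm0 : 0 < m := by omega
  have hm1 : 2 * lam + 1 ≤ (m : ℝ) := by
    rw [hm]; push_cast
    linarith [Nat.le_ceil (2 * lam)]
  set C' : ℝ≥0∞ := 2 * (C * m * M * ENNReal.ofReal lam ^ (n - 1)) ^ ((n : ℝ)⁻¹) with hC'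
  have hC'top : C' ≠ ∞ := by
    rw [hC']
    apply ENNReal.mul_ne_top (by simp)
    apply ENNReal.rpow_ne_top_of_nonneg (by positivity)
    apply ENNReal.mul_ne_top _ (ENNReal.pow_lt_top ENNReal.ofReal_lt_top).ne
    apply ENNReal.mul_ne_top _ hM
    exact ENNReal.mul_ne_top hC (ENNReal.natCast_ne_top m)
  refine ⟨C', hC'top, ?_⟩
  intro K hK hKc hq
  have hexp : 0 < (((n : ℝ) - 1) / n) := by
    apply div_pos _ hnpos
    have : (2 : ℝ) ≤ n := by exact_mod_cast hn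
    linarith
  -- eventually small
  have hev : ∀ᶠ r in 𝓝[>] (0 : ℝ), 0 < r ∧ r < δ₀ ∧ lam * r < r₀ := by
    have h1 : ∀ᶠ r in 𝓝[>] (0 : ℝ), 0 < r := self_mem_nhdsWithin
    have h2 : ∀ᶠ r in 𝓝[>] (0 : ℝ), r < δ₀ := mem_nhdsWithin_of_mem_nhds (Iio_mem_nhds hδ₀)
    have h3 : ∀ᶠ r in 𝓝[>] (0 : ℝ), r < r₀ / lam :=
      mem_nhdsWithin_of_mem_nhds (Iio_mem_nhds (div_pos hr₀ hlam0))
    filter_upwards [h1, h2, h3] with r hr1 hr2 hr3
    refine ⟨hr1, hr2, ?_⟩
    rw [lt_div_iff₀ hlam0] at hr3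
    linarith
  -- bound for the diameters
  have hr0 : Tendsto (fun r : ℝ => 2 * (C * (M * ENNReal.ofReal (lam * r) ^ (n - 1))) ^ ((n : ℝ)⁻¹))
      (𝓝[>] 0) (𝓝 0) := by
    have h1 : Tendsto (fun r : ℝ => ENNReal.ofReal (lam * r) ^ (n - 1)) (𝓝[>] 0) (𝓝 0) := by
      have h2 : Tendsto (fun r : ℝ => ENNReal.ofReal (lam * r) ^ (n - 1)) (𝓝 0)
          (𝓝 (ENNReal.ofReal (lam * 0) ^ (n - 1))) := by
        apply ENNReal.Tendsto.pow
        exact ENNReal.tendsto_ofReal ((continuous_const.mul continuous_id).tendsto _)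
      rw [mul_zero, ENNReal.ofReal_zero, zero_pow (by omega)] at h2
      exact h2.mono_left nhdsWithin_le_nhds
    have h3 : Tendsto (fun r : ℝ => C * (M * ENNReal.ofReal (lam * r) ^ (n - 1))) (𝓝[>] 0)
        (𝓝 (C * (M * 0))) :=
      ENNReal.Tendsto.const_mul (ENNReal.Tendsto.const_mul h1 (Or.inr hM)) (Or.inr hC)
    have h4 := (ENNReal.continuous_rpow_const (y := (n : ℝ)⁻¹)).tendsto (C * (M * 0))
    have h5 := ENNReal.Tendsto.const_mul (h4.comp h3) (Or.inr (by simp : (2 : ℝ≥0∞) ≠ ∞))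
    have h6 : (2 : ℝ≥0∞) * (C * (M * 0)) ^ ((n : ℝ)⁻¹) = 0 := by
      rw [mul_zero, mul_zero, ENNReal.zero_rpow_of_pos (by positivity), mul_zero]
    rw [h6] at h5
    exact h5
  have key := MeasureTheory.Measure.hausdorffMeasure_le_liminf_sum
    (ι := fun r : ℝ => {i : ℤ // i ∈ LineCover.cells K a b r}) 1
    (h '' ((fun t : ℝ => x + t • v) '' K)) (l := 𝓝[>] (0 : ℝ))
    (fun r : ℝ => 2 * (C * (M * ENNReal.ofReal (lam * r) ^ (n - 1))) ^ ((n : ℝ)⁻¹)) hr0
    (fun r i => h '' closedBall (x + LineCover.pt K r i.1 • v) r) ?_ ?_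
  · refine key.trans ?_
    have h1 : (fun r : ℝ => ∑ i : {i : ℤ // i ∈ LineCover.cells K a b r},
        ediam (h '' closedBall (x + LineCover.pt K r i.1 • v) r) ^ (1 : ℝ)) ≤ᶠ[𝓝[>] (0 : ℝ)]
        (fun r => C' * volume (cthickening r K) ^ (((n : ℝ) - 1) / n)) := by
      filter_upwards [hev] with r hr
      obtain ⟨h1, h2, h3⟩ := hr
      simp only [ENNReal.rpow_one]
      rw [Finset.sum_coe_sort (LineCover.cells K a b r)
        (fun i => ediam (h '' closedBall (x + LineCover.pt K r i • v) r))]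
      exact LineCover.main_sum hn hv hlam h1 (hT _ (mul_pos hlam0 h1) h3) hK
        (fun t ht z hz => hq t ht r h1 h2 z hz) hm0 hm1
    refine (liminf_le_liminf h1).trans ?_
    have h2 : Tendsto (fun r => C' * volume (cthickening r K) ^ (((n : ℝ) - 1) / n)) (𝓝[>] (0 : ℝ))
        (𝓝 (C' * volume K ^ (((n : ℝ) - 1) / n))) := by
      apply ENNReal.Tendsto.const_mul _ (Or.inr hC'top)
      have h3 := (tendsto_measure_cthickening_of_isCompact (μ := (volume : Measure ℝ)) hKc).mono_left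
        (nhdsWithin_le_nhds (s := Ioi 0))
      exact ((ENNReal.continuous_rpow_const (y := (((n : ℝ) - 1) / n))).tendsto _).comp h3
    exact h2.liminf_eq.le
  · filter_upwards [hev] with r hr i
    obtain ⟨h1, h2, h3⟩ := hr
    have hp := (LineCover.pt_spec h1 i.2).1
    have hTr := hT _ (mul_pos hlam0 h1) h3
    have e2 : ∀ z ∈ closedBall (x + LineCover.pt K r i.1 • v) r,
        edist (h z) (h (x + LineCover.pt K r i.1 • v)) ≤
          (C * (M * ENNReal.ofReal (lam * r) ^ (n - 1))) ^ ((n : ℝ)⁻¹) := by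
      intro z hz
      rw [ENNReal.le_rpow_inv_iff hnpos, ENNReal.rpow_natCast]
      refine (hq _ hp r h1 h2 z hz).trans ?_
      gcongr
      refine (measure_mono ?_).trans hTr
      exact LineCover.cb_sub (hK hp)
    apply ediam_le
    rintro _ ⟨z, hz, rfl⟩ _ ⟨w, hw, rfl⟩
    calc edist (h z) (h w) ≤ edist (h z) (h (x + LineCover.pt K r i.1 • v)) +
          edist (h w) (h (x + LineCover.pt K r i.1 • v)) := edist_triangle_right _ _ _
      _ ≤ _ := add_le_add (e2 z hz) (e2 w hw)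
      _ = _ := by rw [two_mul]
  · filter_upwards [hev] with r hr
    obtain ⟨h1, h2, h3⟩ := hr
    rintro _ ⟨_, ⟨t, ht, rfl⟩, rfl⟩
    have hi := LineCover.mem_cells h1 hK ht
    refine mem_iUnion.2 ⟨⟨⌊t / r⌋, hi⟩, ?_⟩
    apply mem_image_of_mem
    rw [mem_closedBall, LineCover.dist_line hv]
    obtain ⟨_, h5, h6⟩ := LineCover.pt_spec h1 hi
    have h7 := Int.floor_le (t / r)
    rw [le_div_iff₀ h1] at h7
    have h8 := Int.lt_floor_add_one (t / r)
    rw [div_lt_iff₀ h1] at h8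
    rw [abs_le]
    constructor <;> nlinarith

end Pool.Agent.Lib.MP_591455_an
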