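import Pool.Agent.Lib.MP_591455_an.Defs

open MeasureTheory Set Metric Filter Topology
open scoped ENNReal NNReal

namespace Pool.Agent.Lib.MP_591455_an.Tube

/-- The upper density of a finite measure with respect to a Haar measure is finite a.e. -/
theorem density_bound {W : Type*} [NormedAddCommGroup W] [NormedSpace ℝ W] [FiniteDimensional ℝ W]
    [MeasurableSpace W] [BorelSpace W] (μ : Measure W) [μ.IsAddHaarMeasure]
    (ν : Measure W) [IsFiniteMeasure ν] :
    ∀ᵐ w ∂μ, ∃ (M : ℝ≥0∞) (r₀ : ℝ), M ≠ ∞ ∧ 0 < r₀ ∧ ∀ r : ℝ, 0 < r → r < r₀ →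
      ν (closedBall w r) ≤ M * ENNReal.ofReal r ^ (Module.finrank ℝ W) := by
  have : ProperSpace W := FiniteDimensional.proper ℝ W
  filter_upwards [Besicovitch.ae_tendsto_rnDeriv ν μ, ν.rnDeriv_lt_top μ] with w hw hfin
  have hev : ∀ᶠ r in 𝓝[>] (0:ℝ), ν (closedBall w r) / μ (closedBall w r) <
      ν.rnDeriv μ w + 1 := by
    refine (hw.eventually (gt_mem_nhds ?_))
    exact ENNReal.lt_add_right hfin.ne one_ne_zero
  rw [eventually_nhdsWithin_iff, Metric.eventually_nhds_iff] at hev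
  obtain ⟨r₀, hr₀, H⟩ := hev
  refine ⟨(ν.rnDeriv μ w + 1) * μ (ball 0 1), r₀, ?_, hr₀, fun r h0 h1 => ?_⟩
  · exact ENNReal.mul_ne_top (by simp [hfin.ne]) measure_ball_lt_top.ne
  · have h2 := (H (y := r) (by rw [Real.dist_eq, sub_zero, abs_of_pos h0]; exact h1) h0).le
    have hpos : μ (closedBall w r) ≠ 0 := (measure_closedBall_pos μ w h0).ne'
    have hfin' : μ (closedBall w r) ≠ ∞ := measure_closedBall_lt_top.ne
    rw [ENNReal.div_le_iff hpos hfin'] at h2
    rw [Measure.addHaar_closedBall μ w h0.le, ENNReal.ofReal_pow h0.le] at h2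
    refine h2.trans (le_of_eq ?_)
    ring

/-- The part of the theorem in the quotient space. -/
theorem core {n : ℕ} {W : Type*} [NormedAddCommGroup W] [NormedSpace ℝ W]
    [FiniteDimensional ℝ W] [MeasurableSpace W] [BorelSpace W] (μ : Measure W)
    [μ.IsAddHaarMeasure] {U : Set (E n)} (hU : IsOpen U) (κ : Measure (E n))
    (hκ : ∀ K : Set (E n), K ⊆ U → IsCompact K → κ K < ∞) {v : E n}
    (π : E n →L[ℝ] W) (c : E n →L[ℝ] ℝ) (ι : W →L[ℝ] E n)
    (hdec : ∀ x, x = c x • v + ι (π x)) (hcv : c v = 1) (hπv : π v = 0)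
    (hcι : ∀ w, c (ι w) = 0) (hπι : ∀ w, π (ι w) = w)
    (nπ : ∀ x, ‖π x‖ ≤ ‖x‖) (nc : ∀ x, |c x| ≤ ‖x‖) (nι : ∀ w, ‖ι w‖ ≤ ‖w‖) (hv : ‖v‖ = 1) :
    ∀ᵐ w ∂μ, ∀ a b : ℝ, (∀ t ∈ Icc a b, ι w + t • v ∈ U) →
      ∃ (M : ℝ≥0∞) (r₀ : ℝ), M ≠ ∞ ∧ 0 < r₀ ∧ ∀ r : ℝ, 0 < r → r < r₀ →
        κ (cthickening r ((fun t : ℝ => ι w + t • v) '' Icc a b)) ≤
          M * ENNReal.ofReal r ^ (Module.finrank ℝ W) := by
  have : ProperSpace W := FiniteDimensional.proper ℝ W
  -- the boxes
  let Box : ℝ → ℝ → W → ℝ → Set (E n) := fun a b q ρ =>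
    (fun p : ℝ × W => ι p.2 + p.1 • v) '' (Icc a b ×ˢ closedBall q ρ)
  have hBoxc : ∀ a b q ρ, IsCompact (Box a b q ρ) := by
    intro a b q ρ
    refine (isCompact_Icc.prod (isCompact_closedBall q ρ)).image ?_
    exact ((ι.continuous.comp continuous_snd).add (continuous_fst.smul continuous_const))
  have hBoxm : ∀ a b q ρ, MeasurableSet (Box a b q ρ) := fun a b q ρ => (hBoxc a b q ρ).measurableSet
  obtain ⟨D, hDc, hDd⟩ := TopologicalSpace.exists_countable_dense W
  have hall : ∀ᵐ w ∂μ, ∀ (a b : ℚ) (q : W) (_ : q ∈ D) (ρ : ℚ), Box a b q ρ ⊆ U →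
      ∃ (M : ℝ≥0∞) (r₀ : ℝ), M ≠ ∞ ∧ 0 < r₀ ∧ ∀ r : ℝ, 0 < r → r < r₀ →
        ((κ.restrict (Box a b q ρ)).map π) (closedBall w r) ≤
          M * ENNReal.ofReal r ^ (Module.finrank ℝ W) := by
    rw [ae_all_iff]; intro a
    rw [ae_all_iff]; intro b
    rw [ae_ball_iff hDc]; intro q hq
    rw [ae_all_iff]; intro ρ
    by_cases hsub : Box a b q ρ ⊆ U
    · have hfin : κ (Box a b q ρ) < ∞ := hκ _ hsub (hBoxc _ _ _ _)
      have : IsFiniteMeasure (κ.restrict (Box a b q ρ)) := ⟨by simpa using hfin⟩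
      filter_upwards [density_bound μ ((κ.restrict (Box a b q ρ)).map π)] with w hw _
      exact hw
    · exact Filter.Eventually.of_forall fun w h => absurd h hsub
  filter_upwards [hall] with w hw a b hab
  by_cases hle : a ≤ b
  swap
  · refine ⟨0, 1, by simp, one_pos, fun r _ _ => ?_⟩
    rw [Icc_eq_empty hle]
    simp
  set S : Set (E n) := (fun t : ℝ => ι w + t • v) '' Icc a b with hS
  have hSc : IsCompact S := isCompact_Icc.image (by fun_prop)
  have hSU : S ⊆ U := by
    rintro _ ⟨t, ht, rfl⟩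
    exact hab t ht
  obtain ⟨ε, hε, hεU⟩ := hSc.exists_cthickening_subset_open hU hSU
  obtain ⟨q, hqD, hq⟩ := hDd.exists_dist_lt w (ε := ε / 8) (by positivity)
  obtain ⟨ρ, hρ1, hρ2⟩ := exists_rat_btwn (show ε / 8 < ε / 4 by linarith)
  obtain ⟨a', ha1, ha2⟩ := exists_rat_btwn (show a - ε / 4 < a by linarith)
  obtain ⟨b', hb1, hb2⟩ := exists_rat_btwn (show b < b + ε / 4 by linarith)
  have hsub : Box a' b' q ρ ⊆ U := by
    rintro _ ⟨⟨t, z⟩, ⟨ht, hz⟩, rfl⟩
    apply hεU
    -- the nearest point of the segment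
    have hmem : ι w + (max a (min b t)) • v ∈ S :=
      ⟨max a (min b t), ⟨le_max_left _ _, max_le hle (min_le_left _ _)⟩, rfl⟩
    refine mem_cthickening_of_dist_le _ _ _ _ hmem ?_
    have h1 : |t - max a (min b t)| ≤ ε / 4 := by
      simp only [mem_Icc] at ht
      rw [abs_le]
      constructor
      · have : max a (min b t) ≤ t + ε / 4 := by
          apply max_le
          · linarith [ht.1]
          · exact (min_le_right _ _).trans (by linarith)
        linarith
      · have : t - ε / 4 ≤ max a (min b t) := by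
          apply le_max_of_le_right
          apply le_min
          · linarith [ht.2]
          · linarith
        linarith
    have h2 : ‖z - w‖ ≤ ε / 4 + ε / 8 := by
      rw [mem_closedBall] at hz
      have := dist_triangle z q w
      rw [dist_comm w q] at hq
      rw [← dist_eq_norm]
      linarith
    have h3 : ι z + t • v - (ι w + (max a (min b t)) • v) =
        ι (z - w) + (t - max a (min b t)) • v := by
      rw [map_sub, sub_smul]; abel
    show dist (ι z + t • v) _ ≤ ε
    rw [dist_eq_norm, h3]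
    calc _ ≤ ‖ι (z - w)‖ + ‖(t - max a (min b t)) • v‖ := norm_add_le _ _
      _ ≤ (ε / 4 + ε / 8) + ε / 4 := by
        refine add_le_add ((nι _).trans h2) ?_
        rw [norm_smul, hv, mul_one]
        exact h1
      _ ≤ ε := by linarith
  obtain ⟨M, r₀, hM, hr₀, H⟩ := hw a' b' q hqD ρ hsub
  have hδ : 0 < min r₀ (min (a - a') (min (b' - b) (ρ - ε / 8))) := by
    refine lt_min hr₀ (lt_min (by linarith) (lt_min (by linarith) (by linarith)))
  refine ⟨M, _, hM, hδ, fun r h0 h1 => ?_⟩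
  refine le_trans ?_ (H r h0 (h1.trans_le (min_le_left _ _)))
  have h1a : r < a - a' := h1.trans_le ((min_le_right _ _).trans (min_le_left _ _))
  have h1b : r < b' - b := h1.trans_le
    ((min_le_right _ _).trans ((min_le_right _ _).trans (min_le_left _ _)))
  have h1c : r < ρ - ε / 8 := h1.trans_le
    ((min_le_right _ _).trans ((min_le_right _ _).trans (min_le_right _ _)))
  have hsub2 : cthickening r S ⊆ π ⁻¹' (closedBall w r) ∩ Box a' b' q ρ := by
    intro y hy
    rw [hSc.cthickening_eq_biUnion_closedBall h0.le] at hy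
    simp only [mem_iUnion] at hy
    obtain ⟨_, ⟨t, ht, rfl⟩, hy⟩ := hy
    simp only [mem_closedBall, dist_eq_norm] at hy
    simp only [mem_Icc] at ht
    have hpi : ‖π y - w‖ ≤ r := by
      have h := nπ (y - (ι w + t • v))
      rw [map_sub, map_add, map_smul, hπv, smul_zero, add_zero, hπι] at h
      exact h.trans hy
    have hc : |c y - t| ≤ r := by
      have h := nc (y - (ι w + t • v))
      rw [map_sub, map_add, map_smul, hcv, hcι, zero_add, smul_eq_mul, mul_one] at h
      exact h.trans hy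
    rw [abs_le] at hc
    refine ⟨by rw [mem_preimage, mem_closedBall, dist_eq_norm]; exact hpi, ⟨(c y, π y), ⟨?_, ?_⟩, ?_⟩⟩
    · show c y ∈ Icc (a' : ℝ) b'
      exact ⟨by linarith [hc.1, ht.1], by linarith [hc.2, ht.2]⟩
    · show π y ∈ closedBall q (ρ : ℝ)
      rw [mem_closedBall]
      have := dist_triangle (π y) w q
      rw [dist_eq_norm (π y) w] at this
      linarith
    · show ι (π y) + c y • v = y
      rw [add_comm]
      exact (hdec y).symm
  rw [Measure.map_apply π.continuous.measurable measurableSet_closedBall,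
    Measure.restrict_apply (π.continuous.measurable measurableSet_closedBall)]
  exact measure_mono hsub2

end Pool.Agent.Lib.MP_591455_an.Tube

namespace Pool.Agent.Lib.MP_591455_an

open Tube in
theorem tube_ae {n : ℕ} (hn : 2 ≤ n) {U : Set (E n)} (hU : IsOpen U) (κ : Measure (E n))
    (hκ : ∀ K : Set (E n), K ⊆ U → IsCompact K → κ K < ∞) {v : E n} (hv : ‖v‖ = 1) :
    ∀ᵐ x : E n, ∀ a b : ℝ, (∀ t ∈ Icc a b, x + t • v ∈ U) →
      ∃ (M : ℝ≥0∞) (r₀ : ℝ), M ≠ ∞ ∧ 0 < r₀ ∧ ∀ r : ℝ, 0 < r → r < r₀ →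
        κ (cthickening r ((fun t : ℝ => x + t • v) '' Icc a b)) ≤
          M * ENNReal.ofReal r ^ (n - 1) := by
  have _ := hn
  let W : Submodule ℝ (E n) := (ℝ ∙ v)ᗮ
  let μ : Measure W := Measure.addHaar
  let π : E n →L[ℝ] W := W.orthogonalProjectionOnto
  let c : E n →L[ℝ] ℝ := innerSL ℝ v
  let ι : W →L[ℝ] E n := W.subtypeL
  have hvne : v ≠ 0 := by
    intro h; rw [h, norm_zero] at hv; exact zero_ne_one hv
  have hfr : Module.finrank ℝ W = n - 1 := by
    have h1 := Submodule.finrank_add_finrank_orthogonal (ℝ ∙ v)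
    rw [finrank_span_singleton hvne, finrank_euclideanSpace_fin] at h1
    show Module.finrank ℝ ((ℝ ∙ v)ᗮ : Submodule ℝ (E n)) = n - 1
    omega
  have hdec : ∀ x : E n, x = c x • v + ι (π x) := by
    intro x
    have h1 := Submodule.starProjection_add_starProjection_orthogonal (K := (ℝ ∙ v)) x
    rw [Submodule.starProjection_singleton, hv] at h1
    conv_lhs => rw [← h1]
    simp [c, ι, π, W]
  have hcv : c v = 1 := by
    show inner ℝ v v = 1
    rw [real_inner_self_eq_norm_sq, hv]; norm_num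
  have hcι : ∀ w : W, c (ι w) = 0 := by
    intro w
    show inner ℝ v (w : E n) = 0
    exact Submodule.mem_orthogonal_singleton_iff_inner_right.1 w.2
  have hπι : ∀ w : W, π (ι w) = w := by
    intro w
    exact Submodule.orthogonalProjectionOnto_mem_subspace_eq_self w
  have hπv : π v = 0 := by
    have h := hdec v
    rw [hcv, one_smul] at h
    have h2 : ι (π v) = 0 := by
      have := h.symm
      simpa using this
    exact Subtype.ext h2
  have nπ : ∀ x, ‖π x‖ ≤ ‖x‖ := fun x => W.norm_orthogonalProjectionOnto_apply_le x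
  have nc : ∀ x, |c x| ≤ ‖x‖ := by
    intro x
    have := abs_real_inner_le_norm v x
    rw [hv, one_mul] at this
    exact this
  have nι : ∀ w, ‖ι w‖ ≤ ‖w‖ := fun w => le_refl _
  have hcore := core μ hU κ hκ π c ι hdec hcv hπv hcι hπι nπ nc nι hv
  rw [hfr] at hcore
  obtain ⟨s, hs, hsm, hs0⟩ := (ae_iff.1 hcore |> fun h => exists_measurable_superset_of_null h)
  have hsurj : Function.Surjective (π : E n →ₗ[ℝ] W) := fun w => ⟨ι w, hπι w⟩
  have hlift := (ae_comp_linearMap_mem_iff (π : E n →ₗ[ℝ] W) (volume : Measure (E n)) μ hsurj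
    hsm.compl).2 (by rw [ae_iff]; simpa using hs0)
  filter_upwards [hlift] with x hx a b hab
  have hP := not_not.1 (fun h => hx (hs h))
  have hx' := hdec x
  have himg : ∀ t : ℝ, ι (π x) + t • v = x + (t - c x) • v := by
    intro t
    conv_rhs => rw [hx']
    rw [sub_smul]
    simp only [map_add, map_smul, hcv, hcι]
    module
  obtain ⟨M, r₀, hM, hr₀, H⟩ := hP (a + c x) (b + c x) (by
    intro t ht
    have : t - c x ∈ Icc a b := ⟨by linarith [ht.1], by linarith [ht.2]⟩
    have h := hab _ this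
    show ι (π x) + t • v ∈ U
    rw [himg]
    exact h)
  refine ⟨M, r₀, hM, hr₀, fun r h0 h1 => ?_⟩
  have hset : (fun t : ℝ => ι (π x) + t • v) '' Icc (a + c x) (b + c x) =
      (fun t : ℝ => x + t • v) '' Icc a b := by
    ext y
    constructor
    · rintro ⟨t, ht, rfl⟩
      exact ⟨t - c x, ⟨by linarith [ht.1], by linarith [ht.2]⟩, (himg t).symm⟩
    · rintro ⟨t, ht, rfl⟩
      refine ⟨t + c x, ⟨by linarith [ht.1], by linarith [ht.2]⟩, ?_⟩
      show ι (π x) + (t + c x) • v = _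
      rw [himg, add_sub_cancel_right]
  have h := H r h0 h1
  rw [← hset]
  exact h

end Pool.Agent.Lib.MP_591455_an
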