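import Pool.Agent.Lib.MP_591455_an.Defs
import Pool.Agent.Lib.MP_591455_an.LineCover
import Pool.Agent.Lib.MP_591455_an.TubeAE

open MeasureTheory Set Metric Filter Topology
open scoped ENNReal NNReal

namespace Pool.Agent.Lib.MP_591455_an.LinesAux

variable {n : ℕ}

theorem dist_line {x v : E n} (hv : ‖v‖ = 1) (s t : ℝ) :
    dist (x + s • v) (x + t • v) = dist s t := by
  rw [dist_add_left, dist_eq_norm, ← sub_smul, norm_smul, hv, mul_one, Real.dist_eq,
    Real.norm_eq_abs]

theorem continuous_line (x v : E n) : Continuous (fun t : ℝ => x + t • v) := by fun_prop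

theorem injective_line {x v : E n} (hv : ‖v‖ = 1) :
    Function.Injective (fun t : ℝ => x + t • v) := by
  intro s t h
  have h1 : dist (x + s • v) (x + t • v) = 0 := by
    have : x + s • v = x + t • v := h
    rw [this, dist_self]
  rw [dist_line hv] at h1
  exact dist_eq_zero.1 h1

/-- The good set is contained in a closed set on which the inequality holds with twice the
radius. -/
theorem closure_step {U : Set (E n)} (hU : IsOpen U) {h : E n → E n} (hc : ContinuousOn h U)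
    (κ : Measure (E n)) {C : ℝ≥0∞} {lam : ℝ} (hlam : 1 ≤ lam) {x v : E n} (hv : ‖v‖ = 1) {δ : ℝ}
    {G : Set ℝ} (hG : ∀ t ∈ G, ∀ s : ℝ, 0 < s → s < δ → ∀ z : E n, dist z (x + t • v) ≤ s →
        edist (h z) (h (x + t • v)) ^ n ≤ C * κ (closedBall (x + t • v) (lam * s)))
    {t : ℝ} (ht : t ∈ closure G) (htU : x + t • v ∈ U) :
    ∀ s : ℝ, 0 < s → s < δ / 2 → ∀ z : E n, dist z (x + t • v) ≤ s →
        edist (h z) (h (x + t • v)) ^ n ≤ C * κ (closedBall (x + t • v) (2 * lam * s)) := by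
  intro s hs hsδ z hz
  have hne : (𝓝[G] t).NeBot := mem_closure_iff_nhdsWithin_neBot.1 ht
  have hcont : Tendsto (fun t' : ℝ => x + t' • v) (𝓝[G] t) (𝓝 (x + t • v)) :=
    ((continuous_line x v).tendsto t).mono_left nhdsWithin_le_nhds
  have hh : Tendsto (fun t' : ℝ => h (x + t' • v)) (𝓝[G] t) (𝓝 (h (x + t • v))) :=
    ((hc.continuousAt (hU.mem_nhds htU)).tendsto).comp hcont
  have he : Tendsto (fun t' : ℝ => edist (h z) (h (x + t' • v)) ^ n) (𝓝[G] t)
      (𝓝 (edist (h z) (h (x + t • v)) ^ n)) :=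
    ((ENNReal.continuous_pow n).tendsto _).comp (tendsto_const_nhds.edist hh)
  refine le_of_tendsto he ?_
  have h1 : ∀ᶠ t' in 𝓝[G] t, dist t' t < s / 2 :=
    nhdsWithin_le_nhds (Metric.ball_mem_nhds t (by positivity))
  have h2 : ∀ᶠ t' in 𝓝[G] t, t' ∈ G := self_mem_nhdsWithin
  filter_upwards [h1, h2] with t' ht' hG'
  have hd : dist (x + t • v) (x + t' • v) = dist t' t := by
    rw [dist_line hv, dist_comm]
  have hd0 : 0 ≤ dist t' t := dist_nonneg
  calc edist (h z) (h (x + t' • v)) ^ n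
      ≤ C * κ (closedBall (x + t' • v) (lam * (s + dist t' t))) := by
        refine hG t' hG' (s + dist t' t) (by linarith) (by linarith) z ?_
        calc dist z (x + t' • v) ≤ dist z (x + t • v) + dist (x + t • v) (x + t' • v) :=
              dist_triangle _ _ _
          _ ≤ s + dist t' t := by rw [hd]; linarith
    _ ≤ C * κ (closedBall (x + t • v) (2 * lam * s)) := by
        gcongr
        apply closedBall_subset_closedBall'
        rw [dist_line hv]
        nlinarith

/-- Null subsets of a segment contained in `U` have images of length zero. -/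
theorem segment_null (hn : 2 ≤ n) {U : Set (E n)} (hU : IsOpen U) {h : E n → E n}
    (hc : ContinuousOn h U) (hi : InjOn h U) (κ : Measure (E n)) {C : ℝ≥0∞} (hC : C ≠ ∞) {lam : ℝ}
    (hlam : 1 ≤ lam)
    (hq : ∀ x ∈ U, ∃ δ : ℝ, 0 < δ ∧ ∀ s : ℝ, 0 < s → s < δ → closedBall x (lam * s) ⊆ U ∧
      ∀ z : E n, dist z x ≤ s → edist (h z) (h x) ^ n ≤ C * κ (closedBall x (lam * s)))
    {x v : E n} (hv : ‖v‖ = 1) {a b : ℝ} (hab : ∀ t ∈ Icc a b, x + t • v ∈ U)
    {M : ℝ≥0∞} {r₀ : ℝ} (hM : M ≠ ∞) (hr₀ : 0 < r₀)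
    (hT : ∀ r : ℝ, 0 < r → r < r₀ →
      κ (cthickening r ((fun t : ℝ => x + t • v) '' Icc a b)) ≤ M * ENNReal.ofReal r ^ (n - 1))
    {N : Set ℝ} (hN : N ⊆ Icc a b) (hN0 : volume N = 0) :
    Measure.hausdorffMeasure 1 (h '' ((fun t : ℝ => x + t • v) '' N)) = 0 := by
  classical
  set L : ℝ → E n := fun t : ℝ => x + t • v with hL
  have hLi : Function.Injective L := injective_line hv
  have hLc : Continuous L := continuous_line x v
  -- a measurable null set containing N
  set N' : Set ℝ := toMeasurable volume N ∩ Icc a b with hN'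
  have hN'm : MeasurableSet N' := (measurableSet_toMeasurable _ _).inter measurableSet_Icc
  have hN'0 : volume N' = 0 := by
    refine measure_mono_null inter_subset_left ?_
    rw [measure_toMeasurable, hN0]
  have hNN' : N ⊆ N' := subset_inter (subset_toMeasurable _ _) hN
  -- good sets
  let G : ℕ → Set ℝ := fun m => {t | t ∈ Icc a b ∧ ∀ s : ℝ, 0 < s → s < 1 / ((m : ℝ) + 1) →
    ∀ z : E n, dist z (x + t • v) ≤ s →
        edist (h z) (h (x + t • v)) ^ n ≤ C * κ (closedBall (x + t • v) (lam * s))}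
  have hGcov : ∀ t ∈ Icc a b, ∃ m, t ∈ G m := by
    intro t ht
    obtain ⟨δ, hδ, hδ'⟩ := hq (x + t • v) (hab t ht)
    obtain ⟨m, hm⟩ := exists_nat_one_div_lt hδ
    exact ⟨m, ht, fun s hs hs' => (hδ' s hs (hs'.trans hm)).2⟩
  have hFsub : ∀ m, closure (G m) ⊆ Icc a b := fun m =>
    closure_minimal (fun t ht => ht.1) isClosed_Icc
  have hFc : ∀ m, IsCompact (closure (G m)) := fun m =>
    isCompact_Icc.of_isClosed_subset isClosed_closure (hFsub m)
  have hexp : (0 : ℝ) < ((n : ℝ) - 1) / n := by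
    have : (2 : ℝ) ≤ n := by exact_mod_cast hn
    apply div_pos <;> linarith
  -- the composed map
  set φ : ℝ → E n := fun t => h (L t) with hφ
  have himg : ∀ A : Set ℝ, h '' (L '' A) = φ '' A := fun A => image_image h L A
  have hφc : ContinuousOn φ (Icc a b) :=
    hc.comp hLc.continuousOn (fun t ht => hab t ht)
  have hφi : InjOn φ (Icc a b) := by
    intro s hs t ht hst
    exact hLi (hi (hab s hs) (hab t ht) hst)
  -- each piece is null
  have key : ∀ m, Measure.hausdorffMeasure 1 (φ '' (N' ∩ closure (G m))) = 0 := by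
    intro m
    have hδ₀ : (0 : ℝ) < 1 / ((m : ℝ) + 1) / 2 := by positivity
    obtain ⟨C', hC', hcov⟩ := line_cover hn (h := h) (κ := κ) (x := x) hv hC hM
      (lam := 2 * lam) (by linarith) hr₀ hδ₀ hT
    have hcov' : ∀ K : Set ℝ, K ⊆ closure (G m) → IsCompact K →
        Measure.hausdorffMeasure 1 (φ '' K) ≤ C' * volume K ^ (((n : ℝ) - 1) / n) := by
      intro K hK hKc
      rw [← himg]
      refine hcov K (hK.trans (hFsub m)) hKc ?_
      intro t ht
      exact closure_step hU hc κ hlam hv (G := G m) (δ := 1 / ((m : ℝ) + 1))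
        (fun t ht => ht.2) (hK ht) (hab t (hFsub m (hK ht)))
    set B : Set (E n) := φ '' (N' ∩ closure (G m)) with hB
    have hBm : MeasurableSet B := by
      refine MeasurableSet.image_of_continuousOn_injOn (hN'm.inter isClosed_closure.measurableSet)
        (hφc.mono ?_) (hφi.mono ?_)
      · exact inter_subset_right.trans (hFsub m)
      · exact inter_subset_right.trans (hFsub m)
    have hBfin : Measure.hausdorffMeasure 1 B ≠ ∞ := by
      have h1 : Measure.hausdorffMeasure 1 B ≤ C' * volume (closure (G m)) ^ (((n : ℝ) - 1) / n) :=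
        (measure_mono (image_mono inter_subset_right)).trans (hcov' _ subset_rfl (hFc m))
      refine ne_top_of_le_ne_top ?_ h1
      exact ENNReal.mul_ne_top hC' (ENNReal.rpow_ne_top_of_nonneg hexp.le (hFc m).measure_ne_top)
    by_contra hne
    have hpos : 0 < Measure.hausdorffMeasure 1 B := pos_iff_ne_zero.2 hne
    have : IsFiniteMeasure ((Measure.hausdorffMeasure 1 : Measure (E n)).restrict B) :=
      ⟨by rw [Measure.restrict_apply_univ]; exact lt_top_iff_ne_top.2 hBfin⟩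
    have hpos' : 0 < (Measure.hausdorffMeasure 1 : Measure (E n)).restrict B B := by
      rwa [Measure.restrict_apply_self]
    obtain ⟨K, hKB, hKc, hK0⟩ := hBm.exists_lt_isCompact_of_ne_top (measure_ne_top _ _) hpos'
    set K' : Set ℝ := closure (G m) ∩ φ ⁻¹' K with hK'
    have hK'c : IsCompact K' := by
      refine (hFc m).of_isClosed_subset ?_ inter_subset_left
      exact (hφc.mono (hFsub m)).preimage_isClosed_of_isClosed isClosed_closure hKc.isClosed
    have hK'N : K' ⊆ N' := by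
      rintro t ⟨ht1, ht2⟩
      obtain ⟨t', ht', htt'⟩ := hKB ht2
      have : t' = t := hφi (hFsub m ht'.2) (hFsub m ht1) htt'
      rw [← this]
      exact ht'.1
    have hKK' : K ⊆ φ '' K' := by
      intro y hy
      obtain ⟨t', ht', htt'⟩ := hKB hy
      exact ⟨t', ⟨ht'.2, by rw [mem_preimage, htt']; exact hy⟩, htt'⟩
    have hz : Measure.hausdorffMeasure 1 (φ '' K') = 0 := by
      refine le_antisymm ?_ zero_le
      refine (hcov' K' inter_subset_left hK'c).trans ?_
      rw [measure_mono_null hK'N hN'0, ENNReal.zero_rpow_of_pos hexp, mul_zero]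
    have : (Measure.hausdorffMeasure 1 : Measure (E n)).restrict B K = 0 :=
      le_antisymm (((Measure.restrict_apply_le _ _).trans (measure_mono hKK')).trans hz.le)
        zero_le
    exact absurd this hK0.ne'
  rw [himg]
  refine measure_mono_null ?_ (measure_iUnion_null key)
  rintro _ ⟨t, ht, rfl⟩
  obtain ⟨m, hm⟩ := hGcov t (hN ht)
  exact mem_iUnion.2 ⟨m, t, ⟨hNN' ht, subset_closure hm⟩, rfl⟩

theorem lines_null_unit (hn : 2 ≤ n) {U : Set (E n)} (hU : IsOpen U) {h : E n → E n}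
    (hc : ContinuousOn h U) (hi : InjOn h U) (κ : Measure (E n))
    (hκ : ∀ K : Set (E n), K ⊆ U → IsCompact K → κ K < ∞) {C : ℝ≥0∞} (hC : C ≠ ∞) {lam : ℝ}
    (hlam : 1 ≤ lam)
    (hq : ∀ x ∈ U, ∃ δ : ℝ, 0 < δ ∧ ∀ s : ℝ, 0 < s → s < δ → closedBall x (lam * s) ⊆ U ∧
      ∀ z : E n, dist z x ≤ s → edist (h z) (h x) ^ n ≤ C * κ (closedBall x (lam * s)))
    {v : E n} (hv : ‖v‖ = 1) :
    ∀ᵐ x : E n, ∀ N : Set ℝ, volume N = 0 →
      Measure.hausdorffMeasure 1 (h '' (((fun t : ℝ => x + t • v) '' N) ∩ U)) = 0 := by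
  filter_upwards [tube_ae hn hU κ hκ hv] with x hx N hN
  let P : Set (ℚ × ℚ) := {p | ∀ t ∈ Icc (p.1 : ℝ) (p.2 : ℝ), x + t • v ∈ U}
  have hsub : h '' (((fun t : ℝ => x + t • v) '' N) ∩ U) ⊆
      ⋃ p ∈ P, h '' ((fun t : ℝ => x + t • v) '' (N ∩ Icc (p.1 : ℝ) (p.2 : ℝ))) := by
    rintro _ ⟨_, ⟨⟨t, ht, rfl⟩, htU⟩, rfl⟩
    have hopen : IsOpen ((fun t : ℝ => x + t • v) ⁻¹' U) := hU.preimage (continuous_line x v)
    obtain ⟨ε, hε, hball⟩ := Metric.isOpen_iff.1 hopen t htU
    obtain ⟨p, hp1, hp2⟩ := exists_rat_btwn (show t - ε < t by linarith)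
    obtain ⟨q, hq1, hq2⟩ := exists_rat_btwn (show t < t + ε by linarith)
    refine mem_biUnion (x := (p, q)) ?_ ⟨x + t • v, ⟨t, ⟨ht, hp2.le, hq1.le⟩, rfl⟩, rfl⟩
    intro s hs
    have hs1 : (p : ℝ) ≤ s := hs.1
    have hs2 : s ≤ (q : ℝ) := hs.2
    exact hball (by rw [mem_ball, Real.dist_eq, abs_lt]; constructor <;> linarith)
  refine measure_mono_null hsub ((measure_biUnion_null_iff P.to_countable).2 ?_)
  intro p hp
  obtain ⟨M, r₀, hM, hr₀, hT⟩ := hx p.1 p.2 hp
  exact segment_null hn hU hc hi κ hC hlam hq hv hp hM hr₀ hT inter_subset_right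
    (measure_mono_null inter_subset_left hN)

end Pool.Agent.Lib.MP_591455_an.LinesAux

namespace Pool.Agent.Lib.MP_591455_an

open scoped Pointwise in
theorem lines_null {n : ℕ} (hn : 2 ≤ n) {U : Set (E n)} (hU : IsOpen U) {h : E n → E n}
    (hc : ContinuousOn h U) (hi : InjOn h U) (κ : Measure (E n))
    (hκ : ∀ K : Set (E n), K ⊆ U → IsCompact K → κ K < ∞) {C : ℝ≥0∞} (hC : C ≠ ∞) {lam : ℝ}
    (hlam : 1 ≤ lam)
    (hq : ∀ x ∈ U, ∃ δ : ℝ, 0 < δ ∧ ∀ s : ℝ, 0 < s → s < δ → closedBall x (lam * s) ⊆ U ∧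
      ∀ z : E n, dist z x ≤ s → edist (h z) (h x) ^ n ≤ C * κ (closedBall x (lam * s)))
    {v : E n} (hv : v ≠ 0) :
    ∀ᵐ x : E n, ∀ N : Set ℝ, volume N = 0 →
      Measure.hausdorffMeasure 1 (h '' (((fun t : ℝ => x + t • v) '' N) ∩ U)) = 0 := by
  have hv0 : ‖v‖ ≠ 0 := norm_ne_zero_iff.2 hv
  have hw : ‖(‖v‖⁻¹ • v)‖ = 1 := by
    rw [norm_smul, norm_inv, norm_norm, inv_mul_cancel₀ hv0]
  filter_upwards [LinesAux.lines_null_unit hn hU hc hi κ hκ hC hlam hq hw] with x hx N hN
  have h0 : volume (‖v‖ • N) = 0 := by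
    rw [Measure.addHaar_smul, hN, mul_zero]
  have himg : (fun t : ℝ => x + t • v) '' N =
      (fun t : ℝ => x + t • (‖v‖⁻¹ • v)) '' (‖v‖ • N) := by
    rw [← image_smul, image_image]
    refine image_congr fun t _ => ?_
    simp only [smul_eq_mul]
    rw [smul_smul, mul_comm ‖v‖ t, mul_assoc, mul_inv_cancel₀ hv0, mul_one]
  rw [himg]
  exact hx _ h0

end Pool.Agent.Lib.MP_591455_an
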