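import Pool.Agent.Lib.MP_591455_an.Local
import Pool.Agent.Lib.MP_591455_an.Density
import Pool.Agent.Lib.MP_591455_an.Lines
import Pool.Agent.Lib.MP_591455_an.EnergyAux

/-!
Module EnergyF: F o f is Nice with the energy bound.
-/

open MeasureTheory Set Metric Filter Topology
open scoped ENNReal NNReal

namespace Pool.Agent.Lib.MP_591455_an

namespace EnergyF

open EnergyAux

theorem comap_finite {n : ℕ} {f : E n → E n} (hf : IsOpenEmbedding f) (K : Set (E n))
    (hK : IsCompact K) : (Measure.comap f volume) K < ∞ := by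
  rw [hf.measurableEmbedding.comap_apply]
  exact (hK.image hf.continuous).measure_lt_top

theorem local_bound {n : ℕ} (hn : 1 ≤ n) {f : E n → E n} (hf : IsOpenEmbedding f) {H : ℝ}
    (hH : 1 ≤ H) {x : E n} (hx : Qs f H x) :
    ∃ δ : ℝ, 0 < δ ∧ ∀ s : ℝ, 0 < s → s < δ → ∀ z : E n, dist z x ≤ s →
      edist (f z) (f x) ^ n * Om n ≤
        ENNReal.ofReal H ^ n * (Measure.comap f volume) (closedBall x (1 * s)) := by
  obtain ⟨δ, hδ, h⟩ := img_f hn hf hH hx
  refine ⟨δ, hδ, fun s hs hsδ z hz => ?_⟩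
  rw [hf.measurableEmbedding.comap_apply, one_mul]
  exact h s hs hsδ z hz

end EnergyF

open EnergyAux EnergyF

theorem nice_f {n : ℕ} (hn : 2 ≤ n) {k : ℝ} (hk : 1 ≤ k) {f : E n → E n} (hf : QCE n k f)
    {F : E n → ℝ} {L : ℝ≥0} (hF : LipschitzWith L F) {ρ : E n → ℝ≥0∞} (hρ : Measurable ρ)
    (hρL : ∀ y, ρ y ≤ L) (hpl : ∀ y, PL F y (ρ y)) :
    ∃ τ : E n → ℝ≥0∞, Nice (F ∘ f) τ ∧ ∀ S : Set (E n), MeasurableSet S →
      ∫⁻ x in f ⁻¹' S, τ x ^ n ≤ ENNReal.ofReal k ^ n * ∫⁻ y in S, ρ y ^ n := by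
  have hn1 : 1 ≤ n := by omega
  have hn0 : n ≠ 0 := by omega
  have hinj := hf.emb.injective
  have hme := hf.emb.measurableEmbedding
  have hfm : Measurable f := hf.emb.continuous.measurable
  obtain ⟨τ₀, hτm, -, hτpl, hτe⟩ := pl_density hn1 isOpen_univ (Measure.comap f volume)
    (fun K _ hK => comap_finite hf.emb K hK) (h := f) (a := k) (by linarith) (by
      filter_upwards [ae_all_qs hf] with x hx _
      right
      intro H' hH'
      obtain ⟨δ, hδ, h⟩ := EnergyF.local_bound hn1 hf.emb (H := H') (by linarith) (hx H' hH')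
      exact ⟨H', 1, δ, by linarith, one_pos, by linarith, hδ, h⟩)
  refine ⟨fun x => ρ (f x) * τ₀ x, ⟨?_, ?_, ?_, ?_⟩, ?_⟩
  · exact hF.continuous.comp hf.emb.continuous
  · exact (hρ.comp hfm).mul hτm
  · filter_upwards [hτpl] with x hx
    exact pl_comp ((hρL _).trans_lt ENNReal.coe_lt_top).ne (hx (mem_univ _)).1 (hpl _)
      (hx (mem_univ _)).2
  · -- null images
    intro v hv
    obtain ⟨H, hH, hQ⟩ := hf.bdd
    have hOm0 : Om n ≠ 0 := Om_ne_zero
    have hOmt : Om n ≠ ∞ := Om_ne_top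
    have h1 := lines_null hn isOpen_univ hf.emb.continuous.continuousOn hinj.injOn
      (Measure.comap f volume) (fun K _ hK => comap_finite hf.emb K hK)
      (C := ENNReal.ofReal H ^ n / Om n)
      (ENNReal.div_ne_top (ENNReal.pow_ne_top ENNReal.ofReal_ne_top) hOm0) le_rfl (by
        intro x _
        obtain ⟨δ, hδ, h⟩ := EnergyF.local_bound hn1 hf.emb hH (hQ x)
        refine ⟨δ, hδ, fun s hs hsδ => ⟨subset_univ _, fun z hz => ?_⟩⟩
        have h2 := h s hs hsδ z hz
        rw [ENNReal.mul_comm_div, mul_comm, ENNReal.div_eq_inv_mul, mul_assoc,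
          ← ENNReal.div_eq_inv_mul, ENNReal.le_div_iff_mul_le (Or.inl hOm0) (Or.inl hOmt),
          mul_comm ((Measure.comap f volume) _)]
        exact h2) hv
    filter_upwards [h1] with x hx N hN
    rw [image_comp]
    refine volume_image_eq_zero hF ?_
    have h3 := hx N hN
    rwa [inter_univ] at h3
  · -- energy
    intro S hS
    have hT : Measurable (fun x => indicator S (fun y => ρ y ^ n) (f x)) :=
      ((hρ.pow_const n).indicator hS).comp hfm
    have h1 := hτe _ hT
    calc ∫⁻ x in f ⁻¹' S, (ρ (f x) * τ₀ x) ^ n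
        = ∫⁻ x, indicator S (fun y => ρ y ^ n) (f x) * τ₀ x ^ n := by
          rw [← lintegral_indicator (hfm hS)]
          congr 1
          funext x
          by_cases hx : f x ∈ S
          · rw [indicator_of_mem (show x ∈ f ⁻¹' S from hx), indicator_of_mem hx, mul_pow]
          · rw [indicator_of_notMem (show x ∉ f ⁻¹' S from hx), indicator_of_notMem hx, zero_mul]
      _ ≤ _ := h1
      _ = ENNReal.ofReal k ^ n * ∫⁻ y, indicator S (fun y => ρ y ^ n) y
            ∂((Measure.comap f volume).map f) := by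
          rw [hme.lintegral_map, Measure.restrict_univ]
      _ ≤ ENNReal.ofReal k ^ n * ∫⁻ y in S, ρ y ^ n := by
          refine mul_le_mul_right ?_ _
          rw [hme.map_comap, ← lintegral_indicator hS]
          exact setLIntegral_le_lintegral _ _

end Pool.Agent.Lib.MP_591455_an
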