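import Pool.Agent.Lib.MP_591455_an.Local
import Pool.Agent.Lib.MP_591455_an.Density
import Pool.Agent.Lib.MP_591455_an.Lines
import Pool.Agent.Lib.MP_591455_an.EnergyAux

/-!
Module EnergyG: F o f^{-1}, extended by a constant, is Nice with the energy bound.
-/

open MeasureTheory Set Metric Filter Topology
open scoped ENNReal NNReal

namespace Pool.Agent.Lib.MP_591455_an

namespace EnergyG

open EnergyAux

/-- the inverse of f, extended by zero. -/
noncomputable def inv {n : ℕ} (f : E n → E n) : E n → E n := Function.extend f id (fun _ => 0)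

theorem inv_apply {n : ℕ} {f : E n → E n} (hf : Function.Injective f) (x : E n) :
    inv f (f x) = x := by
  rw [inv, hf.extend_apply]; rfl

theorem inv_continuousOn {n : ℕ} {f : E n → E n} (hf : IsOpenEmbedding f) :
    ContinuousOn (inv f) (range f) := by
  rintro _ ⟨x, rfl⟩
  apply ContinuousAt.continuousWithinAt
  rw [ContinuousAt, inv_apply hf.injective, ← hf.map_nhds_eq, tendsto_map'_iff]
  have : inv f ∘ f = id := by
    funext z; exact inv_apply hf.injective z
  rw [this]; exact tendsto_id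

theorem inv_injOn {n : ℕ} {f : E n → E n} (hf : Function.Injective f) :
    InjOn (inv f) (range f) := by
  rintro _ ⟨x, rfl⟩ _ ⟨y, rfl⟩ h
  rw [inv_apply hf, inv_apply hf] at h
  rw [h]

theorem inv_measurable {n : ℕ} {f : E n → E n} (hf : IsOpenEmbedding f) : Measurable (inv f) :=
  hf.measurableEmbedding.measurable_extend measurable_id measurable_const

theorem map_finite {n : ℕ} {f : E n → E n} (hf : IsOpenEmbedding f) (K : Set (E n))
    (hKU : K ⊆ range f) (hK : IsCompact K) : (volume.map f) K < ∞ := by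
  rw [hf.measurableEmbedding.map_apply]
  exact (hf.isInducing.isCompact_preimage' hK hKU).measure_lt_top

theorem local_bound {n : ℕ} (hn : 1 ≤ n) {f : E n → E n} (hf : IsOpenEmbedding f) {H : ℝ}
    (hH : 1 ≤ H) {x : E n} (hx : Qs f H x) :
    ∃ δ : ℝ, 0 < δ ∧ ∀ s : ℝ, 0 < s → s < δ → closedBall (f x) (H * s) ⊆ range f ∧
      ∀ z : E n, dist z (f x) ≤ s →
        edist (inv f z) (inv f (f x)) ^ n * Om n ≤ (volume.map f) (closedBall (f x) (H * s)) := by
  obtain ⟨δ, hδ, h⟩ := img_g hn hf hH hx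
  refine ⟨δ, hδ, fun s hs hsδ => ⟨(h s hs hsδ).1, fun z hz => ?_⟩⟩
  have h1 : z ∈ range f := by
    apply (h s hs hsδ).1
    rw [mem_closedBall]
    nlinarith
  obtain ⟨z, rfl⟩ := h1
  rw [inv_apply hf.injective, inv_apply hf.injective, hf.measurableEmbedding.map_apply]
  exact (h s hs hsδ).2 z hz

/-- the pointwise Lipschitz density of the inverse -/
theorem exists_density {n : ℕ} (hn : 2 ≤ n) {k : ℝ} (hk : 1 ≤ k) {f : E n → E n}
    (hf : QCE n k f) :
    ∃ τ : E n → ℝ≥0∞, Measurable τ ∧ (∀ x, x ∉ range f → τ x = 0) ∧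
      (∀ᵐ x : E n, x ∈ range f → τ x ≠ ∞ ∧ PL (inv f) x (τ x)) ∧
      (∀ T : E n → ℝ≥0∞, Measurable T →
        ∫⁻ x, T x * τ x ^ n ≤ ENNReal.ofReal k ^ n * ∫⁻ x in range f, T x ∂(volume.map f)) := by
  have hn1 : 1 ≤ n := by omega
  have hn0 : n ≠ 0 := by omega
  have hme := hf.emb.measurableEmbedding
  obtain ⟨H, hH, hQ⟩ := hf.bdd
  -- first density
  obtain ⟨τ₁, hτ₁m, hτ₁0, hτ₁pl, hτ₁e⟩ := pl_density hn1 hf.emb.isOpen_range (volume.map f)
    (map_finite hf.emb) (h := inv f) (a := H) (by linarith) (by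
      filter_upwards with y hy
      obtain ⟨x, rfl⟩ := hy
      right
      intro H' hH'
      obtain ⟨δ, hδ, h⟩ := local_bound hn1 hf.emb hH (hQ x)
      refine ⟨1, H, δ, one_pos, by linarith, by linarith, hδ, fun s hs hsδ z hz => ?_⟩
      rw [ENNReal.ofReal_one, one_pow, one_mul]
      exact (h s hs hsδ).2 z hz)
  -- the exceptional set
  set Z : Set (E n) := toMeasurable volume {x | ¬ ∀ H : ℝ, k < H → Qs f H x} with hZ
  have hZ0 : volume Z = 0 := by
    rw [hZ, measure_toMeasurable]
    exact ae_all_qs hf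
  have hZm : MeasurableSet Z := measurableSet_toMeasurable _ _
  have hZc : ∀ x, x ∉ Z → ∀ H : ℝ, k < H → Qs f H x := by
    intro x hx
    by_contra hcon
    exact hx (subset_toMeasurable _ _ hcon)
  have hfZm : MeasurableSet (f '' Z) := hme.measurableSet_image.2 hZm
  have h0 : ∀ᵐ y : E n, y ∈ f '' Z → τ₁ y = 0 := by
    have h1 := hτ₁e (indicator (f '' Z) 1) (measurable_one.indicator hfZm)
    have h2 : ∫⁻ x in range f, indicator (f '' Z) 1 x ∂(volume.map f) = 0 := by
      have h3 : ∫⁻ x, indicator (f '' Z) 1 x ∂(volume.map f) = 0 := by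
        rw [lintegral_indicator_one hfZm, hme.map_apply, hf.emb.injective.preimage_image, hZ0]
      exact le_antisymm ((setLIntegral_le_lintegral _ _).trans h3.le) bot_le
    rw [h2, mul_zero] at h1
    have h4 : ∫⁻ x, indicator (f '' Z) 1 x * τ₁ x ^ n = 0 := le_antisymm h1 bot_le
    have h5 : Measurable (fun x => indicator (f '' Z) (1 : E n → ℝ≥0∞) x * τ₁ x ^ n) :=
      (measurable_one.indicator hfZm).mul (hτ₁m.pow_const n)
    rw [lintegral_eq_zero_iff h5] at h4
    filter_upwards [h4] with y hy hyZ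
    simp only [indicator_of_mem hyZ, Pi.one_apply, one_mul, Pi.zero_apply] at hy
    exact pow_eq_zero_iff hn0 |>.1 hy
  exact pl_density hn1 hf.emb.isOpen_range (volume.map f)
    (map_finite hf.emb) (h := inv f) (a := k) (by linarith) (by
      filter_upwards [h0, hτ₁pl] with y hy1 hy2 hyU
      by_cases hyZ : y ∈ f '' Z
      · left
        have := (hy2 hyU).2
        rwa [hy1 hyZ] at this
      · right
        obtain ⟨x, rfl⟩ := hyU
        have hxZ : x ∉ Z := fun h => hyZ ⟨x, h, rfl⟩
        intro H' hH'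
        obtain ⟨δ, hδ, h⟩ := local_bound hn1 hf.emb (H := H') (by linarith) (hZc x hxZ H' hH')
        refine ⟨1, H', δ, one_pos, by linarith, by linarith, hδ, fun s hs hsδ z hz => ?_⟩
        rw [ENNReal.ofReal_one, one_pow, one_mul]
        exact (h s hs hsδ).2 z hz)

end EnergyG

open EnergyAux EnergyG

theorem nice_g {n : ℕ} (hn : 2 ≤ n) {k : ℝ} (hk : 1 ≤ k) {f : E n → E n} (hf : QCE n k f)
    {F : E n → ℝ} {L : ℝ≥0} (hF : LipschitzWith L F) {ρ : E n → ℝ≥0∞} (hρ : Measurable ρ)
    (hρL : ∀ y, ρ y ≤ L) (hpl : ∀ y, PL F y (ρ y)) {x₀ : E n} {R c₀ : ℝ}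
    (hc : ∀ x, R < dist x x₀ → F x = c₀) :
    ∃ τ : E n → ℝ≥0∞, Nice (Function.extend f F (fun _ => c₀)) τ ∧ ∀ S : Set (E n),
      MeasurableSet S →
      ∫⁻ y in S, τ y ^ n ≤ ENNReal.ofReal k ^ n * ∫⁻ x in f ⁻¹' S, ρ x ^ n := by
  have hn1 : 1 ≤ n := by omega
  have hn0 : n ≠ 0 := by omega
  have hinj := hf.emb.injective
  have hme := hf.emb.measurableEmbedding
  obtain ⟨τ₀, hτm, hτ0, hτpl, hτe⟩ := exists_density hn hk hf
  set ψ : E n → ℝ := Function.extend f F (fun _ => c₀) with hψ
  have hψf : ∀ x, ψ (f x) = F x := fun x => hinj.extend_apply _ _ x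
  have hψn : ∀ y, y ∉ range f → ψ y = c₀ := fun y hy => Function.extend_apply' _ _ _ hy
  set B : Set (E n) := f '' closedBall x₀ R with hB
  have hBc : IsClosed B := ((isCompact_closedBall x₀ R).image hf.emb.continuous).isClosed
  have hψB : ∀ y, y ∉ B → ψ y = c₀ := by
    intro y hy
    by_cases hyr : y ∈ range f
    · obtain ⟨x, rfl⟩ := hyr
      rw [hψf]
      apply hc
      by_contra hcon
      exact hy ⟨x, not_lt.1 hcon, rfl⟩
    · exact hψn y hyr
  have hψU : ∀ y ∈ range f, ψ =ᶠ[𝓝 y] F ∘ inv f := by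
    intro y hy
    filter_upwards [hf.emb.isOpen_range.mem_nhds hy] with z hz
    obtain ⟨z, rfl⟩ := hz
    rw [hψf, Function.comp_apply, inv_apply hinj]
  have hψBc : ∀ y, y ∉ B → ψ =ᶠ[𝓝 y] fun _ => c₀ := by
    intro y hy
    filter_upwards [hBc.isOpen_compl.mem_nhds hy] with z hz
    exact hψB z hz
  refine ⟨indicator B (fun y => ρ (inv f y) * τ₀ y), ⟨?_, ?_, ?_, ?_⟩, ?_⟩
  · -- continuity
    rw [continuous_iff_continuousAt]
    intro y
    by_cases hy : y ∈ B
    · have hyr : y ∈ range f := image_subset_range _ _ hy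
      refine ContinuousAt.congr ?_ (hψU y hyr).symm
      exact hF.continuous.continuousAt.comp
        ((inv_continuousOn hf.emb).continuousAt (hf.emb.isOpen_range.mem_nhds hyr))
    · exact continuousAt_const.congr (hψBc y hy).symm
  · exact ((hρ.comp (inv_measurable hf.emb)).mul hτm).indicator hBc.measurableSet
  · filter_upwards [hτpl] with y hy
    by_cases hyB : y ∈ B
    · have hyr : y ∈ range f := image_subset_range _ _ hyB
      rw [indicator_of_mem hyB]
      exact pl_congr (hψU y hyr)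
        (pl_comp ((hρL _).trans_lt ENNReal.coe_lt_top).ne (hy hyr).1 (hpl _) (hy hyr).2)
    · rw [indicator_of_notMem hyB]
      exact pl_congr (hψBc y hyB) pl_const
  · -- null images
    intro v hv
    obtain ⟨H, hH, hQ⟩ := hf.bdd
    have hOm0 : Om n ≠ 0 := Om_ne_zero
    have hOmt : Om n ≠ ∞ := Om_ne_top
    have h1 := lines_null hn hf.emb.isOpen_range (inv_continuousOn hf.emb) (inv_injOn hinj)
      (volume.map f) (map_finite hf.emb) (C := (Om n)⁻¹) (ENNReal.inv_ne_top.2 hOm0) hH (by
        rintro _ ⟨x, rfl⟩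
        obtain ⟨δ, hδ, h⟩ := local_bound hn1 hf.emb hH (hQ x)
        refine ⟨δ, hδ, fun s hs hsδ => ⟨(h s hs hsδ).1, fun z hz => ?_⟩⟩
        have h2 := (h s hs hsδ).2 z hz
        rw [mul_comm, ← div_eq_mul_inv, ENNReal.le_div_iff_mul_le (Or.inl hOm0) (Or.inl hOmt)]
        exact h2) hv
    filter_upwards [h1] with x hx N hN
    have h3 : ψ '' ((fun t : ℝ => x + t • v) '' N) ⊆
        F '' (inv f '' (((fun t : ℝ => x + t • v) '' N) ∩ range f)) ∪ {c₀} := by
      rintro _ ⟨y, hy, rfl⟩
      by_cases hyr : y ∈ range f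
      · left
        refine ⟨inv f y, ⟨y, ⟨hy, hyr⟩, rfl⟩, ?_⟩
        exact ((hψU y hyr).eq_of_nhds).symm
      · right
        exact hψn y hyr
    refine measure_mono_null h3 ?_
    rw [measure_union_null_iff]
    exact ⟨volume_image_eq_zero hF (hx N hN), Real.volume_singleton⟩
  · -- energy
    intro S hS
    have hT : Measurable (indicator (S ∩ B) (fun y => ρ (inv f y) ^ n)) :=
      ((hρ.comp (inv_measurable hf.emb)).pow_const n).indicator (hS.inter hBc.measurableSet)
    have h1 := hτe _ hT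
    calc ∫⁻ y in S, (indicator B (fun y => ρ (inv f y) * τ₀ y) y) ^ n
        = ∫⁻ y, indicator (S ∩ B) (fun y => ρ (inv f y) ^ n) y * τ₀ y ^ n := by
          rw [← lintegral_indicator hS]
          congr 1
          funext y
          by_cases hyS : y ∈ S
          · by_cases hyB : y ∈ B
            · rw [indicator_of_mem hyS, indicator_of_mem hyB,
                indicator_of_mem (show y ∈ S ∩ B from ⟨hyS, hyB⟩), mul_pow]
            · rw [indicator_of_mem hyS, indicator_of_notMem hyB,
                indicator_of_notMem (fun h => hyB h.2), zero_pow hn0, zero_mul]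
          · rw [indicator_of_notMem hyS, indicator_of_notMem (fun h => hyS h.1), zero_mul]
      _ ≤ _ := h1
      _ ≤ ENNReal.ofReal k ^ n * ∫⁻ y, indicator (S ∩ B) (fun y => ρ (inv f y) ^ n) y
            ∂(volume.map f) := by
          exact mul_le_mul_right (setLIntegral_le_lintegral _ _) _
      _ = ENNReal.ofReal k ^ n * ∫⁻ x, indicator (S ∩ B) (fun y => ρ (inv f y) ^ n) (f x) := by
          rw [hme.lintegral_map]
      _ ≤ ENNReal.ofReal k ^ n * ∫⁻ x in f ⁻¹' S, ρ x ^ n := by
          refine mul_le_mul_right ?_ _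
          rw [← lintegral_indicator (hf.emb.continuous.measurable hS)]
          refine lintegral_mono fun x => ?_
          by_cases hx : f x ∈ S ∩ B
          · rw [indicator_of_mem hx, indicator_of_mem (show x ∈ f ⁻¹' S from hx.1), inv_apply hinj]
          · rw [indicator_of_notMem hx]
            exact bot_le

end Pool.Agent.Lib.MP_591455_an
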