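import Pool.Agent.Lib.MP_591455_an.OneDim

open MeasureTheory Set Metric Filter Topology
open scoped ENNReal NNReal

namespace Pool.Agent.Lib.MP_591455_an

namespace Transl

/-- restriction of a pointwise Lipschitz bound to a line -/
theorem pl_line {n : ℕ} {ψ : E n → ℝ} {a v : E n} (hv : v ≠ 0) {t : ℝ} {c : ℝ≥0∞}
    (h : PL ψ (a + t • v) c) : PL (fun s : ℝ => ψ (a + s • v)) t (‖v‖ₑ * c) := by
  intro c' hc'
  have hv0 : ‖v‖₊ ≠ 0 := by simpa using hv
  have hlt : c < ((c' / ‖v‖₊ : ℝ≥0) : ℝ≥0∞) := by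
    rw [ENNReal.coe_div hv0]
    rw [ENNReal.lt_div_iff_mul_lt (Or.inl (by simpa using hv)) (Or.inl (by simp))]
    rw [mul_comm]
    exact hc'
  have h1 := h _ hlt
  have hcont : Tendsto (fun s : ℝ => a + s • v) (𝓝 t) (𝓝 (a + t • v)) := by
    apply Continuous.tendsto
    fun_prop
  filter_upwards [hcont.eventually h1] with s hs
  refine hs.trans (le_of_eq ?_)
  have : dist (a + s • v) (a + t • v) = ‖v‖ * dist s t := by
    rw [dist_add_left, dist_eq_norm, ← sub_smul, norm_smul, dist_eq_norm, mul_comm]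
  rw [this]
  push_cast
  have hv1 : ‖v‖ ≠ 0 := by simpa using hv
  field_simp

/-- a null set meets almost every parallel line in a null set -/
theorem ae_line {n : ℕ} (v : E n) {Z : Set (E n)} (hZ : volume Z = 0) :
    ∀ᵐ a : E n, ∀ᵐ t : ℝ, a + t • v ∉ Z := by
  set Z' := toMeasurable volume Z with hZ'
  have hm : MeasurableSet Z' := measurableSet_toMeasurable _ _
  have h0 : volume Z' = 0 := by rw [hZ', measure_toMeasurable, hZ]
  have hme : MeasurableSet {x : ℝ × E n | x.2 + x.1 • v ∉ Z'} := by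
    have : Measurable fun x : ℝ × E n => x.2 + x.1 • v := by fun_prop
    exact (this hm).compl
  have h1 : ∀ᵐ t : ℝ, ∀ᵐ a : E n, a + t • v ∉ Z' := by
    refine Filter.Eventually.of_forall fun t => ?_
    rw [ae_iff]
    have : {a : E n | ¬ (a + t • v ∉ Z')} = (fun a => a + t • v) ⁻¹' Z' := by
      ext a; simp
    rw [this, measure_preimage_add_right, h0]
  have h2 := (Measure.ae_ae_comm (μ := (volume : Measure ℝ)) (ν := (volume : Measure (E n)))
    (p := fun t a => a + t • v ∉ Z') hme).1 h1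
  filter_upwards [h2] with a ha
  filter_upwards [ha] with t ht
  exact fun h => ht (subset_toMeasurable _ _ h)

/-- power form of the Hoelder inequality -/
theorem lintegral_pow {α : Type*} [MeasurableSpace α] (μ : Measure α) {n : ℕ} (hn : 1 ≤ n)
    {f : α → ℝ≥0∞} (hf : Measurable f) :
    (∫⁻ x, f x ∂μ) ^ n ≤ (∫⁻ x, f x ^ n ∂μ) * μ univ ^ (n - 1) := by
  rcases eq_or_lt_of_le hn with rfl | h1
  · simp
  have hnR : (1 : ℝ) < n := by exact_mod_cast h1
  have hn0 : (0 : ℝ) < n := by linarith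
  have hpq : (n : ℝ).HolderConjugate ((n : ℝ).conjExponent) := Real.HolderConjugate.conjExponent hnR
  have h := ENNReal.lintegral_mul_le_Lp_mul_Lq μ hpq hf.aemeasurable
    (aemeasurable_const (b := (1 : ℝ≥0∞)))
  simp only [Pi.mul_apply, mul_one, ENNReal.one_rpow, lintegral_const, one_mul] at h
  have h2 := pow_le_pow_left' h n
  refine h2.trans (le_of_eq ?_)
  rw [mul_pow]
  congr 1
  · rw [← ENNReal.rpow_natCast, ← ENNReal.rpow_mul, one_div, inv_mul_cancel₀ hn0.ne',
      ENNReal.rpow_one]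
    simp
  · rw [← ENNReal.rpow_natCast, ← ENNReal.rpow_mul, ← ENNReal.rpow_natCast]
    congr 1
    rw [Real.conjExponent, Nat.cast_sub hn]
    have : (n : ℝ) - 1 ≠ 0 := by linarith
    field_simp
    simp

end Transl

theorem transl {n : ℕ} (hn : 1 ≤ n) {ψ : E n → ℝ} {τ : E n → ℝ≥0∞} (h : Nice ψ τ)
    {A D : Set (E n)} (hA : MeasurableSet A) (hAf : volume A ≠ ∞) (hD : MeasurableSet D) (v : E n)
    (hAD : ∀ a ∈ A, ∀ t ∈ Icc (0 : ℝ) 1, a + t • v ∈ D) {G r : ℝ} (hG : 0 ≤ G) (hr : 0 < r)
    (hE : ∫⁻ x in D, τ x ^ n ≤ ENNReal.ofReal G ^ n * Om n)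
    (hAr : ENNReal.ofReal r ^ n * Om n ≤ volume A) :
    ∫⁻ a in A, edist (ψ (a + v)) (ψ a) ≤ ENNReal.ofReal (‖v‖ * G / r) * volume A := by
  rcases eq_or_ne v 0 with rfl | hv
  · simp
  -- pointwise estimate on almost every line
  have key : ∀ᵐ a : E n, edist (ψ (a + v)) (ψ a) ≤
      ∫⁻ t in Icc (0 : ℝ) 1, ‖v‖ₑ * τ (a + t • v) := by
    have h1 := Transl.ae_line v (Z := {x | ¬ PL ψ x (τ x)}) h.pl
    filter_upwards [h1, h.null v hv] with a ha hnull
    have hτm : Measurable fun t : ℝ => ‖v‖ₑ * τ (a + t • v) := by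
      have : Measurable fun t : ℝ => a + t • v := by fun_prop
      exact (h.meas.comp this).const_mul _
    have hc : Continuous fun t : ℝ => ψ (a + t • v) := h.cont.comp (by fun_prop)
    have := onedim hc hτm ?_ ?_
    · simpa using this
    · filter_upwards [ha] with t ht _
      exact Transl.pl_line hv (by simpa using ht)
    · intro N _ hN
      have := hnull N hN
      rwa [image_image] at this
  have hmeas : Measurable fun p : E n × ℝ => τ (p.1 + p.2 • v) := by
    have : Measurable fun p : E n × ℝ => p.1 + p.2 • v := by fun_prop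
    exact h.meas.comp this
  -- estimate for each translate
  have hOm : 0 < volume A ∨ volume A = 0 := by
    rcases eq_or_ne (volume A) 0 with h0 | h0
    · exact Or.inr h0
    · exact Or.inl (pos_iff_ne_zero.2 h0)
  have each : ∀ t ∈ Icc (0 : ℝ) 1, ∫⁻ a in A, τ (a + t • v) ≤ ENNReal.ofReal (G / r) * volume A := by
    intro t ht
    have hmt : Measurable fun a : E n => τ (a + t • v) := by
      have : Measurable fun a : E n => a + t • v := by fun_prop
      exact h.meas.comp this
    have hA1 : ∫⁻ a in A, τ (a + t • v) ^ n ≤ ENNReal.ofReal G ^ n * Om n := by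
      refine le_trans ?_ hE
      have hsub : A ⊆ (fun a => a + t • v) ⁻¹' D := fun a ha => hAD a ha t ht
      refine (lintegral_mono_set hsub).trans (le_of_eq ?_)
      exact (measurePreserving_add_right volume (t • v)).setLIntegral_comp_preimage hD
        (h.meas.pow_const n)
    have hH := Transl.lintegral_pow (volume.restrict A) hn hmt
    rw [Measure.restrict_apply_univ] at hH
    -- multiply by r ^ n
    have hn0 : n ≠ 0 := by omega
    have h3 : (ENNReal.ofReal r * ∫⁻ a in A, τ (a + t • v)) ^ n ≤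
        (ENNReal.ofReal G * volume A) ^ n := by
      calc (ENNReal.ofReal r * ∫⁻ a in A, τ (a + t • v)) ^ n
          = ENNReal.ofReal r ^ n * (∫⁻ a in A, τ (a + t • v)) ^ n := mul_pow _ _ _
        _ ≤ ENNReal.ofReal r ^ n * ((∫⁻ a in A, τ (a + t • v) ^ n) * volume A ^ (n - 1)) := by
            gcongr
        _ ≤ ENNReal.ofReal r ^ n * ((ENNReal.ofReal G ^ n * Om n) * volume A ^ (n - 1)) := by
            gcongr
        _ = ENNReal.ofReal G ^ n * (ENNReal.ofReal r ^ n * Om n) * volume A ^ (n - 1) := by ring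
        _ ≤ ENNReal.ofReal G ^ n * volume A * volume A ^ (n - 1) := by gcongr
        _ = (ENNReal.ofReal G * volume A) ^ n := by
            rw [mul_pow, mul_assoc, ← pow_succ', Nat.sub_add_cancel hn]
    have h4 : ENNReal.ofReal r * ∫⁻ a in A, τ (a + t • v) ≤ ENNReal.ofReal G * volume A :=
      (ENNReal.pow_right_strictMono hn0).le_iff_le.1 h3
    rw [ENNReal.ofReal_div_of_pos hr, ← ENNReal.mul_div_right_comm,
      ENNReal.le_div_iff_mul_le (Or.inl (by simpa using hr)) (Or.inl ENNReal.ofReal_ne_top),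
      mul_comm]
    exact h4
  calc ∫⁻ a in A, edist (ψ (a + v)) (ψ a)
      ≤ ∫⁻ a in A, ∫⁻ t in Icc (0 : ℝ) 1, ‖v‖ₑ * τ (a + t • v) :=
        lintegral_mono_ae (ae_restrict_of_ae key)
    _ = ∫⁻ t in Icc (0 : ℝ) 1, ∫⁻ a in A, ‖v‖ₑ * τ (a + t • v) :=
        lintegral_lintegral_swap (hmeas.const_mul _).aemeasurable
    _ ≤ ∫⁻ t in Icc (0 : ℝ) 1, ENNReal.ofReal (‖v‖ * G / r) * volume A := by
        refine setLIntegral_mono measurable_const fun t ht => ?_
        have hmt : Measurable fun a : E n => τ (a + t • v) := by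
          have : Measurable fun a : E n => a + t • v := by fun_prop
          exact h.meas.comp this
        rw [lintegral_const_mul _ hmt]
        calc ‖v‖ₑ * ∫⁻ a in A, τ (a + t • v) ≤ ‖v‖ₑ * (ENNReal.ofReal (G / r) * volume A) := by
              gcongr
              exact each t ht
          _ = ENNReal.ofReal (‖v‖ * G / r) * volume A := by
              rw [← mul_assoc, ← ofReal_norm, ← ENNReal.ofReal_mul (norm_nonneg _),
                mul_div_assoc]
    _ = ENNReal.ofReal (‖v‖ * G / r) * volume A := by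
        simp

end Pool.Agent.Lib.MP_591455_an
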