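import Pool.Agent.Lib.MP_591455_an.Defs
import Pool.Agent.Lib.MP_591455_an.Transl
import Pool.Agent.Lib.MP_591455_an.EnergyF
import Pool.Agent.Lib.MP_591455_an.EnergyG
import Pool.Agent.Lib.MP_591455_an.Cut

open MeasureTheory Set Metric Filter Topology
open scoped ENNReal NNReal

namespace Pool.Agent.Lib.MP_591455_an

namespace Decay

theorem vol_ball (n : ℕ) (x : E n) {r : ℝ} (hr : 0 < r) :
    volume (ball x r) = ENNReal.ofReal r ^ n * Om n := by
  rw [Measure.addHaar_ball_of_pos _ _ hr, finrank_euclideanSpace_fin, ENNReal.ofReal_pow hr.le, Om]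

theorem Om_ne_zero (n : ℕ) : Om n ≠ 0 := (measure_ball_pos _ _ one_pos).ne'

theorem Om_ne_top (n : ℕ) : Om n ≠ ∞ := measure_ball_lt_top.ne

theorem exists_norm {n : ℕ} (hn : 1 ≤ n) {c : ℝ} (hc : 0 ≤ c) : ∃ v : E n, ‖v‖ = c := by
  refine ⟨EuclideanSpace.single ⟨0, hn⟩ c, ?_⟩
  rw [PiLp.norm_single, Real.norm_eq_abs, abs_of_nonneg hc]

theorem Ak_pos (k : ℝ) : 0 < Ak k := Real.exp_pos _

theorem one_le_Ak (k : ℝ) : 1 ≤ Ak k := by
  unfold Ak
  exact Real.one_le_exp (by positivity)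

end Decay

open Decay

theorem unbounded {n : ℕ} (hn : 2 ≤ n) {k : ℝ} (hk : 1 ≤ k) {f : E n → E n} (hf : QCE n k f)
    (R : ℝ) : ∃ x, R < ‖f x‖ := by
  by_contra hcon
  push Not at hcon
  have hR : 0 ≤ R := (norm_nonneg _).trans (hcon 0)
  have hn1 : 1 ≤ n := by omega
  set A : Set (E n) := f '' ball 0 1 with hA
  have hAo : IsOpen A := hf.emb.isOpenMap _ isOpen_ball
  have hf0 : f 0 ∈ A := ⟨0, mem_ball_self one_pos, rfl⟩
  obtain ⟨r, hr, hrA⟩ := Metric.isOpen_iff.1 hAo _ hf0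
  have hAr : ENNReal.ofReal r ^ n * Om n ≤ volume A := by
    rw [← vol_ball n (f 0) hr]
    exact measure_mono hrA
  have hApos : volume A ≠ 0 := (lt_of_lt_of_le (measure_ball_pos _ _ hr) (measure_mono hrA)).ne'
  have hAf : volume A ≠ ∞ := by
    refine ne_top_of_le_ne_top (measure_closedBall_lt_top (x := (0 : E n)) (r := R)).ne
      (measure_mono ?_)
    rintro _ ⟨x, -, rfl⟩
    simpa using hcon x
  obtain ⟨v, hv⟩ := exists_norm hn1 (c := 2 * R + 1) (by linarith)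
  set q : ℝ := max 1 (3 * ‖v‖ * k / r) with hq
  have hq1 : 1 ≤ q := le_max_left _ _
  have hq2 : 3 * ‖v‖ * k / r ≤ q := le_max_right _ _
  have hqpos : 0 < q := by linarith
  obtain ⟨F, ρ, L, hL, hρm, hρL, hpl, h01, h1, h0, hint⟩ :=
    logcut hn (0 : E n) (s := 1) (t := Real.exp (q ^ 2)) one_pos
      (by nlinarith [Real.add_one_le_exp (q ^ 2), sq_nonneg (q - 1)])
      (by rw [div_one, Real.log_exp]; nlinarith)
  obtain ⟨τ, hnice, hen⟩ := nice_g hn hk hf hL hρm hρL hpl (x₀ := 0) (R := Real.exp (q ^ 2))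
    (c₀ := 0) (fun x hx => h0 x hx.le)
  rw [div_one, Real.log_exp, Real.sqrt_sq hqpos.le] at hint
  have hE : ∫⁻ x in (univ : Set (E n)), τ x ^ n ≤
      ENNReal.ofReal (k * (3 / 2 / q)) ^ n * Om n := by
    refine (hen univ MeasurableSet.univ).trans ?_
    rw [preimage_univ, Measure.restrict_univ, ENNReal.ofReal_mul (by linarith), mul_pow, mul_assoc]
    gcongr
  have htr := transl hn1 hnice hAo.measurableSet hAf MeasurableSet.univ v
    (fun a _ t _ => mem_univ _) (G := k * (3 / 2 / q)) (r := r) (by positivity) hr hE hAr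
  have hval : ∫⁻ a in A, edist (Function.extend f F (fun _ => 0) (a + v))
      (Function.extend f F (fun _ => 0) a) = volume A := by
    rw [← setLIntegral_one]
    refine setLIntegral_congr_fun hAo.measurableSet ?_
    rintro _ ⟨x, hx, rfl⟩
    have e1 : Function.extend f F (fun _ => 0) (f x) = 1 := by
      rw [hf.emb.injective.extend_apply]
      exact h1 x (mem_ball.1 hx).le
    have e2 : Function.extend f F (fun _ => 0) (f x + v) = 0 := by
      rw [Function.extend_apply']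
      rintro ⟨z, hz⟩
      have h3 := hcon z
      have h4 := hcon x
      rw [hz] at h3
      have h5 : ‖v‖ ≤ ‖f x + v‖ + ‖f x‖ := by
        calc ‖v‖ = ‖(f x + v) - f x‖ := by rw [add_sub_cancel_left]
          _ ≤ _ := norm_sub_le _ _
      linarith
    simp only [e1, e2]
    rw [edist_dist, Real.dist_eq]
    norm_num
  rw [hval] at htr
  have hlt : ENNReal.ofReal (‖v‖ * (k * (3 / 2 / q)) / r) < 1 := by
    rw [ENNReal.ofReal_lt_one]
    rw [div_lt_one hr]
    rw [div_le_iff₀ hr] at hq2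
    have h6 : ‖v‖ * (k * (3 / 2 / q)) = (3 * ‖v‖ * k) / (2 * q) := by
      field_simp
    rw [h6, div_lt_iff₀ (by positivity)]
    nlinarith
  have := ENNReal.mul_lt_mul_left hApos hAf hlt
  rw [one_mul] at this
  exact absurd (lt_of_le_of_lt htr this) (lt_irrefl _)

namespace Decay

/-- averaging over translations -/
theorem avg {n : ℕ} {V V' : Set (E n)} (hVo : IsOpen V) (hVo' : IsOpen V') {R : ℝ} (hR : 0 < R) :
    ∃ v : E n, ‖v‖ < R ∧ volume {a : E n | a ∈ V' ∧ a + v ∈ V} ≤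
      volume V' * volume V / volume (ball (0 : E n) R) := by
  have hB0 : volume (ball (0 : E n) R) ≠ 0 := (measure_ball_pos _ _ hR).ne'
  have hBt : volume (ball (0 : E n) R) ≠ ∞ := measure_ball_lt_top.ne
  have hmeas2 : MeasurableSet {q : E n × E n | q.2 ∈ V' ∧ q.2 + q.1 ∈ V} := by
    have h1' : IsOpen {q : E n × E n | q.2 ∈ V' ∧ q.2 + q.1 ∈ V} :=
      (hVo'.preimage continuous_snd).inter
        (hVo.preimage (continuous_snd.add continuous_fst))
    exact h1'.measurableSet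
  have hgm : Measurable (fun v : E n => volume {a : E n | a ∈ V' ∧ a + v ∈ V}) :=
    measurable_measure_prodMk_left hmeas2
  have htot : ∫⁻ v in ball (0 : E n) R, volume {a : E n | a ∈ V' ∧ a + v ∈ V} ≤
      volume V' * volume V := by
    calc ∫⁻ v in ball (0 : E n) R, volume {a : E n | a ∈ V' ∧ a + v ∈ V}
        ≤ ∫⁻ v : E n, volume {a : E n | a ∈ V' ∧ a + v ∈ V} := setLIntegral_le_lintegral _ _
      _ = (volume.prod volume) {q : E n × E n | q.2 ∈ V' ∧ q.2 + q.1 ∈ V} := by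
          rw [Measure.prod_apply hmeas2]
          rfl
      _ = ∫⁻ a : E n, volume {v : E n | a ∈ V' ∧ a + v ∈ V} := by
          rw [Measure.prod_apply_symm hmeas2]
          rfl
      _ = ∫⁻ a in V', volume V := by
          rw [← lintegral_indicator hVo'.measurableSet]
          refine lintegral_congr fun a => ?_
          by_cases ha : a ∈ V'
          · rw [indicator_of_mem ha]
            have : {v : E n | a ∈ V' ∧ a + v ∈ V} = (fun v => a + v) ⁻¹' V := by
              ext v; simp [ha]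
            rw [this, measure_preimage_add]
          · rw [indicator_of_notMem ha]
            have : {v : E n | a ∈ V' ∧ a + v ∈ V} = ∅ := by
              ext v; simp [ha]
            rw [this, measure_empty]
      _ = volume V' * volume V := by
          rw [setLIntegral_const, mul_comm]
  obtain ⟨v, hvB, hv⟩ := exists_le_setLAverage hB0 hBt hgm.aemeasurable
  refine ⟨v, by simpa using hvB, hv.trans ?_⟩
  rw [setLAverage_eq]
  exact ENNReal.div_le_div_right htot _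

theorem arith1 {n : ℕ} (hn : 2 ≤ n) {r : ℝ} (hr : 0 < r) {a b : ℝ≥0∞}
    (hb : b ≤ ENNReal.ofReal r ^ n * Om n) :
    a * b / volume (ball (0 : E n) (4 * r)) ≤ a / 16 := by
  rw [vol_ball n 0 (by linarith)]
  generalize hX : ENNReal.ofReal r ^ n * Om n = X at hb
  have hX4 : ENNReal.ofReal (4 * r) ^ n * Om n = 4 ^ n * X := by
    rw [ENNReal.ofReal_mul (by norm_num), mul_pow, mul_assoc, hX, ENNReal.ofReal_ofNat]
  have h16 : (16 : ℝ≥0∞) ≤ 4 ^ n := by
    calc (16 : ℝ≥0∞) = 4 ^ 2 := by norm_num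
      _ ≤ 4 ^ n := pow_le_pow_right₀ (by norm_num) hn
  rw [hX4]
  refine ENNReal.div_le_of_le_mul ?_
  have h1 : a = a / 16 * 16 := by
    rw [ENNReal.div_mul_cancel (by norm_num) (by norm_num)]
  calc a * b ≤ a * X := by gcongr
    _ = a / 16 * 16 * X := by rw [← h1]
    _ = a / 16 * (16 * X) := by rw [mul_assoc]
    _ ≤ a / 16 * (4 ^ n * X) := by gcongr

theorem arith2 {x : ℝ≥0∞} (hx0 : x ≠ 0) (hx : x ≠ ∞) :
    ¬ (x ≤ x / 16 + ENNReal.ofReal (3 / 4) * x) := by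
  intro hfin
  have h1' := ENNReal.toReal_mono (by
    refine ENNReal.add_ne_top.2 ⟨ENNReal.div_ne_top hx (by norm_num), ?_⟩
    exact ENNReal.mul_ne_top ENNReal.ofReal_ne_top hx) hfin
  rw [ENNReal.toReal_add (ENNReal.div_ne_top hx (by norm_num))
    (ENNReal.mul_ne_top ENNReal.ofReal_ne_top hx), ENNReal.toReal_div, ENNReal.toReal_mul,
    ENNReal.toReal_ofReal (by norm_num), ENNReal.toReal_ofNat] at h1'
  have hpos : 0 < x.toReal := ENNReal.toReal_pos hx0 hx
  linarith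

/-- the value part -/
theorem value {n : ℕ} {V V' : Set (E n)} (hVo : IsOpen V) (hVo' : IsOpen V') {u : E n → ℝ}
    {v : E n} (h1 : ∀ a ∈ V', u a = 1) (h0 : ∀ a ∈ V', a + v ∉ V → u (a + v) = 0) :
    volume (V' \ {a : E n | a ∈ V' ∧ a + v ∈ V}) ≤ ∫⁻ a in V', edist (u (a + v)) (u a) := by
  have hGm : MeasurableSet {a : E n | a ∈ V' ∧ a + v ∈ V} :=
    (hVo'.inter (hVo.preimage (continuous_id.add continuous_const))).measurableSet
  have hDm : MeasurableSet (V' \ {a : E n | a ∈ V' ∧ a + v ∈ V}) := hVo'.measurableSet.diff hGm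
  calc volume (V' \ {a : E n | a ∈ V' ∧ a + v ∈ V})
      = ∫⁻ a in V' \ {a : E n | a ∈ V' ∧ a + v ∈ V}, 1 := by rw [setLIntegral_one]
    _ ≤ ∫⁻ a in V' \ {a : E n | a ∈ V' ∧ a + v ∈ V}, edist (u (a + v)) (u a) := by
        refine setLIntegral_mono' hDm ?_
        rintro a ⟨ha, ha2⟩
        have ha3 : a + v ∉ V := fun h => ha2 ⟨ha, h⟩
        rw [h1 a ha, h0 a ha ha3, edist_dist, Real.dist_eq]
        norm_num
    _ ≤ _ := lintegral_mono_set sdiff_subset

end Decay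

namespace Decay

theorem w_lt {k w : ℝ} (hk : 1 ≤ k) (hw : 0 < w) : w / Ak k < w := by
  refine div_lt_self hw ?_
  unfold Ak
  rw [Real.one_lt_exp_iff]
  positivity

theorem log_eq {k w : ℝ} (hw : 0 < w) : Real.log (w / (w / Ak k)) = (16 * k) ^ 2 := by
  rw [div_div_cancel₀ hw.ne', Ak, Real.log_exp]

theorem one_le_sq {k : ℝ} (hk : 1 ≤ k) : 1 ≤ (16 * k) ^ 2 := by nlinarith

theorem cut {n : ℕ} (hn : 2 ≤ n) {k : ℝ} (hk : 1 ≤ k) (p : E n) {w : ℝ} (hw : 0 < w) :
    ∃ (F : E n → ℝ) (ρ : E n → ℝ≥0∞) (L : ℝ≥0), LipschitzWith L F ∧ Measurable ρ ∧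
      (∀ y, ρ y ≤ L) ∧ (∀ y, PL F y (ρ y)) ∧
      (∀ y, dist y p ≤ w / Ak k → F y = 1) ∧ (∀ y, w ≤ dist y p → F y = 0) ∧
      ∫⁻ y, ρ y ^ n ≤ ENNReal.ofReal (3 / 2 / (16 * k)) ^ n * Om n := by
  obtain ⟨F, τρ, L, hL, hρm, hρL, hpl, h01, h1, h0, hint⟩ :=
    logcut hn p (s := w / Ak k) (t := w) (div_pos hw (Ak_pos k)) (w_lt hk hw)
      (by rw [log_eq hw]; exact one_le_sq hk)
  rw [log_eq hw, Real.sqrt_sq (by linarith)] at hint
  exact ⟨F, τρ, L, hL, hρm, hρL, hpl, h1, h0, hint⟩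

theorem fcut {n : ℕ} (hn : 2 ≤ n) {k : ℝ} (hk : 1 ≤ k) {f : E n → E n} (hf : QCE n k f)
    (p : E n) {w : ℝ} (hw : 0 < w) :
    ∃ (u : E n → ℝ) (τ : E n → ℝ≥0∞), Nice u τ ∧
      (∀ y, dist (f y) p ≤ w / Ak k → u y = 1) ∧ (∀ y, w ≤ dist (f y) p → u y = 0) ∧
      ∫⁻ x in (univ : Set (E n)), τ x ^ n ≤ ENNReal.ofReal (3 / 32) ^ n * Om n := by
  obtain ⟨F, τρ, L, hL, hρm, hρL, hpl, h1, h0, hint⟩ := cut hn hk p hw
  obtain ⟨τ, hnice, hen⟩ := nice_f hn hk hf hL hρm hρL hpl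
  refine ⟨F ∘ f, τ, hnice, fun y hy => h1 _ hy, fun y hy => h0 _ hy, ?_⟩
  have h2 := hen univ MeasurableSet.univ
  rw [preimage_univ] at h2
  refine h2.trans ?_
  rw [Measure.restrict_univ]
  have e : ENNReal.ofReal (3 / 32) = ENNReal.ofReal k * ENNReal.ofReal (3 / 2 / (16 * k)) := by
    rw [← ENNReal.ofReal_mul (by linarith)]
    congr 1
    field_simp
    norm_num
  rw [e, mul_pow, mul_assoc]
  exact mul_le_mul_right hint _

end Decay

theorem decay {n : ℕ} (hn : 2 ≤ n) {k : ℝ} (hk : 1 ≤ k) {f : E n → E n} (hf : QCE n k f)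
    {p x₀ : E n} {w ρ r : ℝ} (hw : 0 < w) (hr : 0 < r)
    (h : volume (f ⁻¹' ball p w ∩ ball x₀ ρ) ≤ ENNReal.ofReal r ^ n * Om n) :
    volume (f ⁻¹' ball p (w / Ak k) ∩ ball x₀ (ρ - 4 * r)) ≤ ENNReal.ofReal (r / 2) ^ n * Om n := by
  have hn1 : 1 ≤ n := by omega
  by_contra hcon
  rw [not_le] at hcon
  have hfc : Continuous f := hf.emb.continuous
  have hVo : IsOpen (f ⁻¹' ball p w ∩ ball x₀ ρ) := (isOpen_ball.preimage hfc).inter isOpen_ball
  have hVo' : IsOpen (f ⁻¹' ball p (w / Ak k) ∩ ball x₀ (ρ - 4 * r)) :=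
    (isOpen_ball.preimage hfc).inter isOpen_ball
  have hsub : f ⁻¹' ball p (w / Ak k) ∩ ball x₀ (ρ - 4 * r) ⊆ f ⁻¹' ball p w ∩ ball x₀ ρ :=
    inter_subset_inter (preimage_mono (ball_subset_ball (w_lt hk hw).le))
      (ball_subset_ball (by linarith))
  obtain ⟨u, τ, hnice, h1, h0, hE⟩ := fcut hn hk hf p hw
  have hW1 : ∀ a ∈ f ⁻¹' ball p (w / Ak k) ∩ ball x₀ (ρ - 4 * r), u a = 1 := by
    intro a ha
    have h2 : f a ∈ ball p (w / Ak k) := ha.1
    rw [mem_ball] at h2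
    exact h1 a h2.le
  have hW0 : ∀ v : E n, ‖v‖ < 4 * r → ∀ a ∈ f ⁻¹' ball p (w / Ak k) ∩ ball x₀ (ρ - 4 * r),
      a + v ∉ f ⁻¹' ball p w ∩ ball x₀ ρ → u (a + v) = 0 := by
    intro v hv a ha hav
    have hb : a + v ∈ ball x₀ ρ := by
      rw [mem_ball]
      have h3 : a ∈ ball x₀ (ρ - 4 * r) := ha.2
      rw [mem_ball] at h3
      calc dist (a + v) x₀ ≤ dist (a + v) a + dist a x₀ := dist_triangle _ _ _
        _ < ρ := by
          rw [dist_self_add_left]
          linarith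
    have hp : f (a + v) ∉ ball p w := fun h => hav ⟨h, hb⟩
    rw [mem_ball, not_lt] at hp
    exact h0 (a + v) hp
  clear h1 h0
  generalize f ⁻¹' ball p w ∩ ball x₀ ρ = V at *
  generalize f ⁻¹' ball p (w / Ak k) ∩ ball x₀ (ρ - 4 * r) = V' at *
  have hVfin : volume V ≠ ∞ :=
    ne_top_of_le_ne_top (ENNReal.mul_ne_top (ENNReal.pow_ne_top ENNReal.ofReal_ne_top)
      (Om_ne_top n)) h
  have hVfin' : volume V' ≠ ∞ := ne_top_of_le_ne_top hVfin (measure_mono hsub)
  have hV0 : volume V' ≠ 0 := (lt_of_le_of_lt zero_le hcon).ne'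
  obtain ⟨v, hv, hsm⟩ := avg hVo hVo' (R := 4 * r) (by linarith)
  have hsmall := hsm.trans (arith1 hn hr h)
  have hval := value hVo hVo' (v := v) hW1 (hW0 v hv)
  have htr := transl hn1 hnice hVo'.measurableSet hVfin' MeasurableSet.univ v
    (fun a _ t _ => mem_univ _) (G := 3 / 32) (r := r / 2) (by norm_num) (by linarith) hE hcon.le
  refine arith2 hV0 hVfin' ?_
  calc volume V' ≤ volume ({a : E n | a ∈ V' ∧ a + v ∈ V} ∪
        (V' \ {a : E n | a ∈ V' ∧ a + v ∈ V})) := measure_mono (by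
          intro a ha
          by_cases h : a ∈ {a : E n | a ∈ V' ∧ a + v ∈ V}
          · exact Or.inl h
          · exact Or.inr ⟨ha, h⟩)
    _ ≤ volume {a : E n | a ∈ V' ∧ a + v ∈ V} +
        volume (V' \ {a : E n | a ∈ V' ∧ a + v ∈ V}) := measure_union_le _ _
    _ ≤ volume V' / 16 + ENNReal.ofReal (3 / 4) * volume V' := by
        refine add_le_add hsmall (hval.trans (htr.trans ?_))
        have : ‖v‖ * (3 / 32) / (r / 2) ≤ 3 / 4 := by
          rw [div_le_iff₀ (by linarith)]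
          nlinarith
        exact mul_le_mul_left (ENNReal.ofReal_le_ofReal this) _

theorem decay_iter {n : ℕ} (hn : 2 ≤ n) {k : ℝ} (hk : 1 ≤ k) {f : E n → E n} (hf : QCE n k f)
    {p x₀ : E n} {w ρ r : ℝ} (hw : 0 < w) (hr : 0 < r)
    (h : volume (f ⁻¹' ball p w ∩ ball x₀ ρ) ≤ ENNReal.ofReal r ^ n * Om n) (j : ℕ) :
    volume (f ⁻¹' ball p (w / Ak k ^ j) ∩ ball x₀ (ρ - 8 * r)) ≤
      ENNReal.ofReal (r / 2 ^ j) ^ n * Om n := by
  have key : ∀ j : ℕ, volume (f ⁻¹' ball p (w / Ak k ^ j) ∩ ball x₀ (ρ - 8 * r * (1 - 1 / 2 ^ j))) ≤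
      ENNReal.ofReal (r / 2 ^ j) ^ n * Om n := by
    intro j
    induction j with
    | zero => simpa using h
    | succ j ih =>
      have hw' : 0 < w / Ak k ^ j := div_pos hw (pow_pos (Ak_pos k) j)
      have hr' : 0 < r / 2 ^ j := by positivity
      have := decay hn hk hf hw' hr' ih
      have e1 : w / Ak k ^ j / Ak k = w / Ak k ^ (j + 1) := by
        rw [div_div, pow_succ]
      have e2 : ρ - 8 * r * (1 - 1 / 2 ^ j) - 4 * (r / 2 ^ j) =
          ρ - 8 * r * (1 - 1 / 2 ^ (j + 1)) := by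
        rw [pow_succ]
        field_simp
        ring
      have e3 : r / 2 ^ j / 2 = r / 2 ^ (j + 1) := by
        rw [div_div, pow_succ]
      rw [e1, e2, e3] at this
      exact this
  refine (measure_mono (inter_subset_inter_right _ (ball_subset_ball ?_))).trans (key j)
  have : 0 ≤ 8 * r * (1 / 2 ^ j) := by positivity
  nlinarith

end Pool.Agent.Lib.MP_591455_an
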