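import Mathlib

/-!
Common definitions for MP_591455_an (dimension-free distortion in terms of the linear dilatation).
-/

open MeasureTheory Set Metric Filter Topology
open scoped ENNReal NNReal

namespace Pool.Agent.Lib.MP_591455_an

/-- Euclidean space of dimension n. -/
abbrev E (n : ℕ) := EuclideanSpace ℝ (Fin n)

/-- Volume of the open unit ball. -/
noncomputable def Om (n : ℕ) : ℝ≥0∞ := volume (ball (0 : E n) 1)

/-- c is an upper bound for the pointwise Lipschitz constant of ψ at x. -/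
def PL {X Y : Type*} [PseudoMetricSpace X] [PseudoMetricSpace Y] (ψ : X → Y) (x : X) (c : ℝ≥0∞) :
    Prop :=
  ∀ c' : ℝ≥0, c < c' → ∀ᶠ y in 𝓝 x, dist (ψ y) (ψ x) ≤ c' * dist y x

/-- On all small spheres about x the ratio of distances to f x is at most H. -/
def Qs {n : ℕ} (f : E n → E n) (H : ℝ) (x : E n) : Prop :=
  ∃ δ₀ : ℝ, 0 < δ₀ ∧ ∀ ξ ξ' : E n, dist ξ x < δ₀ → dist ξ' x = dist ξ x →
    dist (f ξ) (f x) ≤ H * dist (f ξ') (f x)

/-- Working form of a quasiconformal open embedding. -/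
structure QCE (n : ℕ) (k : ℝ) (f : E n → E n) : Prop where
  emb : IsOpenEmbedding f
  bdd : ∃ H : ℝ, 1 ≤ H ∧ ∀ x, Qs f H x
  ae : ∀ H : ℝ, k < H → ∀ᵐ x : E n, Qs f H x

/-- Continuous real functions with an upper gradient τ and the null-image property on lines. -/
structure Nice {n : ℕ} (ψ : E n → ℝ) (τ : E n → ℝ≥0∞) : Prop where
  cont : Continuous ψ
  meas : Measurable τ
  pl : ∀ᵐ x : E n, PL ψ x (τ x)
  null : ∀ v : E n, v ≠ 0 → ∀ᵐ x : E n, ∀ N : Set ℝ, volume N = 0 →
    volume (ψ '' ((fun t : ℝ => x + t • v) '' N)) = 0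

/-- The decay constant. -/
noncomputable def Ak (k : ℝ) : ℝ := Real.exp ((16 * k) ^ 2)

/-- The volume constant. -/
noncomputable def ek (k : ℝ) : ℝ := 1 / (500 * Ak k * k)

end Pool.Agent.Lib.MP_591455_an
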