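import Pool.Agent.Lib.MP_591455_an.Transl
import Pool.Agent.Lib.MP_591455_an.EnergyG
import Pool.Agent.Lib.MP_591455_an.Decay

/-!
Displacement bound: the extension of the truncated distance function under the inverse map varies
little between nearby points whose surroundings have small preimage.
-/

open MeasureTheory Set Metric Filter Topology
open scoped ENNReal NNReal

namespace Pool.Agent.Lib.MP_591455_an.DispAux

open Pool.Agent.Lib.MP_591455_an

variable {n : ℕ}

/-- normalized volume on the ball of radius w about the origin -/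
noncomputable def nu (n : ℕ) (w : ℝ) : Measure (E n) :=
  (volume (ball (0 : E n) w))⁻¹ • volume.restrict (ball (0 : E n) w)

theorem vol_ball_pos (w : ℝ) (hw : 0 < w) (p : E n) : volume (ball p w) ≠ 0 :=
  (measure_ball_pos volume p hw).ne'

theorem vol_ball_top (w : ℝ) (p : E n) : volume (ball p w) ≠ ∞ := measure_ball_lt_top.ne

theorem nu_prob {w : ℝ} (hw : 0 < w) : IsProbabilityMeasure (nu n w) := by
  constructor
  rw [nu, Measure.smul_apply, Measure.restrict_apply_univ, smul_eq_mul,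
    ENNReal.inv_mul_cancel (vol_ball_pos w hw 0) (vol_ball_top w 0)]

/-- volume of a ball in terms of Om -/
theorem vol_ball (_hn : 1 ≤ n) (p : E n) {w : ℝ} (hw : 0 < w) :
    volume (ball p w) = ENNReal.ofReal w ^ n * Om n := by
  rw [Measure.addHaar_ball_of_pos volume p hw, ENNReal.ofReal_pow hw.le]
  simp [Om]

theorem nu_ae_mem {w : ℝ} : ∀ᵐ x ∂(nu n w), x ∈ ball (0 : E n) w := by
  rw [nu]
  refine Measure.ae_smul_measure ?_ _
  exact ae_restrict_mem measurableSet_ball

theorem integrable_nu {w : ℝ} (hw : 0 < w) {φ : E n → ℝ} (hφ : Continuous φ) {B : ℝ}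
    (hB : ∀ x, |φ x| ≤ B) : Integrable φ (nu n w) := by
  have := nu_prob (n := n) hw
  exact Integrable.of_bound hφ.aestronglyMeasurable B (Eventually.of_forall hB)

/-- the mean over a ball -/
noncomputable def mean (ψ : E n → ℝ) (p : E n) (w : ℝ) : ℝ := ∫ x, ψ (p + x) ∂(nu n w)

theorem abs_integral_sub_le {w : ℝ} (hw : 0 < w) {φ χ : E n → ℝ} (hφ : Continuous φ)
    (hχ : Continuous χ) {B : ℝ} (hB : ∀ x, |φ x| ≤ B) (hB' : ∀ x, |χ x| ≤ B) {c : ℝ} (hc : 0 ≤ c)
    (h : ∫⁻ x in ball (0 : E n) w, edist (φ x) (χ x) ≤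
      ENNReal.ofReal c * volume (ball (0 : E n) w)) :
    |∫ x, φ x ∂(nu n w) - ∫ x, χ x ∂(nu n w)| ≤ c := by
  rw [← integral_sub (integrable_nu hw hφ hB) (integrable_nu hw hχ hB')]
  have h1 : |∫ x, (φ x - χ x) ∂(nu n w)| ≤ ∫ x, |φ x - χ x| ∂(nu n w) :=
    abs_integral_le_integral_abs
  refine h1.trans ?_
  have hcd : Continuous (fun x => |φ x - χ x|) := (hφ.sub hχ).abs
  rw [integral_eq_lintegral_of_nonneg_ae (Eventually.of_forall fun x => abs_nonneg _)
    hcd.aestronglyMeasurable]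
  refine ENNReal.toReal_le_of_le_ofReal hc ?_
  have h2 : ∫⁻ x, ENNReal.ofReal |φ x - χ x| ∂(nu n w) =
      (volume (ball (0 : E n) w))⁻¹ * ∫⁻ x in ball (0 : E n) w, edist (φ x) (χ x) := by
    rw [nu, lintegral_smul_measure, smul_eq_mul]
    congr 1
    refine lintegral_congr fun x => ?_
    rw [edist_dist, Real.dist_eq]
  rw [h2]
  calc (volume (ball (0 : E n) w))⁻¹ * ∫⁻ x in ball (0 : E n) w, edist (φ x) (χ x)
      ≤ (volume (ball (0 : E n) w))⁻¹ * (ENNReal.ofReal c * volume (ball (0 : E n) w)) := by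
        gcongr
    _ = ENNReal.ofReal c := by
        rw [mul_comm, mul_assoc, ENNReal.mul_inv_cancel (vol_ball_pos w hw 0) (vol_ball_top w 0),
          mul_one]

theorem shift_lintegral (p : E n) (w : ℝ) (φ : E n → ℝ≥0∞) :
    ∫⁻ x in ball (0 : E n) w, φ (p + x) = ∫⁻ x in ball p w, φ x := by
  have h := (measurePreserving_add_left (volume : Measure (E n)) p).setLIntegral_comp_preimage_emb
    (measurableEmbedding_addLeft p) φ (ball p w)
  rw [← h]
  congr 2
  ext x
  simp [mem_ball, dist_eq_norm]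

/-- two means about the same centre -/
theorem mean_compare {ψ : E n → ℝ} (hψ : Continuous ψ) {B : ℝ} (hB : ∀ x, |ψ x| ≤ B) {p : E n}
    {w₁ w₂ c₁ c₂ : ℝ} (hw₁ : 0 < w₁) (hw₂ : 0 < w₂) (hc₁ : 0 ≤ c₁) (hc₂ : 0 ≤ c₂)
    (h₁ : ∀ v ∈ ball (0 : E n) w₂, ∫⁻ a in ball p w₁, edist (ψ (a + v)) (ψ a) ≤
      ENNReal.ofReal c₁ * volume (ball p w₁))
    (h₂ : ∀ v ∈ ball (0 : E n) w₁, ∫⁻ a in ball p w₂, edist (ψ (a + v)) (ψ a) ≤
      ENNReal.ofReal c₂ * volume (ball p w₂)) :
    |mean ψ p w₁ - mean ψ p w₂| ≤ c₁ + c₂ := by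
  have := nu_prob (n := n) hw₁
  have := nu_prob (n := n) hw₂
  have hvol : ∀ w : ℝ, volume (ball p w) = volume (ball (0 : E n) w) := fun w => by
    rw [← Measure.addHaar_ball_center volume p w]
  -- the double mean
  have hcont : Continuous (fun q : E n × E n => ψ (p + q.1 + q.2)) :=
    hψ.comp ((continuous_const.add continuous_fst).add continuous_snd)
  have hint : Integrable (Function.uncurry fun a b : E n => ψ (p + a + b))
      ((nu n w₁).prod (nu n w₂)) :=
    Integrable.of_bound hcont.aestronglyMeasurable B (Eventually.of_forall fun q => hB _)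
  have hswap := integral_integral_swap hint
  -- first comparison : for each b, the mean of ψ (p+a+b) over a
  have key : ∀ {w w' c : ℝ}, 0 < w → 0 < w' → 0 ≤ c →
      (∀ v ∈ ball (0 : E n) w', ∫⁻ a in ball p w, edist (ψ (a + v)) (ψ a) ≤
        ENNReal.ofReal c * volume (ball p w)) →
      |(∫ b, ∫ a, ψ (p + a + b) ∂(nu n w) ∂(nu n w')) - mean ψ p w| ≤ c := by
    intro w w' c hw hw' hc h
    have := nu_prob (n := n) hw
    have := nu_prob (n := n) hw'
    have hcont' : Continuous (fun q : E n × E n => ψ (p + q.2 + q.1)) :=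
      hψ.comp ((continuous_const.add continuous_snd).add continuous_fst)
    have hint' : Integrable (Function.uncurry fun b a : E n => ψ (p + a + b))
        ((nu n w').prod (nu n w)) :=
      Integrable.of_bound hcont'.aestronglyMeasurable B (Eventually.of_forall fun q => hB _)
    have hI : Integrable (fun b => ∫ a, ψ (p + a + b) ∂(nu n w)) (nu n w') :=
      hint'.integral_prod_left
    have e1 : (∫ b, ∫ a, ψ (p + a + b) ∂(nu n w) ∂(nu n w')) - mean ψ p w =
        ∫ b, ((∫ a, ψ (p + a + b) ∂(nu n w)) - mean ψ p w) ∂(nu n w') := by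
      rw [integral_sub hI (integrable_const _)]
      simp
    rw [e1]
    have e2 : ‖∫ b, ((∫ a, ψ (p + a + b) ∂(nu n w)) - mean ψ p w) ∂(nu n w')‖ ≤
        c * (nu n w').real univ := by
      refine norm_integral_le_of_norm_le_const ?_
      filter_upwards [nu_ae_mem (n := n) (w := w')] with b hb
      rw [Real.norm_eq_abs]
      refine abs_integral_sub_le (n := n) hw (φ := fun a => ψ (p + a + b))
        (χ := fun a => ψ (p + a))
        (hψ.comp ((continuous_const.add continuous_id).add continuous_const))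
        (hψ.comp (continuous_const.add continuous_id)) (fun x => hB _) (fun x => hB _) hc ?_
      have := h b hb
      rw [← shift_lintegral p w (fun a => edist (ψ (a + b)) (ψ a)), hvol] at this
      exact this
    rw [← Real.norm_eq_abs]
    simpa using e2
  have k1 := key hw₁ hw₂ hc₁ h₁
  have k2 := key hw₂ hw₁ hc₂ h₂
  have e3 : (∫ b, ∫ a, ψ (p + a + b) ∂(nu n w₁) ∂(nu n w₂)) =
      ∫ b, ∫ a, ψ (p + a + b) ∂(nu n w₂) ∂(nu n w₁) := by
    rw [← hswap]
    refine integral_congr_ae (Eventually.of_forall fun a => ?_)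
    refine integral_congr_ae (Eventually.of_forall fun b => ?_)
    show ψ (p + a + b) = ψ (p + b + a)
    rw [add_right_comm]
  rw [e3] at k1
  rw [abs_le] at k1 k2 ⊢
  constructor <;> linarith [k1.1, k1.2, k2.1, k2.2]

/-- means of nearby centres -/
theorem mean_shift {ψ : E n → ℝ} (hψ : Continuous ψ) {B : ℝ} (hB : ∀ x, |ψ x| ≤ B) {p q : E n}
    {w c : ℝ} (hw : 0 < w) (hc : 0 ≤ c)
    (h : ∫⁻ a in ball p w, edist (ψ (a + (q - p))) (ψ a) ≤
      ENNReal.ofReal c * volume (ball p w)) :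
    |mean ψ q w - mean ψ p w| ≤ c := by
  have hvol : volume (ball p w) = volume (ball (0 : E n) w) := by
    rw [← Measure.addHaar_ball_center volume p w]
  refine abs_integral_sub_le (n := n) hw (φ := fun a => ψ (q + a)) (χ := fun a => ψ (p + a))
    (hψ.comp (continuous_const.add continuous_id))
    (hψ.comp (continuous_const.add continuous_id)) (fun x => hB _) (fun x => hB _) hc ?_
  rw [← shift_lintegral p w (fun a => edist (ψ (a + (q - p))) (ψ a)), hvol] at h
  refine le_trans (le_of_eq ?_) h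
  refine lintegral_congr fun a => ?_
  have : q + a = p + a + (q - p) := by abel
  rw [this]

/-- means converge to the value at the centre -/
theorem mean_tendsto {ψ : E n → ℝ} (hψ : Continuous ψ) {B : ℝ} (hB : ∀ x, |ψ x| ≤ B) (p : E n)
    {ε : ℝ} (hε : 0 < ε) : ∃ δ : ℝ, 0 < δ ∧ ∀ w : ℝ, 0 < w → w < δ → |mean ψ p w - ψ p| ≤ ε := by
  obtain ⟨δ, hδ, h⟩ := Metric.continuous_iff.1 hψ p ε hε
  refine ⟨δ, hδ, fun w hw hwδ => ?_⟩
  have := nu_prob (n := n) hw
  have e1 : mean ψ p w - ψ p = ∫ x, (ψ (p + x) - ψ p) ∂(nu n w) := by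
    have hi : Integrable (fun x => ψ (p + x)) (nu n w) :=
      integrable_nu hw (hψ.comp (continuous_const.add continuous_id)) (fun x => hB _)
    rw [integral_sub hi (integrable_const _)]
    simp [mean]
  rw [e1, ← Real.norm_eq_abs]
  have e2 : ‖∫ x, (ψ (p + x) - ψ p) ∂(nu n w)‖ ≤ ε * (nu n w).real univ := by
    refine norm_integral_le_of_norm_le_const ?_
    filter_upwards [nu_ae_mem (n := n) (w := w)] with x hx
    have := h (p + x) (by
      rw [dist_eq_norm, add_sub_cancel_left]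
      rw [mem_ball_zero_iff] at hx
      exact hx.trans hwδ)
    rw [Real.norm_eq_abs, ← Real.dist_eq]
    exact this.le
  simpa using e2

/-- the truncated distance function -/
theorem trunc_lip (x₀ : E n) (c : ℝ) : LipschitzWith 1 (fun x : E n => min (dist x x₀) c) := by
  have := (LipschitzWith.dist_left x₀).min_const c
  simpa using this

theorem trunc_pl (x₀ : E n) (c : ℝ) (y : E n) :
    PL (fun x : E n => min (dist x x₀) c) y ((closedBall x₀ c).indicator (fun _ => (1 : ℝ≥0∞)) y) := by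
  intro c' hc'
  by_cases hy : y ∈ closedBall x₀ c
  · rw [indicator_of_mem hy] at hc'
    have h1 : (1 : ℝ≥0) < c' := by exact_mod_cast hc'
    refine Eventually.of_forall fun z => ?_
    have := (trunc_lip x₀ c).dist_le_mul z y
    refine this.trans ?_
    have h2 : ((1 : ℝ≥0) : ℝ) ≤ c' := by exact_mod_cast h1.le
    exact mul_le_mul_of_nonneg_right h2 dist_nonneg
  · have hopen : IsOpen (closedBall x₀ c)ᶜ := isClosed_closedBall.isOpen_compl
    filter_upwards [hopen.mem_nhds hy] with z hz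
    simp only [mem_compl_iff, mem_closedBall, not_le] at hz hy
    rw [min_eq_right hz.le, min_eq_right hy.le, dist_self]
    positivity

theorem Ak_one_le {k : ℝ} : 1 ≤ Ak k := by
  rw [Ak]
  exact Real.one_le_exp (by positivity)

theorem disp_one {n : ℕ} (hn : 2 ≤ n) {k : ℝ} (hk : 1 ≤ k) {f : E n → E n} (hf : QCE n k f)
    {p x₀ : E n} {w c r₀ : ℝ} (hw : 0 < w) (hr : 0 < r₀)
    (hp : volume (f ⁻¹' ball p (2 * w) ∩ ball x₀ (c + 9 * r₀)) ≤ ENNReal.ofReal r₀ ^ n * Om n)
    {ψ : E n → ℝ} {τ : E n → ℝ≥0∞} (hN : Nice ψ τ) {B : ℝ} (hB : ∀ x, |ψ x| ≤ B)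
    (hE : ∀ S : Set (E n), MeasurableSet S →
      ∫⁻ y in S, τ y ^ n ≤ ENNReal.ofReal k ^ n * volume (f ⁻¹' S ∩ closedBall x₀ c)) :
    (∀ j : ℕ, ∫⁻ y in ball p (2 * w / Ak k ^ j), τ y ^ n ≤
      ENNReal.ofReal (k * (r₀ / 2 ^ j)) ^ n * Om n) ∧
    |ψ p - mean ψ p w| ≤ 4 * Ak k * k * r₀ := by
  have hA : 1 ≤ Ak k := Ak_one_le
  have hA0 : 0 < Ak k := by linarith
  have hk0 : 0 < k := by linarith
  have hen : ∀ j : ℕ, ∫⁻ y in ball p (2 * w / Ak k ^ j), τ y ^ n ≤
      ENNReal.ofReal (k * (r₀ / 2 ^ j)) ^ n * Om n := by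
    intro j
    have h1 := hE (ball p (2 * w / Ak k ^ j)) measurableSet_ball
    have h2 := decay_iter hn hk hf (p := p) (x₀ := x₀) (w := 2 * w) (ρ := c + 9 * r₀)
      (by linarith) hr hp j
    refine h1.trans ?_
    have h3 : volume (f ⁻¹' ball p (2 * w / Ak k ^ j) ∩ closedBall x₀ c) ≤
        ENNReal.ofReal (r₀ / 2 ^ j) ^ n * Om n := by
      refine le_trans (measure_mono ?_) h2
      refine inter_subset_inter_right _ ?_
      refine closedBall_subset_ball ?_
      linarith
    calc ENNReal.ofReal k ^ n * volume (f ⁻¹' ball p (2 * w / Ak k ^ j) ∩ closedBall x₀ c)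
        ≤ ENNReal.ofReal k ^ n * (ENNReal.ofReal (r₀ / 2 ^ j) ^ n * Om n) := by gcongr
      _ = ENNReal.ofReal (k * (r₀ / 2 ^ j)) ^ n * Om n := by
          rw [ENNReal.ofReal_mul hk0.le, mul_pow, mul_assoc]
  refine ⟨hen, ?_⟩
  -- the step
  have step : ∀ j : ℕ, |mean ψ p (w / Ak k ^ (j + 1)) - mean ψ p (w / Ak k ^ j)| ≤
      2 * Ak k * k * r₀ * (1 / 2) ^ j := by
    intro j
    have hAj : 0 < Ak k ^ j := by positivity
    set u := w / Ak k ^ j with hu
    have hu0 : 0 < u := by positivity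
    have hw1 : w / Ak k ^ (j + 1) = u / Ak k := by
      rw [hu, pow_succ, div_div]
    rw [hw1]
    have hu1 : 0 < u / Ak k := by positivity
    have hule : u / Ak k ≤ u := div_le_self hu0.le hA
    have h2u : 2 * w / Ak k ^ j = 2 * u := by rw [hu]; ring
    have henj := hen j
    rw [h2u] at henj
    set G : ℝ := k * (r₀ / 2 ^ j) with hG
    have hG0 : 0 < G := by positivity
    have hgen : ∀ {a b : ℝ}, 0 < a → a + b ≤ 2 * u → ∀ v ∈ ball (0 : E n) b,
        ∫⁻ x in ball p a, edist (ψ (x + v)) (ψ x) ≤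
          ENNReal.ofReal (b * G / a) * volume (ball p a) := by
      intro a b ha hab v hv
      have hv' : ‖v‖ < b := by simpa using hv
      have := transl (n := n) (by omega) hN (A := ball p a) (D := ball p (2 * u))
        measurableSet_ball (vol_ball_top a p) measurableSet_ball v (fun x hx t ht => by
          rw [mem_ball, dist_eq_norm] at hx ⊢
          calc ‖x + t • v - p‖ = ‖(x - p) + t • v‖ := by congr 1; abel
            _ ≤ ‖x - p‖ + ‖t • v‖ := norm_add_le _ _
            _ = ‖x - p‖ + t * ‖v‖ := by rw [norm_smul, Real.norm_eq_abs, abs_of_nonneg ht.1]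
            _ ≤ ‖x - p‖ + 1 * ‖v‖ := by gcongr; exact ht.2
            _ < a + b := by linarith
            _ ≤ 2 * u := hab) hG0.le ha henj (le_of_eq (vol_ball (by omega) p ha).symm)
      refine this.trans ?_
      gcongr
    have hmc := mean_compare hN.cont hB (p := p) (w₁ := u / Ak k) (w₂ := u)
      (c₁ := u * G / (u / Ak k)) (c₂ := (u / Ak k) * G / u) hu1 hu0 (by positivity) (by positivity)
      (hgen hu1 (by linarith)) (hgen hu0 (by linarith))
    refine hmc.trans ?_
    have e1 : u * G / (u / Ak k) = Ak k * G := by field_simp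
    have e2 : (u / Ak k) * G / u = G / Ak k := by field_simp
    rw [e1, e2]
    have e3 : G / Ak k ≤ Ak k * G := by
      rw [div_le_iff₀ hA0]
      nlinarith [mul_nonneg hG0.le (mul_self_nonneg (Ak k)), mul_le_mul hA hA (by norm_num) hA0.le]
    have e4 : G = k * r₀ * (1 / 2) ^ j := by
      rw [hG, one_div_pow]; ring
    calc Ak k * G + G / Ak k ≤ 2 * (Ak k * G) := by linarith
      _ = 2 * Ak k * k * r₀ * (1 / 2) ^ j := by rw [e4]; ring
  have hsum : ∀ j : ℕ, |mean ψ p (w / Ak k ^ j) - mean ψ p w| ≤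
      4 * Ak k * k * r₀ * (1 - (1 / 2) ^ j) := by
    intro j
    induction j with
    | zero => simp
    | succ j ih =>
      have := step j
      rw [abs_le] at this ih ⊢
      have e : (1 / 2 : ℝ) ^ (j + 1) = (1 / 2) ^ j / 2 := by rw [pow_succ]; ring
      rw [e]
      constructor <;> linarith [this.1, this.2, ih.1, ih.2]
  refine le_of_forall_pos_le_add fun ε hε => ?_
  obtain ⟨δ, hδ, hm⟩ := mean_tendsto hN.cont hB p hε
  have hA2 : 1 < Ak k := by
    rw [Ak]
    exact Real.one_lt_exp_iff.2 (by positivity)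
  obtain ⟨j, hj⟩ : ∃ j : ℕ, w / Ak k ^ j < δ := by
    obtain ⟨j, hj⟩ := pow_unbounded_of_one_lt (w / δ) hA2
    refine ⟨j, ?_⟩
    rw [div_lt_iff₀ (by positivity)]
    rw [div_lt_iff₀ hδ] at hj
    linarith
  have h1 := hm (w / Ak k ^ j) (by positivity) hj
  have h2 := hsum j
  have h3 : 4 * Ak k * k * r₀ * (1 - (1 / 2) ^ j) ≤ 4 * Ak k * k * r₀ := by
    have : (0 : ℝ) ≤ (1 / 2) ^ j := by positivity
    have h4 : 0 ≤ 4 * Ak k * k * r₀ := by positivity
    nlinarith
  rw [abs_le] at h1 h2 ⊢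
  constructor <;> linarith [h1.1, h1.2, h2.1, h2.2]

end Pool.Agent.Lib.MP_591455_an.DispAux

namespace Pool.Agent.Lib.MP_591455_an

open DispAux

theorem disp {n : ℕ} (hn : 2 ≤ n) {k : ℝ} (hk : 1 ≤ k) {f : E n → E n} (hf : QCE n k f)
    {p q x₀ : E n} {w c r₀ : ℝ} (hw : 0 < w) (hc : 0 < c) (hr : 0 < r₀)
    (hp : volume (f ⁻¹' ball p (2 * w) ∩ ball x₀ (c + 9 * r₀)) ≤ ENNReal.ofReal r₀ ^ n * Om n)
    (hq : volume (f ⁻¹' ball q (2 * w) ∩ ball x₀ (c + 9 * r₀)) ≤ ENNReal.ofReal r₀ ^ n * Om n)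
    (hpq : dist p q ≤ w) :
    dist (Function.extend f (fun x => min (dist x x₀) c) (fun _ => c) p)
      (Function.extend f (fun x => min (dist x x₀) c) (fun _ => c) q) ≤ 9 * Ak k * k * r₀ := by
  have hA : 1 ≤ Ak k := Ak_one_le
  have hk0 : 0 < k := by linarith
  have hρm : Measurable ((closedBall x₀ c).indicator (fun _ => (1 : ℝ≥0∞))) :=
    measurable_const.indicator measurableSet_closedBall
  obtain ⟨τ, hN, hE⟩ := nice_g hn hk hf (F := fun x => min (dist x x₀) c) (L := 1)
    (trunc_lip x₀ c) (ρ := (closedBall x₀ c).indicator (fun _ => (1 : ℝ≥0∞))) hρm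
    (fun y => by
      by_cases hy : y ∈ closedBall x₀ c
      · rw [indicator_of_mem hy]; simp
      · rw [indicator_of_notMem hy]; simp) (trunc_pl x₀ c) (x₀ := x₀) (R := c) (c₀ := c)
    (fun x hx => min_eq_right hx.le)
  set ψ := Function.extend f (fun x => min (dist x x₀) c) (fun _ => c) with hψ
  have hB : ∀ x, |ψ x| ≤ c := by
    intro x
    rw [hψ]
    by_cases hx : ∃ a, f a = x
    · obtain ⟨a, rfl⟩ := hx
      rw [hf.emb.injective.extend_apply]
      rw [abs_of_nonneg (le_min dist_nonneg hc.le)]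
      exact min_le_right _ _
    · rw [Function.extend_apply' _ _ _ hx, abs_of_pos hc]
  have hE' : ∀ S : Set (E n), MeasurableSet S →
      ∫⁻ y in S, τ y ^ n ≤ ENNReal.ofReal k ^ n * volume (f ⁻¹' S ∩ closedBall x₀ c) := by
    intro S hS
    refine (hE S hS).trans (le_of_eq ?_)
    have hfS : MeasurableSet (f ⁻¹' S) := hf.emb.continuous.measurable hS
    have e : ∀ x, (closedBall x₀ c).indicator (fun _ => (1 : ℝ≥0∞)) x ^ n =
        (closedBall x₀ c).indicator (fun _ => (1 : ℝ≥0∞)) x := by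
      intro x
      by_cases hx : x ∈ closedBall x₀ c
      · rw [indicator_of_mem hx, one_pow]
      · rw [indicator_of_notMem hx, zero_pow (by omega)]
    simp_rw [e]
    rw [lintegral_indicator measurableSet_closedBall, lintegral_const, one_mul,
      Measure.restrict_apply_univ, Measure.restrict_apply measurableSet_closedBall, inter_comm]
  have Hp := disp_one hn hk hf hw hr hp hN hB hE'
  have Hq := disp_one hn hk hf hw hr hq hN hB hE'
  have hen := Hp.1 0
  have h2 := transl (n := n) (by omega) hN (A := ball p w) (D := ball p (2 * w))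
    measurableSet_ball (vol_ball_top w p) measurableSet_ball (q - p) (fun x hx t ht => by
      rw [mem_ball, dist_eq_norm] at hx ⊢
      have hqp : ‖q - p‖ ≤ w := by rw [← dist_eq_norm, dist_comm]; exact hpq
      calc ‖x + t • (q - p) - p‖ = ‖(x - p) + t • (q - p)‖ := by congr 1; abel
        _ ≤ ‖x - p‖ + ‖t • (q - p)‖ := norm_add_le _ _
        _ = ‖x - p‖ + t * ‖q - p‖ := by rw [norm_smul, Real.norm_eq_abs, abs_of_nonneg ht.1]
        _ ≤ ‖x - p‖ + 1 * ‖q - p‖ := by gcongr; exact ht.2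
        _ < 2 * w := by linarith) (G := k * r₀) (by positivity) hw (by simpa using hen)
    (le_of_eq (vol_ball (by omega) p hw).symm)
  have h3 : |mean ψ q w - mean ψ p w| ≤ k * r₀ := by
    refine mean_shift hN.cont hB hw (by positivity) (h2.trans ?_)
    gcongr
    have hqp : ‖q - p‖ ≤ w := by rw [← dist_eq_norm, dist_comm]; exact hpq
    rw [div_le_iff₀ hw]
    nlinarith [mul_pos hk0 hr]
  rw [Real.dist_eq]
  have h4 := Hp.2
  have h5 := Hq.2
  have h6 : k * r₀ ≤ Ak k * k * r₀ := by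
    have : 0 < k * r₀ := by positivity
    nlinarith
  rw [abs_le] at h3 h4 h5 ⊢
  constructor <;> linarith [h3.1, h3.2, h4.1, h4.2, h5.1, h5.2]

end Pool.Agent.Lib.MP_591455_an
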