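import Pool.Agent.Lib.MP_591455_an.Defs
import Pool.Agent.Lib.MP_591455_an.Disp
import Pool.Agent.Lib.MP_591455_an.Decay

/-!
MP_591455_an, module Levels: a level shell of the map meets the ball of radius two in a set of
definite volume.
-/

open MeasureTheory Set Metric Filter Topology
open scoped ENNReal NNReal

namespace Pool.Agent.Lib.MP_591455_an.Levels

/-- The complement of a ball is preconnected in dimension at least two. -/
theorem preconn_compl {n : ℕ} (hn : 2 ≤ n) (x₀ : E n) {r : ℝ} (hr : 0 < r) :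
    IsPreconnected (ball x₀ r)ᶜ := by
  have hrank : 1 < Module.rank ℝ (E n) := by
    rw [← Module.finrank_eq_rank, finrank_euclideanSpace_fin]
    exact_mod_cast hn
  have hs : IsPreconnected (sphere (0 : E n) 1) := isPreconnected_sphere hrank 0 1
  have hp : IsPreconnected (sphere (0 : E n) 1 ×ˢ Ici r) := hs.prod isPreconnected_Ici
  have hc : Continuous (fun q : E n × ℝ => x₀ + q.2 • q.1) := by fun_prop
  have him := hp.image _ hc.continuousOn
  convert him using 1
  ext x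
  simp only [mem_compl_iff, mem_ball, not_lt, mem_image, mem_prod, mem_sphere_iff_norm, sub_zero,
    mem_Ici, Prod.exists]
  constructor
  · intro hx
    have hx0 : 0 < dist x x₀ := hr.trans_le hx
    have hx1 : 0 < ‖x - x₀‖ := by rwa [dist_eq_norm] at hx0
    refine ⟨‖x - x₀‖⁻¹ • (x - x₀), ‖x - x₀‖, ⟨?_, ?_⟩, ?_⟩
    · rw [norm_smul, norm_inv, norm_norm, inv_mul_cancel₀ hx1.ne']
    · rwa [dist_eq_norm] at hx
    · rw [smul_smul, mul_inv_cancel₀ hx1.ne', one_smul]
      abel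
  · rintro ⟨u, t, ⟨hu, ht⟩, rfl⟩
    rw [dist_self_add_left, norm_smul, hu, mul_one, Real.norm_eq_abs]
    exact ht.trans (le_abs_self t)

/-- A unit vector orthogonal to a given one. -/
theorem exists_orth {n : ℕ} (hn : 2 ≤ n) (e : E n) :
    ∃ e' : E n, ‖e'‖ = 1 ∧ inner ℝ e e' = 0 := by
  have h1 : (Submodule.span ℝ {e})ᗮ ≠ ⊥ := by
    intro hb
    rw [Submodule.orthogonal_eq_bot_iff] at hb
    have h2 : Module.finrank ℝ (Submodule.span ℝ {e}) ≤ 1 := by
      simpa using finrank_span_le_card (R := ℝ) ({e} : Set (E n))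
    rw [hb, finrank_top, finrank_euclideanSpace_fin] at h2
    omega
  obtain ⟨z, hz, hz0⟩ := Submodule.exists_mem_ne_zero_of_ne_bot h1
  have hzn : 0 < ‖z‖ := norm_pos_iff.mpr hz0
  refine ⟨‖z‖⁻¹ • z, ?_, ?_⟩
  · rw [norm_smul, norm_inv, norm_norm, inv_mul_cancel₀ hzn.ne']
  · rw [inner_smul_right, Submodule.mem_orthogonal_singleton_iff_inner_right.mp hz, mul_zero]

/-- Two unit vectors in terms of an orthonormal pair. -/
theorem plane {n : ℕ} (hn : 2 ≤ n) {e u : E n} (hen : ‖e‖ = 1) (hun : ‖u‖ = 1) :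
    ∃ (e' : E n) (θ : ℝ), ‖e'‖ = 1 ∧ inner ℝ e e' = 0 ∧ 0 ≤ θ ∧ θ ≤ Real.pi ∧
      u = Real.cos θ • e + Real.sin θ • e' := by
  have hc1 : |inner ℝ e u| ≤ 1 := by
    have := abs_real_inner_le_norm e u
    rwa [hen, hun, mul_one] at this
  obtain ⟨c, hc⟩ : ∃ c : ℝ, c = inner ℝ e u := ⟨_, rfl⟩
  rw [← hc] at hc1
  have hc' := abs_le.mp hc1
  obtain ⟨z, hz⟩ : ∃ z : E n, z = u - c • e := ⟨_, rfl⟩
  have hzz : ‖z‖ ^ 2 = 1 - c ^ 2 := by
    rw [hz, norm_sub_sq_real, hun, norm_smul, hen, inner_smul_right, real_inner_comm, ← hc,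
      Real.norm_eq_abs, mul_one, sq_abs]
    ring
  have hez : inner ℝ e z = 0 := by
    rw [hz, inner_sub_right, inner_smul_right, real_inner_self_eq_norm_sq, hen, ← hc]
    ring
  by_cases hz0 : z = 0
  · obtain ⟨e', he'1, he'2⟩ := exists_orth hn e
    refine ⟨e', Real.arccos c, he'1, he'2, Real.arccos_nonneg c, Real.arccos_le_pi c, ?_⟩
    have hsin : Real.sin (Real.arccos c) = 0 := by
      rw [Real.sin_arccos, ← hzz, hz0, norm_zero]
      simp
    rw [Real.cos_arccos hc'.1 hc'.2, hsin, zero_smul, add_zero]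
    rw [hz, sub_eq_zero] at hz0
    exact hz0
  · have hzn : 0 < ‖z‖ := norm_pos_iff.mpr hz0
    refine ⟨‖z‖⁻¹ • z, Real.arccos c, ?_, ?_, Real.arccos_nonneg c, Real.arccos_le_pi c, ?_⟩
    · rw [norm_smul, norm_inv, norm_norm, inv_mul_cancel₀ hzn.ne']
    · rw [inner_smul_right, hez, mul_zero]
    · have hsin : Real.sin (Real.arccos c) = ‖z‖ := by
        rw [Real.sin_arccos, ← hzz, Real.sqrt_sq hzn.le]
      rw [Real.cos_arccos hc'.1 hc'.2, hsin, smul_smul, mul_inv_cancel₀ hzn.ne', one_smul, hz]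
      abel

/-- Two points of a sphere lie on a common great circle. -/
theorem circle {n : ℕ} (hn : 2 ≤ n) {w : ℝ} (hw : 0 < w) {y₀ y₁ : E n} (h0 : ‖y₀‖ = w)
    (h1 : ‖y₁‖ = w) :
    ∃ (γ : ℝ → E n) (θ : ℝ), 0 ≤ θ ∧ θ ≤ Real.pi ∧ γ 0 = y₀ ∧ γ θ = y₁ ∧ (∀ t, ‖γ t‖ = w) ∧
      ∀ s t, dist (γ s) (γ t) ≤ w * |s - t| := by
  obtain ⟨e, he⟩ : ∃ e : E n, e = w⁻¹ • y₀ := ⟨_, rfl⟩
  have hen : ‖e‖ = 1 := by
    rw [he, norm_smul, norm_inv, Real.norm_eq_abs, abs_of_pos hw, h0, inv_mul_cancel₀ hw.ne']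
  have hy0 : y₀ = w • e := by rw [he, smul_smul, mul_inv_cancel₀ hw.ne', one_smul]
  obtain ⟨u, hu⟩ : ∃ u : E n, u = w⁻¹ • y₁ := ⟨_, rfl⟩
  have hun : ‖u‖ = 1 := by
    rw [hu, norm_smul, norm_inv, Real.norm_eq_abs, abs_of_pos hw, h1, inv_mul_cancel₀ hw.ne']
  have hy1 : y₁ = w • u := by rw [hu, smul_smul, mul_inv_cancel₀ hw.ne', one_smul]
  obtain ⟨e', θ, he', hee, hθ0, hθ1, hθ⟩ := plane hn hen hun
  have hnorm : ∀ a b : ℝ, ‖a • e + b • e'‖ ^ 2 = a ^ 2 + b ^ 2 := by
    intro a b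
    rw [norm_add_sq_real, norm_smul, norm_smul, hen, he', inner_smul_left, inner_smul_right, hee,
      Real.norm_eq_abs, Real.norm_eq_abs]
    simp
  refine ⟨fun t => w • (Real.cos t • e + Real.sin t • e'), θ, hθ0, hθ1, ?_, ?_, ?_, ?_⟩
  · simp [hy0]
  · simp only []
    rw [← hθ, hy1]
  · intro t
    have h2 : ‖Real.cos t • e + Real.sin t • e'‖ = 1 := by
      have := hnorm (Real.cos t) (Real.sin t)
      rw [Real.cos_sq_add_sin_sq] at this
      have h3 : 0 ≤ ‖Real.cos t • e + Real.sin t • e'‖ := norm_nonneg _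
      nlinarith
    rw [norm_smul, h2, Real.norm_eq_abs, abs_of_pos hw, mul_one]
  · intro s t
    rw [dist_eq_norm, ← smul_sub, norm_smul, Real.norm_eq_abs, abs_of_pos hw]
    refine mul_le_mul_of_nonneg_left ?_ hw.le
    have e1 : Real.cos s • e + Real.sin s • e' - (Real.cos t • e + Real.sin t • e') =
        (Real.cos s - Real.cos t) • e + (Real.sin s - Real.sin t) • e' := by
      rw [sub_smul, sub_smul]; abel
    rw [e1]
    refine abs_le_of_sq_le_sq' ?_ (abs_nonneg _) |>.2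
    rw [hnorm, sq_abs]
    have h4 := Real.one_sub_sq_div_two_le_cos (x := s - t)
    rw [Real.cos_sub] at h4
    nlinarith [Real.cos_sq_add_sin_sq s, Real.cos_sq_add_sin_sq t]

end Pool.Agent.Lib.MP_591455_an.Levels

namespace Pool.Agent.Lib.MP_591455_an

open Levels

theorem levels {n : ℕ} (hn : 2 ≤ n) {k : ℝ} (hk : 1 ≤ k) {f : E n → E n} (hf : QCE n k f)
    (hf0 : f 0 = 0) {a b : E n} (ha : ‖a‖ = 1) (hb : ‖b‖ = 1) {w : ℝ} (h1 : ‖f a‖ < w)
    (h2 : w < ‖f b‖) :
    ENNReal.ofReal (ek k) ^ n * Om n ≤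
      volume {x : E n | x ∈ ball (0 : E n) 2 ∧ 3 / 4 * w < ‖f x‖ ∧ ‖f x‖ < 5 / 4 * w} := by
  by_contra hcon
  push Not at hcon
  have hw : 0 < w := lt_of_le_of_lt (norm_nonneg _) h1
  have hfc : Continuous f := hf.emb.continuous
  have hinj : Function.Injective f := hf.emb.injective
  have hA1 : 1 ≤ Ak k := by
    unfold Ak
    exact Real.one_le_exp (by positivity)
  have hk0 : 0 < k := by linarith
  have hek : 0 < ek k := by
    unfold ek
    positivity
  have hek2 : 9 * Ak k * k * ek k = 9 / 500 := by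
    unfold ek
    field_simp
  have hek3 : ek k ≤ 1 / 500 := by
    unfold ek
    apply one_div_le_one_div_of_le (by norm_num)
    nlinarith
  -- the base point
  obtain ⟨x₀, hx₀, hfx₀⟩ : ∃ x₀ : E n, ‖x₀‖ ≤ 1 ∧ ‖f x₀‖ = w := by
    have hcont : ContinuousOn (fun t : ℝ => ‖f (t • b)‖) (Icc (0 : ℝ) 1) := by
      apply Continuous.continuousOn
      fun_prop
    have hivt := intermediate_value_Icc (zero_le_one' ℝ) hcont
    have hmem : w ∈ Icc ‖f ((0 : ℝ) • b)‖ ‖f ((1 : ℝ) • b)‖ := by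
      rw [zero_smul, one_smul, hf0, norm_zero]
      exact ⟨hw.le, h2.le⟩
    obtain ⟨t, ht, htw⟩ := hivt hmem
    refine ⟨t • b, ?_, htw⟩
    rw [norm_smul, hb, mul_one, Real.norm_eq_abs, abs_of_nonneg ht.1]
    exact ht.2
  set ψ : E n → ℝ := Function.extend f (fun x => min (dist x x₀) (1 / 2)) (fun _ => 1 / 2) with hψ
  have hψf : ∀ x, ψ (f x) = min (dist x x₀) (1 / 2) := fun x => hinj.extend_apply _ _ x
  have hψ0 : ψ (f x₀) = 0 := by
    rw [hψf, dist_self]
    norm_num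
  by_cases hcase : ∀ y : E n, ‖y‖ = w → ψ y < 1 / 2
  · -- the image sphere is small: f would be bounded
    have hne : ∀ x ∈ (ball x₀ (1 / 2))ᶜ, ‖f x‖ ≠ w := by
      intro x hx hxw
      have h3 := hcase (f x) hxw
      rw [hψf] at h3
      rw [mem_compl_iff, mem_ball, not_lt] at hx
      rw [min_eq_right hx] at h3
      exact lt_irrefl _ h3
    have hpt : ∃ x ∈ (ball x₀ (1 / 2))ᶜ, ‖f x‖ < w := by
      by_cases h0m : (0 : E n) ∈ ball x₀ (1 / 2)
      · refine ⟨a, ?_, h1⟩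
        intro ham
        rw [mem_ball] at h0m ham
        have h3 : dist a 0 ≤ dist a x₀ + dist 0 x₀ := by
          rw [dist_comm 0 x₀]
          exact dist_triangle _ _ _
        rw [dist_zero_right, ha] at h3
        linarith
      · exact ⟨0, h0m, by rw [hf0, norm_zero]; exact hw⟩
    have hall : ∀ x ∈ (ball x₀ (1 / 2))ᶜ, ‖f x‖ < w := by
      intro x hx
      by_contra hxw
      push Not at hxw
      obtain ⟨z, hz, hzw⟩ := hpt
      have hpc := (preconn_compl hn x₀ (r := 1 / 2) (by norm_num)).intermediate_value hz hx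
        (f := fun x => ‖f x‖) hfc.norm.continuousOn
      obtain ⟨q, hq, hqw⟩ := hpc ⟨hzw.le, hxw⟩
      exact hne q hq hqw
    obtain ⟨M, hM⟩ := (isCompact_closedBall x₀ (1 / 2)).exists_bound_of_continuousOn
      (f := f) hfc.continuousOn
    obtain ⟨x, hx⟩ := unbounded hn hk hf (max M w)
    by_cases hxb : x ∈ ball x₀ (1 / 2)
    · have h3 := hM x (ball_subset_closedBall hxb)
      exact absurd (h3.trans (le_max_left M w)) (not_le.mpr hx)
    · have h3 := hall x hxb
      exact absurd (h3.le.trans (le_max_right M w)) (not_le.mpr hx)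
  · -- chain along a great circle
    push Not at hcase
    obtain ⟨y₁, hy₁, hψ1⟩ := hcase
    obtain ⟨γ, θ, hθ0, hθ1, hγ0, hγ1, hγn, hγd⟩ := circle hn hw hfx₀ hy₁
    have hsmall : ∀ p : E n, ‖p‖ = w →
        volume (f ⁻¹' ball p (2 * (w / 8)) ∩ ball x₀ (1 / 2 + 9 * ek k)) ≤
          ENNReal.ofReal (ek k) ^ n * Om n := by
      intro p hp
      refine (measure_mono ?_).trans hcon.le
      rintro x ⟨hx1, hx2⟩
      rw [mem_preimage, mem_ball, dist_eq_norm] at hx1
      rw [mem_ball] at hx2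
      have h3 : ‖f x‖ ≤ ‖f x - p‖ + ‖p‖ := by
        calc ‖f x‖ = ‖(f x - p) + p‖ := by rw [sub_add_cancel]
          _ ≤ _ := norm_add_le _ _
      have h4 : ‖p‖ ≤ ‖f x - p‖ + ‖f x‖ := by
        calc ‖p‖ = ‖f x - (f x - p)‖ := by rw [sub_sub_cancel]
          _ ≤ ‖f x‖ + ‖f x - p‖ := norm_sub_le _ _
          _ = _ := add_comm _ _
      refine ⟨?_, ?_, ?_⟩
      · rw [mem_ball_zero_iff]
        have h5 : ‖x‖ ≤ dist x x₀ + ‖x₀‖ := by
          rw [dist_eq_norm]
          calc ‖x‖ = ‖(x - x₀) + x₀‖ := by rw [sub_add_cancel]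
            _ ≤ _ := norm_add_le _ _
        linarith
      · rw [hp] at h3 h4
        linarith
      · rw [hp] at h3 h4
        linarith
    have hstep : ∀ i : ℕ, |ψ (γ (θ * (i + 1 : ℕ) / 26)) - ψ (γ (θ * i / 26))| ≤ 9 / 500 := by
      intro i
      have hd : dist (γ (θ * (i + 1 : ℕ) / 26)) (γ (θ * i / 26)) ≤ w / 8 := by
        refine (hγd _ _).trans ?_
        have e1 : θ * ((i + 1 : ℕ) : ℝ) / 26 - θ * i / 26 = θ / 26 := by
          push_cast
          ring
        rw [e1, abs_of_nonneg (by positivity)]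
        have hpi := Real.pi_lt_d2
        nlinarith
      have h3 := disp hn hk hf (x₀ := x₀) (w := w / 8) (c := 1 / 2) (r₀ := ek k) (by positivity)
        (by norm_num) hek (hsmall _ (hγn _)) (hsmall _ (hγn _)) hd
      rw [hek2, Real.dist_eq] at h3
      exact h3
    have hsum : ∀ i : ℕ, ψ (γ (θ * i / 26)) ≤ i * (9 / 500) := by
      intro i
      induction i with
      | zero => simp [hγ0, hψ0]
      | succ i ih =>
        have h3 := (abs_le.mp (hstep i)).2
        have h4 : ((i + 1 : ℕ) : ℝ) * (9 / 500) = i * (9 / 500) + 9 / 500 := by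
          push_cast
          ring
        rw [h4]
        linarith
    have h26 := hsum 26
    have e26 : θ * ((26 : ℕ) : ℝ) / 26 = θ := by
      push_cast
      ring
    rw [e26, hγ1] at h26
    norm_num at h26
    linarith

end Pool.Agent.Lib.MP_591455_an
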