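import Pool.Agent.Lib.MP_591455_an.Defs
import Pool.Agent.Lib.MP_591455_an.Cut
import Pool.Agent.Lib.MP_591455_an.EnergyF
import Pool.Agent.Lib.MP_591455_an.Transl
import Pool.Agent.Lib.MP_591455_an.Levels

/-!
MP_591455_an, module Final: the distortion estimate for quasiconformal open embeddings.
-/

open MeasureTheory Set Metric Filter Topology
open scoped ENNReal NNReal

namespace Pool.Agent.Lib.MP_591455_an.Final

/-- volume of a ball in terms of Om -/
theorem vol_ball {n : ℕ} (hn : 1 ≤ n) (x : E n) {r : ℝ} (hr : 0 ≤ r) :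
    volume (ball x r) = ENNReal.ofReal r ^ n * Om n := by
  have : Nonempty (Fin n) := ⟨⟨0, hn⟩⟩
  rw [Measure.addHaar_ball _ _ hr, finrank_euclideanSpace_fin, ENNReal.ofReal_pow hr]
  rfl

theorem Om_pos (n : ℕ) : 0 < Om n := measure_ball_pos _ _ one_pos

theorem Om_lt_top (n : ℕ) : Om n < ∞ := measure_ball_lt_top

/-- averaging over translations -/
theorem exists_translation {n : ℕ} (hn : 1 ≤ n) {A B : Set (E n)} (hA : MeasurableSet A)
    (hB : MeasurableSet B) (hA2 : A ⊆ ball (0 : E n) 2) (hB2 : B ⊆ ball (0 : E n) 2)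
    {e : ℝ} (he : 0 < e) (h1 : ENNReal.ofReal e ^ n * Om n ≤ volume A)
    (h2 : ENNReal.ofReal e ^ n * Om n ≤ volume B) :
    ∃ v ∈ ball (0 : E n) 4, ENNReal.ofReal (e ^ 2 / 4) ^ n * Om n ≤
      volume (A ∩ (fun a : E n => a + v) ⁻¹' B) := by
  have hmeas : Measurable (fun p : E n × E n => p.2 + p.1) := by fun_prop
  have hprod : MeasurableSet {p : E n × E n | p.2 ∈ A ∧ p.2 + p.1 ∈ B} :=
    (measurable_snd hA).inter (hmeas hB)
  -- the integral
  have hint : ∫⁻ v : E n, volume (A ∩ (fun a : E n => a + v) ⁻¹' B) = volume A * volume B := by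
    have e1 : ∀ v : E n, volume (A ∩ (fun a : E n => a + v) ⁻¹' B) =
        ∫⁻ a : E n, ({p : E n × E n | p.2 ∈ A ∧ p.2 + p.1 ∈ B}.indicator
          (fun _ => (1 : ℝ≥0∞))) (v, a) := by
      intro v
      have hm : MeasurableSet (A ∩ (fun a : E n => a + v) ⁻¹' B) :=
        hA.inter ((measurable_id.add_const v) hB)
      rw [← lintegral_indicator_one hm]
      rfl
    simp_rw [e1]
    rw [lintegral_lintegral_swap]
    · have e2 : ∀ a : E n, ∫⁻ v : E n, ({p : E n × E n | p.2 ∈ A ∧ p.2 + p.1 ∈ B}.indicator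
          (fun _ => (1 : ℝ≥0∞))) (v, a) = A.indicator (fun _ => volume B) a := by
        intro a
        by_cases ha : a ∈ A
        · rw [indicator_of_mem ha]
          have : ∀ v : E n, ({p : E n × E n | p.2 ∈ A ∧ p.2 + p.1 ∈ B}.indicator
              (fun _ => (1 : ℝ≥0∞))) (v, a) = ((fun v => a + v) ⁻¹' B).indicator 1 v := by
            intro v
            by_cases hv : a + v ∈ B
            · rw [indicator_of_mem (show v ∈ (fun v => a + v) ⁻¹' B from hv),
                indicator_of_mem (show (v, a) ∈ {p : E n × E n | p.2 ∈ A ∧ p.2 + p.1 ∈ B} from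
                  ⟨ha, hv⟩)]
              rfl
            · rw [indicator_of_notMem (show v ∉ (fun v => a + v) ⁻¹' B from hv),
                indicator_of_notMem (show (v, a) ∉ {p : E n × E n | p.2 ∈ A ∧ p.2 + p.1 ∈ B} from
                  fun h => hv h.2)]
          simp_rw [this]
          have hm : MeasurableSet ((fun v : E n => a + v) ⁻¹' B) :=
            (measurable_id.const_add a) hB
          rw [lintegral_indicator_one hm, measure_preimage_add]
        · rw [indicator_of_notMem ha]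
          have : ∀ v : E n, ({p : E n × E n | p.2 ∈ A ∧ p.2 + p.1 ∈ B}.indicator
              (fun _ => (1 : ℝ≥0∞))) (v, a) = 0 := by
            intro v
            simp only [indicator, mem_ofPred_eq, ha, false_and, if_false]
          simp_rw [this]
          simp
      simp_rw [e2]
      rw [lintegral_indicator hA, setLIntegral_const, mul_comm]
    · exact (measurable_const.indicator hprod).aemeasurable
  have hsupp : ∀ v : E n, v ∉ ball (0 : E n) 4 →
      volume (A ∩ (fun a : E n => a + v) ⁻¹' B) = 0 := by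
    intro v hv
    have : A ∩ (fun a : E n => a + v) ⁻¹' B = ∅ := by
      ext a
      simp only [mem_inter_iff, mem_preimage, mem_empty_iff_false, iff_false, not_and]
      intro ha hb
      apply hv
      have h1 := hA2 ha
      have h2 := hB2 hb
      rw [mem_ball_zero_iff] at h1 h2 ⊢
      have : v = (a + v) - a := by abel
      rw [this]
      calc ‖a + v - a‖ ≤ ‖a + v‖ + ‖a‖ := norm_sub_le _ _
        _ < 4 := by linarith
    rw [this, measure_empty]
  have hset : ∫⁻ v in ball (0 : E n) 4, volume (A ∩ (fun a : E n => a + v) ⁻¹' B) =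
      volume A * volume B := by
    rw [← hint, ← lintegral_indicator measurableSet_ball]
    congr 1
    ext v
    by_cases hv : v ∈ ball (0 : E n) 4
    · rw [indicator_of_mem hv]
    · rw [indicator_of_notMem hv, hsupp v hv]
  have hAtop : volume A ≠ ∞ := ((measure_mono hA2).trans_lt measure_ball_lt_top).ne
  have hBtop : volume B ≠ ∞ := ((measure_mono hB2).trans_lt measure_ball_lt_top).ne
  obtain ⟨v, hv, hle⟩ := exists_setLAverage_le (μ := (volume : Measure (E n)))
    (s := ball (0 : E n) 4) (f := fun v => volume (A ∩ (fun a : E n => a + v) ⁻¹' B))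
    (measure_ball_pos _ _ (by norm_num)).ne' measurableSet_ball.nullMeasurableSet
    (by rw [hset]; exact ENNReal.mul_ne_top hAtop hBtop)
  refine ⟨v, hv, le_trans ?_ hle⟩
  rw [setLAverage_eq, hset, vol_ball hn _ (by norm_num : (0 : ℝ) ≤ 4)]
  have hO0 : Om n ≠ 0 := (Om_pos n).ne'
  have hOt : Om n ≠ ∞ := (Om_lt_top n).ne
  have h4 : ENNReal.ofReal 4 ^ n ≠ 0 := by
    apply pow_ne_zero; simp
  have h4t : ENNReal.ofReal 4 ^ n ≠ ∞ := ENNReal.pow_ne_top ENNReal.ofReal_ne_top
  rw [ENNReal.le_div_iff_mul_le (Or.inl (mul_ne_zero h4 hO0))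
    (Or.inl (ENNReal.mul_ne_top h4t hOt))]
  calc ENNReal.ofReal (e ^ 2 / 4) ^ n * Om n * (ENNReal.ofReal 4 ^ n * Om n)
      = (ENNReal.ofReal e ^ n * Om n) * (ENNReal.ofReal e ^ n * Om n) := by
        have : ENNReal.ofReal (e ^ 2 / 4) * ENNReal.ofReal 4 =
            ENNReal.ofReal e * ENNReal.ofReal e := by
          rw [← ENNReal.ofReal_mul (by positivity), ← ENNReal.ofReal_mul he.le]
          congr 1; ring
        calc ENNReal.ofReal (e ^ 2 / 4) ^ n * Om n * (ENNReal.ofReal 4 ^ n * Om n)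
            = (ENNReal.ofReal (e ^ 2 / 4) * ENNReal.ofReal 4) ^ n * (Om n * Om n) := by
              rw [mul_pow]; ring
          _ = _ := by rw [this, mul_pow]; ring
    _ ≤ volume A * volume B := mul_le_mul' h1 h2

theorem ek_pos {k : ℝ} (hk : 1 ≤ k) : 0 < ek k := by
  unfold ek Ak
  positivity

theorem ek_le_one {k : ℝ} (hk : 1 ≤ k) : ek k ≤ 1 := by
  unfold ek
  rw [div_le_one (by unfold Ak; positivity)]
  have : 1 ≤ Ak k := by
    unfold Ak
    exact Real.one_le_exp (by positivity)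
  nlinarith

/-- The key bound on the logarithmic gap. -/
theorem key {n : ℕ} (hn : 2 ≤ n) {k : ℝ} (hk : 1 ≤ k) {f : E n → E n} (hf : QCE n k f)
    (hf0 : f 0 = 0) {a b : E n} (ha : ‖a‖ = 1) (hb : ‖b‖ = 1) {w₁ w₂ : ℝ} (h1 : ‖f a‖ < w₁)
    (h12 : w₁ < w₂) (h2 : w₂ < ‖f b‖) (hlog : 1 ≤ Real.log (3 / 4 * w₂ / (5 / 4 * w₁))) :
    Real.log (3 / 4 * w₂ / (5 / 4 * w₁)) ≤ (24 * k / ek k ^ 2) ^ 2 := by
  have he := ek_pos hk
  have hw1 : 0 < w₁ := lt_of_le_of_lt (norm_nonneg _) h1
  have hw2 : 0 < w₂ := hw1.trans h12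
  set A₁ : Set (E n) := {x : E n | x ∈ ball (0 : E n) 2 ∧ 3 / 4 * w₁ < ‖f x‖ ∧ ‖f x‖ < 5 / 4 * w₁}
    with hA1
  set A₂ : Set (E n) := {x : E n | x ∈ ball (0 : E n) 2 ∧ 3 / 4 * w₂ < ‖f x‖ ∧ ‖f x‖ < 5 / 4 * w₂}
    with hA2
  have v1 : ENNReal.ofReal (ek k) ^ n * Om n ≤ volume A₁ :=
    levels hn hk hf hf0 ha hb h1 (h12.trans h2)
  have v2 : ENNReal.ofReal (ek k) ^ n * Om n ≤ volume A₂ :=
    levels hn hk hf hf0 ha hb (h1.trans h12) h2
  have hfc : Continuous f := hf.emb.continuous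
  have hop : ∀ w : ℝ, IsOpen {x : E n | x ∈ ball (0 : E n) 2 ∧ 3 / 4 * w < ‖f x‖ ∧
      ‖f x‖ < 5 / 4 * w} := by
    intro w
    exact isOpen_ball.inter ((isOpen_lt continuous_const hfc.norm).inter
      (isOpen_lt hfc.norm continuous_const))
  obtain ⟨v, hv, hvol⟩ := exists_translation (by omega : 1 ≤ n) (hop w₁).measurableSet
    (hop w₂).measurableSet (fun x hx => hx.1) (fun x hx => hx.1) he v1 v2
  set A : Set (E n) := A₁ ∩ (fun a : E n => a + v) ⁻¹' A₂ with hAdef
  have hAm : MeasurableSet A :=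
    (hop w₁).measurableSet.inter ((measurable_id.add_const v) (hop w₂).measurableSet)
  have hAf : volume A ≠ ∞ :=
    ((measure_mono (fun x hx => hx.1.1 : A ⊆ ball (0 : E n) 2)).trans_lt measure_ball_lt_top).ne
  have hst : 5 / 4 * w₁ < 3 / 4 * w₂ := by
    by_contra hcon
    push Not at hcon
    have : 3 / 4 * w₂ / (5 / 4 * w₁) ≤ 1 := by
      rw [div_le_one (by positivity)]; exact hcon
    have := Real.log_nonpos (by positivity) this
    linarith
  obtain ⟨F, ρ, L, hFL, hρm, hρL, hpl, -, hF1, hF0, hen⟩ :=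
    logcut hn (0 : E n) (s := 5 / 4 * w₁) (t := 3 / 4 * w₂) (by positivity) hst hlog
  obtain ⟨τ, hnice, hτ⟩ := nice_f hn hk hf hFL hρm hρL hpl
  set Λ := Real.log (3 / 4 * w₂ / (5 / 4 * w₁)) with hΛ
  have hΛ0 : 0 < Real.sqrt Λ := Real.sqrt_pos.mpr (by linarith)
  have hE : ∫⁻ x in (univ : Set (E n)), τ x ^ n ≤
      ENNReal.ofReal (k * (3 / 2 / Real.sqrt Λ)) ^ n * Om n := by
    have := hτ univ MeasurableSet.univ
    rw [preimage_univ] at this
    refine this.trans ?_
    rw [setLIntegral_univ, ENNReal.ofReal_mul (by linarith), mul_pow, mul_assoc]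
    gcongr
  have hG : 0 ≤ k * (3 / 2 / Real.sqrt Λ) := by positivity
  have hr : 0 < ek k ^ 2 / 4 := by positivity
  have htr := transl (by omega : 1 ≤ n) hnice hAm hAf MeasurableSet.univ v
    (fun a _ t _ => mem_univ _) hG hr hE hvol
  have hone : ∫⁻ a in A, edist ((F ∘ f) (a + v)) ((F ∘ f) a) = volume A := by
    have : ∀ a ∈ A, edist ((F ∘ f) (a + v)) ((F ∘ f) a) = 1 := by
      intro a ha
      have h1 : F (f a) = 1 := by
        apply hF1
        rw [dist_zero_right]
        exact ha.1.2.2.le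
      have h2 : F (f (a + v)) = 0 := by
        apply hF0
        rw [dist_zero_right]
        exact ha.2.2.1.le
      simp only [Function.comp_apply, h1, h2]
      rw [edist_dist]
      simp
    rw [setLIntegral_congr_fun hAm this]
    simp
  rw [hone] at htr
  have hApos : 0 < volume A := by
    refine lt_of_lt_of_le ?_ hvol
    apply ENNReal.mul_pos
    · apply pow_ne_zero
      simp only [ne_eq, ENNReal.ofReal_eq_zero, not_le]
      exact hr
    · exact (Om_pos n).ne'
  have h1le : 1 ≤ ENNReal.ofReal (‖v‖ * (k * (3 / 2 / Real.sqrt Λ)) / (ek k ^ 2 / 4)) := by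
    by_contra hcon
    push Not at hcon
    have := ENNReal.mul_lt_mul_left hApos.ne' hAf hcon
    rw [one_mul] at this
    exact absurd htr (not_le.mpr this)
  have h1r : 1 ≤ ‖v‖ * (k * (3 / 2 / Real.sqrt Λ)) / (ek k ^ 2 / 4) := by
    rw [← ENNReal.ofReal_one] at h1le
    rw [ENNReal.ofReal_le_ofReal_iff'] at h1le
    rcases h1le with h | h
    · exact h
    · linarith
  have hvn : ‖v‖ < 4 := by simpa using hv
  have hsq : Real.sqrt Λ ≤ 24 * k / ek k ^ 2 := by
    rw [le_div_iff₀ (by positivity)]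
    rw [le_div_iff₀ hr] at h1r
    have : ‖v‖ * (k * (3 / 2 / Real.sqrt Λ)) ≤ 4 * (k * (3 / 2 / Real.sqrt Λ)) := by
      gcongr
    have h3 : ek k ^ 2 ≤ 24 * k / Real.sqrt Λ := by
      calc ek k ^ 2 ≤ 4 * (4 * (k * (3 / 2 / Real.sqrt Λ))) := by linarith
        _ = 24 * k / Real.sqrt Λ := by ring
    rw [le_div_iff₀ hΛ0] at h3
    linarith
  calc Λ = Real.sqrt Λ ^ 2 := (Real.sq_sqrt (by linarith)).symm
    _ ≤ _ := by gcongr

end Pool.Agent.Lib.MP_591455_an.Final

namespace Pool.Agent.Lib.MP_591455_an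

theorem distortion {n : ℕ} (hn : 2 ≤ n) {k : ℝ} (hk : 1 ≤ k) {f : E n → E n} (hf : QCE n k f)
    (hf0 : f 0 = 0) {a b : E n} (ha : ‖a‖ = 1) (hb : ‖b‖ = 1) :
    ‖f b‖ ≤ 5 / 3 * Real.exp ((24 * k / ek k ^ 2) ^ 2) * ‖f a‖ := by
  by_contra hcon
  push Not at hcon
  set K := (24 * k / ek k ^ 2) ^ 2 with hK
  have he := Final.ek_pos hk
  have he1 := Final.ek_le_one hk
  have hK1 : 1 ≤ K := by
    have : 1 ≤ 24 * k / ek k ^ 2 := by
      rw [le_div_iff₀ (by positivity)]
      nlinarith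
    rw [hK]
    exact one_le_pow₀ this
  have hexp : 1 ≤ Real.exp K := Real.one_le_exp (by linarith)
  set C := 5 / 3 * Real.exp K with hC
  have hC1 : 1 < C := by rw [hC]; linarith
  have ha0 : 0 < ‖f a‖ := by
    rw [norm_pos_iff]
    intro h
    have : a = 0 := hf.emb.injective (by rw [h, hf0])
    rw [this, norm_zero] at ha
    exact zero_ne_one ha
  -- choose the two levels
  obtain ⟨w₁, h1, h1'⟩ : ∃ w, ‖f a‖ < w ∧ w < ‖f b‖ / C := by
    apply exists_between
    rw [lt_div_iff₀ (by linarith)]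
    linarith
  have hw1 : 0 < w₁ := ha0.trans h1
  rw [lt_div_iff₀ (by linarith)] at h1'
  obtain ⟨w₂, h2, h2'⟩ := exists_between h1'
  have h12 : w₁ < w₂ := by nlinarith
  have hlt : Real.exp K < 3 / 4 * w₂ / (5 / 4 * w₁) := by
    rw [lt_div_iff₀ (by positivity)]
    have : w₁ * (5 / 3 * Real.exp K) < w₂ := by rw [← hC]; exact h2
    nlinarith
  have hlog : K < Real.log (3 / 4 * w₂ / (5 / 4 * w₁)) := by
    rw [Real.lt_log_iff_exp_lt (lt_trans (Real.exp_pos _) hlt)]
    exact hlt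
  have := Final.key hn hk hf hf0 ha hb h1 h12 h2' (by linarith)
  linarith

end Pool.Agent.Lib.MP_591455_an
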