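import Pool.Agent.Lib.MP_591455_an.Brouwer

open MeasureTheory Set Metric Filter Topology
open scoped ENNReal NNReal

namespace Pool.Agent.Lib.MP_591455_an

namespace InvDomAux

/-- continuous left inverse on the whole space -/
lemma exists_leftInv {n : ℕ} {f : E n → E n} (hc : ContinuousOn f (closedBall (0 : E n) 1))
    (hi : InjOn f (closedBall (0 : E n) 1)) :
    ∃ G : E n → E n, Continuous G ∧ ∀ x ∈ closedBall (0 : E n) 1, G (f x) = x := by
  have : CompactSpace (closedBall (0 : E n) 1) := isCompact_iff_compactSpace.1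
    (isCompact_closedBall 0 1)
  have hcl : IsClosedEmbedding ((closedBall (0 : E n) 1).domRestrict f) :=
    (continuousOn_iff_continuous_domRestrict.1 hc).isClosedEmbedding (injOn_iff_injective.1 hi)
  obtain ⟨G, hG⟩ := ContinuousMap.exists_extension' hcl
    (⟨Subtype.val, continuous_subtype_val⟩ : C(closedBall (0 : E n) 1, E n))
  refine ⟨G, G.continuous, fun x hx => ?_⟩
  exact congrFun hG ⟨x, hx⟩

/-- a map close to the left inverse has a zero -/
lemma stability {n : ℕ} (hn : 1 ≤ n) {f G G' : E n → E n}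
    (hc : ContinuousOn f (closedBall (0 : E n) 1))
    (hG : ∀ x ∈ closedBall (0 : E n) 1, G (f x) = x)
    (hG' : ContinuousOn G' (f '' closedBall (0 : E n) 1))
    (hd : ∀ y ∈ f '' closedBall (0 : E n) 1, ‖G y - G' y‖ ≤ 1) :
    ∃ y ∈ f '' closedBall (0 : E n) 1, G' y = 0 := by
  obtain ⟨x, hx, hfx⟩ := brouwer hn (F := fun x => x - G' (f x))
    (continuousOn_id.sub (hG'.comp hc (mapsTo_image f _))) (by
      intro x hx
      have h1 := hd (f x) (mem_image_of_mem f hx)
      rw [hG x hx] at h1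
      simpa [mem_closedBall, dist_zero_right] using h1)
  refine ⟨f x, mem_image_of_mem f hx, ?_⟩
  have h2 : x - G' (f x) = x := hfx
  simpa using h2

/-- the key local statement -/
lemma mem_interior {n : ℕ} (hn : 1 ≤ n) {f : E n → E n}
    (hc : ContinuousOn f (closedBall (0 : E n) 1)) (hi : InjOn f (closedBall (0 : E n) 1)) :
    f 0 ∈ interior (f '' closedBall (0 : E n) 1) := by
  by_contra hint
  have : Nonempty (Fin n) := ⟨⟨0, hn⟩⟩
  obtain ⟨G, hGc, hG⟩ := exists_leftInv hc hi
  set B : Set (E n) := f '' closedBall (0 : E n) 1 with hB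
  have h0 : (0 : E n) ∈ closedBall (0 : E n) 1 := by simp
  have hG0 : G (f 0) = 0 := hG 0 h0
  have hBc : IsCompact B := (isCompact_closedBall 0 1).image_of_continuousOn hc
  -- small radius
  obtain ⟨ε', hε', hGs⟩ : ∃ ε' : ℝ, 0 < ε' ∧ ∀ y, dist y (f 0) < ε' → ‖G y‖ < 1 / 10 := by
    have h1 := Metric.continuousAt_iff.1 (hGc.continuousAt (x := f 0)) (1 / 10) (by norm_num)
    obtain ⟨δ, hδ, h⟩ := h1
    refine ⟨δ, hδ, fun y hy => ?_⟩
    have := h hy
    rwa [hG0, dist_zero_right] at this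
  set ε : ℝ := ε' / 2 with hεd
  have hε : 0 < ε := by positivity
  -- a point outside the image
  obtain ⟨c, hcB, hcd⟩ : ∃ c, c ∉ B ∧ dist c (f 0) < ε := by
    by_contra hno
    push Not at hno
    apply hint
    rw [mem_interior_iff_mem_nhds, Metric.mem_nhds_iff]
    refine ⟨ε, hε, fun y hy => ?_⟩
    by_contra hyB
    exact absurd (hno y hyB) (not_le.2 hy)
  set S1 : Set (E n) := B ∩ {y | ε ≤ dist y c} with hS1
  have hS1c : IsCompact S1 := hBc.inter_right (isClosed_le continuous_const
    (continuous_id.dist continuous_const))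
  have hG1 : ∀ y ∈ S1, G y ≠ 0 := by
    rintro y ⟨⟨x, hx, rfl⟩, hy⟩ h
    rw [hG x hx] at h
    subst h
    rw [dist_comm] at hcd
    exact absurd hcd (not_lt.2 hy)
  obtain ⟨δ, hδ0, hδ1, hδ⟩ : ∃ δ : ℝ, 0 < δ ∧ δ ≤ 1 / 10 ∧ ∀ y ∈ S1, δ ≤ ‖G y‖ := by
    rcases S1.eq_empty_or_nonempty with he | hne
    · exact ⟨1 / 10, by norm_num, le_rfl, by simp [he]⟩
    · obtain ⟨y0, hy0, hmin⟩ := hS1c.exists_isMinOn hne (hGc.norm.continuousOn)
      refine ⟨min (1 / 10) ‖G y0‖, lt_min (by norm_num) (norm_pos_iff.2 (hG1 y0 hy0)),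
        min_le_left _ _, fun y hy => (min_le_right _ _).trans (hmin hy)⟩
  -- smooth approximation
  obtain ⟨P, hPs, hPG, -⟩ := hGc.exists_contDiff_approx (n := ⊤) (ε := fun _ => δ / 2)
    continuous_const (fun _ => by positivity)
  have hPd : Differentiable ℝ P := hPs.differentiable (by simp)
  have hnull : volume (P '' sphere c ε) = 0 :=
    addHaar_image_eq_zero_of_differentiableOn_of_addHaar_eq_zero volume hPd.differentiableOn
      (Measure.addHaar_sphere volume c ε)
  obtain ⟨c0, hc0, hc0P⟩ : ∃ c0, ‖c0‖ < δ / 2 ∧ c0 ∉ P '' sphere c ε := by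
    by_contra hno
    push Not at hno
    have hsub : ball (0 : E n) (δ / 2) ⊆ P '' sphere c ε := fun z hz =>
      hno z (by simpa [mem_ball, dist_zero_right] using hz)
    have h1 : volume (ball (0 : E n) (δ / 2)) = 0 := measure_mono_null hsub hnull
    have h2 := measure_ball_pos volume (0 : E n) (show 0 < δ / 2 by positivity)
    exact h2.ne' h1
  set P' : E n → E n := fun y => P y - c0 with hP'
  have hP'c : Continuous P' := hPd.continuous.sub continuous_const
  have hP'G : ∀ y, ‖G y - P' y‖ < δ := by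
    intro y
    have h1 := hPG y
    rw [dist_eq_norm] at h1
    calc ‖G y - P' y‖ = ‖c0 - (P y - G y)‖ := by
          congr 1
          simp only [hP']
          abel
      _ ≤ ‖c0‖ + ‖P y - G y‖ := norm_sub_le _ _
      _ < δ / 2 + δ / 2 := add_lt_add hc0 h1
      _ = δ := by ring
  have hP'1 : ∀ y ∈ S1, P' y ≠ 0 := by
    intro y hy h
    have h1 := hP'G y
    rw [h, sub_zero] at h1
    exact absurd (hδ y hy) (not_le.2 h1)
  have hP'2 : ∀ y, dist y c = ε → P' y ≠ 0 := by
    intro y hy h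
    apply hc0P
    refine ⟨y, hy, ?_⟩
    have : P y - c0 = 0 := h
    exact sub_eq_zero.1 this
  -- the radial map
  set Φ : E n → E n := fun y => c + max (ε / dist y c) 1 • (y - c) with hΦ
  have hdc : ∀ y ∈ B, 0 < dist y c := by
    intro y hy
    rw [dist_pos]
    rintro rfl
    exact hcB hy
  have hΦc : ContinuousOn Φ B := by
    have hm : ContinuousOn (fun y => max (ε / dist y c) 1) B :=
      ContinuousOn.sup (continuousOn_const.div (continuous_id.dist continuous_const).continuousOn
        (fun y hy => (hdc y hy).ne')) continuousOn_const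
    exact continuousOn_const.add
      (ContinuousOn.fun_smul hm (continuous_id.sub continuous_const).continuousOn)
  have hΦ1 : ∀ y ∈ B, ε ≤ dist y c → Φ y = y := by
    intro y hy h
    have h1 : ε / dist y c ≤ 1 := (div_le_one (hdc y hy)).2 h
    simp only [hΦ]
    rw [max_eq_right h1, one_smul]
    abel
  have hΦ2 : ∀ y ∈ B, dist y c < ε → dist (Φ y) c = ε := by
    intro y hy h
    have h1 : 1 ≤ ε / dist y c := (one_le_div (hdc y hy)).2 h.le
    simp only [hΦ]
    rw [max_eq_left h1, dist_eq_norm, add_sub_cancel_left, norm_smul, Real.norm_eq_abs,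
      abs_of_nonneg (zero_le_one.trans h1), ← dist_eq_norm, div_mul_cancel₀ _ (hdc y hy).ne']
  obtain ⟨y, hyB, hy0⟩ := stability hn hc hG (G' := P' ∘ Φ) (hP'c.comp_continuousOn hΦc) (by
    intro y hy
    by_cases h : ε ≤ dist y c
    · have h1 := hP'G y
      simp only [Function.comp_apply, hΦ1 y hy h]
      linarith
    · push Not at h
      have h1 : ‖G y‖ < 1 / 10 := hGs y (by
        calc dist y (f 0) ≤ dist y c + dist c (f 0) := dist_triangle _ _ _
          _ < ε + ε := add_lt_add h hcd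
          _ = ε' := by rw [hεd]; ring)
      have h2 : ‖G (Φ y)‖ < 1 / 10 := hGs _ (by
        calc dist (Φ y) (f 0) ≤ dist (Φ y) c + dist c (f 0) := dist_triangle _ _ _
          _ < ε + ε := by rw [hΦ2 y hy h]; linarith
          _ = ε' := by rw [hεd]; ring)
      have h3 := hP'G (Φ y)
      have h4 : ‖P' (Φ y)‖ ≤ ‖G (Φ y)‖ + ‖G (Φ y) - P' (Φ y)‖ := by
        calc ‖P' (Φ y)‖ = ‖G (Φ y) - (G (Φ y) - P' (Φ y))‖ := by congr 1; abel
          _ ≤ _ := norm_sub_le _ _
      calc ‖G y - (P' ∘ Φ) y‖ ≤ ‖G y‖ + ‖P' (Φ y)‖ := norm_sub_le _ _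
        _ ≤ 1 := by linarith)
  have hy0' : P' (Φ y) = 0 := hy0
  by_cases h : ε ≤ dist y c
  · rw [hΦ1 y hyB h] at hy0'
    exact hP'1 y ⟨hyB, h⟩ hy0'
  · push Not at h
    exact hP'2 _ (hΦ2 y hyB h) hy0'

end InvDomAux

open InvDomAux

theorem invariance_of_domain {n : ℕ} (hn : 1 ≤ n) {f : E n → E n} (hc : Continuous f)
    (hi : Function.Injective f) : IsOpenEmbedding f := by
  refine IsOpenEmbedding.of_continuous_injective_isOpenMap hc hi ?_
  rw [isOpenMap_iff_nhds_le]
  intro x
  rw [Filter.le_map_iff]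
  intro s hs
  obtain ⟨r, hr, hrs⟩ := Metric.nhds_basis_closedBall.mem_iff.1 hs
  have hcc : ContinuousOn (fun u : E n => f (x + r • u)) (closedBall (0 : E n) 1) := by
    fun_prop
  have hii : InjOn (fun u : E n => f (x + r • u)) (closedBall (0 : E n) 1) := by
    intro u _ v _ huv
    have h1 := hi huv
    have h2 : r • u = r • v := add_left_cancel h1
    exact smul_right_injective _ hr.ne' h2
  have h1 := mem_interior hn hcc hii
  simp only [smul_zero, add_zero] at h1
  rw [mem_interior_iff_mem_nhds] at h1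
  refine Filter.mem_of_superset h1 ?_
  rintro _ ⟨u, hu, rfl⟩
  refine ⟨x + r • u, hrs ?_, rfl⟩
  rw [mem_closedBall, dist_eq_norm, add_sub_cancel_left, norm_smul, Real.norm_eq_abs,
    abs_of_pos hr]
  rw [mem_closedBall, dist_zero_right] at hu
  nlinarith

end Pool.Agent.Lib.MP_591455_an
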