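import Pool.Agent.Lib.MP_591455_an.Defs

open MeasureTheory Set Metric Filter Topology
open scoped ENNReal NNReal

namespace Pool.Agent.Lib.MP_591455_an.Local

theorem nontriv {n : ℕ} (hn : 1 ≤ n) : Nontrivial (E n) := by
  have : NeZero n := ⟨by omega⟩
  have : Nonempty (Fin n) := ⟨0⟩
  infer_instance

end Pool.Agent.Lib.MP_591455_an.Local

namespace Pool.Agent.Lib.MP_591455_an

/-- the image of a ball contains a ball -/
theorem ball_subset_image {n : ℕ} (hn : 1 ≤ n) {f : E n → E n} (hf : IsOpenEmbedding f) {x : E n}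
    {s l : ℝ} (hs : 0 < s) (hl : ∀ ξ, dist ξ x = s → l ≤ dist (f ξ) (f x)) :
    ball (f x) l ⊆ f '' ball x s := by
  have _ := hn
  rcases le_or_gt l 0 with h0 | h0
  · rw [ball_eq_empty.2 h0]; exact empty_subset _
  have hC : IsClosed (f '' closedBall x s) :=
    ((isCompact_closedBall x s).image hf.continuous).isClosed
  have hO : IsOpen (f '' ball x s) := hf.isOpenMap _ isOpen_ball
  refine IsPreconnected.subset_left_of_subset_union hO hC.isOpen_compl ?_ ?_ ?_
    (convex_ball (f x) l).isPreconnected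
  · rw [Set.disjoint_compl_right_iff_subset]
    exact image_mono ball_subset_closedBall
  · intro y hy
    by_cases hyC : y ∈ f '' closedBall x s
    · left
      obtain ⟨ξ, hξ, rfl⟩ := hyC
      refine ⟨ξ, ?_, rfl⟩
      rcases (mem_closedBall.1 hξ).lt_or_eq with h | h
      · exact mem_ball.2 h
      · exact absurd (hl ξ h) (not_le.2 (mem_ball.1 hy))
    · right; exact hyC
  · exact ⟨f x, mem_ball_self h0, x, mem_ball_self hs, rfl⟩

/-- if the image of a sphere lies in a ball then so does the image of the ball -/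
theorem image_subset_closedBall {n : ℕ} (hn : 1 ≤ n) {f : E n → E n} (hf : IsOpenEmbedding f)
    {x y : E n} {s R : ℝ} (hs : 0 < s) (hR : ∀ ξ, dist ξ x = s → dist (f ξ) y ≤ R) :
    f '' closedBall x s ⊆ closedBall y R := by
  have hcomp : IsCompact (f '' closedBall x s) := (isCompact_closedBall x s).image hf.continuous
  have hne : (f '' closedBall x s).Nonempty := ⟨f x, x, mem_closedBall_self hs.le, rfl⟩
  obtain ⟨w, hw, hmax⟩ := hcomp.exists_isMaxOn hne (f := fun u => dist u y)
    (by fun_prop)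
  intro u hu
  rw [mem_closedBall]
  by_contra hlt
  rw [not_le] at hlt
  have hwR : R < dist w y := hlt.trans_le (hmax hu)
  obtain ⟨z', hz', rfl⟩ := hw
  have hz'b : z' ∈ ball x s := by
    rcases (mem_closedBall.1 hz').lt_or_eq with h | h
    · exact mem_ball.2 h
    · exact absurd (hR z' h) (not_le.2 hwR)
  have hO : IsOpen (f '' ball x s) := hf.isOpenMap _ isOpen_ball
  by_cases hwy : f z' = y
  · rw [hwy, dist_self] at hwR
    obtain ⟨e, he⟩ : ∃ e : E n, ‖e‖ = s := by
      have := Local.nontriv hn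
      exact _root_.exists_norm_eq (E n) hs.le
    have := hR (x + e) (by rw [dist_eq_norm, add_sub_cancel_left, he])
    have h2 := dist_nonneg (x := f (x + e)) (y := y)
    linarith
  · have hpos : 0 < dist (f z') y := dist_pos.2 hwy
    have hcont : Tendsto (fun t : ℝ => f z' + t • (f z' - y)) (𝓝[>] 0) (𝓝 (f z')) := by
      have h1 : Continuous (fun t : ℝ => f z' + t • (f z' - y)) := by fun_prop
      have h2 := h1.tendsto 0
      rw [zero_smul, add_zero] at h2
      exact h2.mono_left nhdsWithin_le_nhds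
    have hev := hcont.eventually (hO.mem_nhds ⟨z', hz'b, rfl⟩)
    obtain ⟨t, ht1, ht2⟩ := (hev.and self_mem_nhdsWithin).exists
    have ht0 : 0 < t := ht2
    have hin : f z' + t • (f z' - y) ∈ f '' closedBall x s :=
      image_mono ball_subset_closedBall ht1
    have h3 : dist (f z' + t • (f z' - y)) y ≤ dist (f z') y := hmax hin
    have h4 : dist (f z' + t • (f z' - y)) y = (1 + t) * dist (f z') y := by
      rw [dist_eq_norm, dist_eq_norm, show f z' + t • (f z' - y) - y = (1 + t) • (f z' - y) by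
        module, norm_smul, Real.norm_eq_abs, abs_of_pos (by linarith)]
    rw [h4] at h3
    nlinarith

theorem img_f {n : ℕ} (hn : 1 ≤ n) {f : E n → E n} (hf : IsOpenEmbedding f) {H : ℝ} (hH : 1 ≤ H)
    {x : E n} (hx : Qs f H x) :
    ∃ δ : ℝ, 0 < δ ∧ ∀ s : ℝ, 0 < s → s < δ → ∀ z : E n, dist z x ≤ s →
      edist (f z) (f x) ^ n * Om n ≤ ENNReal.ofReal H ^ n * volume (f '' closedBall x s) := by
  obtain ⟨δ, hδ, h⟩ := hx
  have hn0 : n ≠ 0 := by omega
  refine ⟨δ, hδ, fun s _ hsδ z hz => ?_⟩
  rcases (dist_nonneg (x := z) (y := x)).eq_or_lt with h0 | h0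
  · rw [eq_comm, dist_eq_zero] at h0
    rw [h0, edist_self, zero_pow hn0, zero_mul]
    exact zero_le
  have hHpos : 0 < H := by linarith
  set l : ℝ := dist (f z) (f x) / H with hl
  have hl0 : 0 ≤ l := div_nonneg dist_nonneg hHpos.le
  have hsub : ball (f x) l ⊆ f '' closedBall x s := by
    refine (ball_subset_image hn hf h0 (l := l) ?_).trans
      (image_mono (ball_subset_closedBall.trans (closedBall_subset_closedBall hz)))
    intro ξ hξ
    rw [hl, div_le_iff₀ hHpos, mul_comm]
    exact h z ξ (hz.trans_lt hsδ) hξ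
  have hvol := measure_mono (μ := volume) hsub
  have := Local.nontriv hn
  rw [Measure.addHaar_ball _ _ hl0, finrank_euclideanSpace_fin] at hvol
  have hed : edist (f z) (f x) = ENNReal.ofReal H * ENNReal.ofReal l := by
    rw [← ENNReal.ofReal_mul hHpos.le, hl, mul_div_cancel₀ _ hHpos.ne', edist_dist]
  rw [hed, mul_pow, mul_assoc]
  gcongr
  rw [ENNReal.ofReal_pow hl0] at hvol
  exact hvol

theorem img_g {n : ℕ} (hn : 1 ≤ n) {f : E n → E n} (hf : IsOpenEmbedding f) {H : ℝ} (hH : 1 ≤ H)
    {x : E n} (hx : Qs f H x) :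
    ∃ δ : ℝ, 0 < δ ∧ ∀ s : ℝ, 0 < s → s < δ → closedBall (f x) (H * s) ⊆ range f ∧
      ∀ z : E n, dist (f z) (f x) ≤ s →
        edist z x ^ n * Om n ≤ volume (f ⁻¹' closedBall (f x) (H * s)) := by
  obtain ⟨δ₀, hδ₀, h⟩ := hx
  have hn0 : n ≠ 0 := by omega
  have hHpos : 0 < H := by linarith
  have hO : IsOpen (f '' ball x δ₀) := hf.isOpenMap _ isOpen_ball
  obtain ⟨η, hη, hηsub⟩ := Metric.isOpen_iff.1 hO (f x) ⟨x, mem_ball_self hδ₀, rfl⟩
  refine ⟨η / H, div_pos hη hHpos, fun s hs hsδ => ?_⟩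
  have hHs : H * s < η := by
    rw [lt_div_iff₀ hHpos] at hsδ
    linarith
  have hsub : closedBall (f x) (H * s) ⊆ f '' ball x δ₀ :=
    (closedBall_subset_ball hHs).trans hηsub
  refine ⟨hsub.trans (image_subset_range _ _), fun z hz => ?_⟩
  rcases (dist_nonneg (x := z) (y := x)).eq_or_lt with h0 | h0
  · rw [eq_comm, dist_eq_zero] at h0
    rw [h0, edist_self, zero_pow hn0, zero_mul]
    exact zero_le
  have hzs : dist (f z) (f x) ≤ H * s := hz.trans (by nlinarith)
  have hzb : z ∈ ball x δ₀ := by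
    obtain ⟨z1, hz1, he⟩ := hsub (mem_closedBall.2 hzs)
    rw [← hf.injective he]
    exact hz1
  have him : f '' closedBall x (dist z x) ⊆ closedBall (f x) (H * s) := by
    refine image_subset_closedBall hn hf h0 ?_
    intro ξ hξ
    refine (h ξ z (by rw [hξ]; exact hzb) hξ.symm).trans ?_
    gcongr
  have hvol := measure_mono (μ := volume) (image_subset_iff.1 him)
  rw [Measure.addHaar_closedBall _ _ h0.le, finrank_euclideanSpace_fin,
    ENNReal.ofReal_pow h0.le, ← edist_dist] at hvol
  exact hvol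

end Pool.Agent.Lib.MP_591455_an
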