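import Pool.Agent.Lib.MP_591455_an.Defs

open MeasureTheory Set Metric Filter Topology
open scoped ENNReal NNReal

namespace Pool.Agent.Lib.MP_591455_an

namespace NoRetract

/-- A polynomial which agrees with t ↦ det (1 + t A). -/
theorem exists_poly {n : ℕ} (A : E n →L[ℝ] E n) :
    ∃ P : Polynomial ℝ, P.natDegree ≤ n ∧
      ∀ t : ℝ, P.eval t = (ContinuousLinearMap.id ℝ (E n) + t • A).det := by
  classical
  let b := (EuclideanSpace.basisFun (Fin n) ℝ).toBasis
  let M : Matrix (Fin n) (Fin n) ℝ := LinearMap.toMatrix b b (A : E n →ₗ[ℝ] E n)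
  refine ⟨((Polynomial.X : Polynomial ℝ) • M.map Polynomial.C
    + (1 : Matrix (Fin n) (Fin n) ℝ).map Polynomial.C).det, ?_, ?_⟩
  · simpa using Polynomial.natDegree_det_X_add_C_le M 1
  · intro t
    have h1 : Polynomial.eval t (((Polynomial.X : Polynomial ℝ) • M.map Polynomial.C
        + (1 : Matrix (Fin n) (Fin n) ℝ).map Polynomial.C).det) = (1 + t • M).det := by
      rw [← Polynomial.coe_evalRingHom, RingHom.map_det]
      congr 1
      ext i j
      by_cases hij : i = j
      · subst hij
        simp [add_comm]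
        ring
      · simp [hij]
        ring
    rw [h1]
    have h2 : (1 + t • M) = LinearMap.toMatrix b b
        ((ContinuousLinearMap.id ℝ (E n) + t • A : E n →L[ℝ] E n) : E n →ₗ[ℝ] E n) := by
      simp [M]
    rw [h2, LinearMap.det_toMatrix]

/-- Lagrange interpolation at the value 1. -/
theorem exists_weights (n : ℕ) {t0 : ℝ} (ht0 : 0 < t0) :
    ∃ (τ w : Fin (n + 1) → ℝ), (∀ i, 0 ≤ τ i ∧ τ i ≤ t0) ∧ ∑ i, w i = 1 ∧
      ∀ P : Polynomial ℝ, P.natDegree ≤ n → P.eval 1 = ∑ i, w i * P.eval (τ i) := by
  classical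
  let τ : Fin (n + 1) → ℝ := fun i => t0 * (i : ℝ) / (n + 1)
  have hinj : Function.Injective τ := by
    intro i j hij
    have h1 : (0 : ℝ) < n + 1 := by positivity
    simp only [τ] at hij
    have h2 : t0 * (i : ℝ) = t0 * (j : ℝ) := by
      field_simp at hij
      nlinarith [hij]
    have h3 : (i : ℝ) = (j : ℝ) := mul_left_cancel₀ ht0.ne' h2
    exact Fin.ext (by exact_mod_cast h3)
  have hinj' : Set.InjOn τ ((Finset.univ : Finset (Fin (n + 1))) : Set (Fin (n + 1))) :=
    hinj.injOn
  refine ⟨τ, fun i => (Lagrange.basis Finset.univ τ i).eval 1, ?_, ?_, ?_⟩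
  · intro i
    constructor
    · simp only [τ]; positivity
    · simp only [τ]
      rw [div_le_iff₀ (by positivity)]
      have : (i : ℝ) ≤ n + 1 := by
        have := i.2
        exact_mod_cast this.le
      nlinarith
  · have h := Lagrange.sum_basis hinj' Finset.univ_nonempty
    have h2 := congrArg (Polynomial.eval (1 : ℝ)) h
    simpa [Polynomial.eval_finsetSum] using h2
  · intro P hP
    have hdeg : P.degree < ((Finset.univ : Finset (Fin (n + 1))).card : WithBot ℕ) := by
      refine lt_of_le_of_lt Polynomial.degree_le_natDegree ?_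
      simp only [Finset.card_univ, Fintype.card_fin]
      exact_mod_cast Nat.lt_succ_of_le hP
    have h := Lagrange.eq_interpolate hinj' hdeg
    have h2 := congrArg (Polynomial.eval (1 : ℝ)) h
    rw [h2, Lagrange.interpolate_apply, Polynomial.eval_finsetSum]
    refine Finset.sum_congr rfl fun i _ => ?_
    simp [mul_comm]

/-- f is Lipschitz on the closed ball. -/
theorem exists_lip {n : ℕ} {f : E n → E n} {V : Set (E n)} (hV : IsOpen V)
    (hVs : closedBall (0 : E n) 1 ⊆ V) (hf : ContDiffOn ℝ 1 f V) :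
    ∃ L : ℝ, 0 < L ∧ (∀ x ∈ closedBall (0 : E n) 1, ‖fderiv ℝ f x - ContinuousLinearMap.id ℝ (E n)‖ ≤ L) ∧
      ∀ x ∈ closedBall (0 : E n) 1, ∀ y ∈ closedBall (0 : E n) 1,
        ‖(f x - x) - (f y - y)‖ ≤ L * ‖x - y‖ := by
  have hcont : ContinuousOn (fun x => fderiv ℝ f x - ContinuousLinearMap.id ℝ (E n))
      (closedBall (0 : E n) 1) :=
    ((hf.continuousOn_fderiv_of_isOpen hV le_rfl).mono hVs).sub continuousOn_const
  obtain ⟨L, hL⟩ := (isCompact_closedBall (0 : E n) 1).exists_bound_of_continuousOn hcont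
  refine ⟨max L 1, lt_of_lt_of_le one_pos (le_max_right _ _), fun x hx => (hL x hx).trans (le_max_left _ _), ?_⟩
  intro x hx y hy
  have hd : ∀ z ∈ closedBall (0 : E n) 1, HasFDerivWithinAt (fun z => f z - z)
      (fderiv ℝ f z - ContinuousLinearMap.id ℝ (E n)) (closedBall (0 : E n) 1) z := by
    intro z hz
    have h1 : DifferentiableAt ℝ f z :=
      (hf.differentiableOn one_ne_zero).differentiableAt (hV.mem_nhds (hVs hz))
    exact (h1.hasFDerivAt.sub (hasFDerivAt_id z)).hasFDerivWithinAt
  have := (convex_closedBall (0 : E n) 1).norm_image_sub_le_of_norm_hasFDerivWithin_le hd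
    (fun z hz => (hL z hz).trans (le_max_left L 1)) hy hx
  simpa using this

end NoRetract

open NoRetract in
set_option maxHeartbeats 4000000 in
theorem no_retract {n : ℕ} (hn : 1 ≤ n) {f : E n → E n} {V : Set (E n)} (hV : IsOpen V)
    (hVs : closedBall (0 : E n) 1 ⊆ V) (hf : ContDiffOn ℝ 1 f V)
    (h1 : ∀ x ∈ closedBall (0 : E n) 1, ‖f x‖ = 1) (h2 : ∀ x, ‖x‖ = 1 → f x = x) : False := by
  classical
  have : Nonempty (Fin n) := ⟨⟨0, hn⟩⟩
  have : Nontrivial (E n) := inferInstance
  obtain ⟨L, hL0, hLd, hLip⟩ := exists_lip hV hVs hf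
  set A : E n → (E n →L[ℝ] E n) := fun x => fderiv ℝ f x - ContinuousLinearMap.id ℝ (E n) with hA
  have hballV : ball (0 : E n) 1 ⊆ V := ball_subset_closedBall.trans hVs
  -- the homotopy
  let F : ℝ → E n → E n := fun t x => x + t • (f x - x)
  let t0 : ℝ := 1 / (2 * (L + 1))
  have ht0 : 0 < t0 := by positivity
  have ht0' : ∀ t, t ≤ t0 → t * L < 1 := by
    intro t ht
    have : t * L ≤ t0 * L := mul_le_mul_of_nonneg_right ht hL0.le
    have h3 : t0 * L < 1 := by
      simp only [t0]
      rw [one_div_mul_eq_div, div_lt_one (by positivity)]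
      nlinarith
    linarith
  have ht01 : ∀ t, t ≤ t0 → t < 1 := by
    intro t ht
    have : t0 < 1 := by
      simp only [t0]
      rw [div_lt_one (by positivity)]
      nlinarith
    linarith
  -- injectivity
  have hinj : ∀ t, 0 ≤ t → t ≤ t0 → InjOn (F t) (closedBall (0 : E n) 1) := by
    intro t ht htt x hx y hy hxy
    simp only [F] at hxy
    have h3 : x - y = - (t • ((f x - x) - (f y - y))) := by
      have : x + t • (f x - x) - (y + t • (f y - y)) = 0 := sub_eq_zero.2 hxy
      rw [eq_neg_iff_add_eq_zero, ← this]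
      simp only [smul_sub]
      abel
    have h4 : ‖x - y‖ ≤ t * L * ‖x - y‖ := by
      calc ‖x - y‖ = ‖t • ((f x - x) - (f y - y))‖ := by rw [h3, norm_neg]
        _ = t * ‖(f x - x) - (f y - y)‖ := by rw [norm_smul, Real.norm_of_nonneg ht]
        _ ≤ t * (L * ‖x - y‖) := mul_le_mul_of_nonneg_left (hLip x hx y hy) ht
        _ = _ := by ring
    have h5 := ht0' t htt
    have h6 : ‖x - y‖ = 0 := by
      by_contra hne
      have hpos : 0 < ‖x - y‖ := lt_of_le_of_ne (norm_nonneg _) (Ne.symm hne)
      nlinarith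
    exact sub_eq_zero.1 (norm_eq_zero.1 h6)
  -- continuity of F t on the closed ball
  have hfc : ContinuousOn f (closedBall (0 : E n) 1) := hf.continuousOn.mono hVs
  have hFc : ∀ t, ContinuousOn (F t) (closedBall (0 : E n) 1) := by
    intro t
    change ContinuousOn (fun x => x + t • (f x - x)) (closedBall (0 : E n) 1)
    fun_prop
  -- image of the ball
  have himg : ∀ t, 0 ≤ t → t ≤ t0 → F t '' ball (0 : E n) 1 = ball (0 : E n) 1 := by
    intro t ht htt
    have hsub : F t '' ball (0 : E n) 1 ⊆ ball (0 : E n) 1 := by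
      rintro _ ⟨x, hx, rfl⟩
      rw [mem_ball_zero_iff] at hx ⊢
      have hfx : ‖f x‖ = 1 := h1 x (by rw [mem_closedBall_zero_iff]; exact hx.le)
      have heq : F t x = (1 - t) • x + t • f x := by
        simp only [F, smul_sub, sub_smul, one_smul]; abel
      rw [heq]
      calc ‖(1 - t) • x + t • f x‖ ≤ ‖(1 - t) • x‖ + ‖t • f x‖ := norm_add_le _ _
        _ = (1 - t) * ‖x‖ + t * 1 := by
            rw [norm_smul, norm_smul, Real.norm_of_nonneg ht,
              Real.norm_of_nonneg (by linarith [ht01 t htt]), hfx]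
        _ < 1 := by nlinarith [ht01 t htt]
    refine Subset.antisymm hsub ?_
    have hopen : IsOpen (F t '' ball (0 : E n) 1) := by
      have happ : ApproximatesLinearOn (F t)
          ((ContinuousLinearEquiv.refl ℝ (E n) : E n ≃L[ℝ] E n) : E n →L[ℝ] E n)
          (ball (0 : E n) 1) (Real.toNNReal (t * L)) := by
        intro x hx y hy
        have h3 : F t x - F t y - ((ContinuousLinearEquiv.refl ℝ (E n) : E n ≃L[ℝ] E n) :
            E n →L[ℝ] E n) (x - y) = t • ((f x - x) - (f y - y)) := by
          simp only [F, ContinuousLinearEquiv.coe_refl, ContinuousLinearMap.coe_id', id_eq,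
            smul_sub]
          abel
        rw [h3, norm_smul, Real.norm_of_nonneg ht]
        have := hLip x (ball_subset_closedBall hx) y (ball_subset_closedBall hy)
        calc t * ‖(f x - x) - (f y - y)‖ ≤ t * (L * ‖x - y‖) :=
              mul_le_mul_of_nonneg_left this ht
          _ = _ := by rw [Real.coe_toNNReal _ (by positivity)]; ring
      refine happ.open_image
        (ContinuousLinearEquiv.refl ℝ (E n)).toNonlinearRightInverse isOpen_ball (Or.inr ?_)
      have h3 : ((ContinuousLinearEquiv.refl ℝ (E n)).toNonlinearRightInverse).nnnorm = 1 := by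
        change ‖((ContinuousLinearEquiv.refl ℝ (E n)).symm : E n →L[ℝ] E n)‖₊ = 1
        simp
      rw [h3, inv_one]
      exact Real.toNNReal_lt_one.2 (ht0' t htt)
    refine IsPreconnected.subset_of_closure_inter_subset
      (convex_ball (0 : E n) 1).isPreconnected hopen ?_ ?_
    · refine ⟨F t 0, hsub ⟨0, mem_ball_self one_pos, rfl⟩, ⟨0, mem_ball_self one_pos, rfl⟩⟩
    · rintro y ⟨hy, hyb⟩
      have hcl : IsClosed (F t '' closedBall (0 : E n) 1) :=
        ((isCompact_closedBall (0 : E n) 1).image_of_continuousOn (hFc t)).isClosed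
      have hy2 : y ∈ F t '' closedBall (0 : E n) 1 :=
        (closure_minimal (image_mono ball_subset_closedBall) hcl) hy
      obtain ⟨x, hx, rfl⟩ := hy2
      rw [mem_closedBall_zero_iff] at hx
      rcases lt_or_eq_of_le hx with hlt | heq
      · exact ⟨x, by rwa [mem_ball_zero_iff], rfl⟩
      · exfalso
        have h3 : F t x = x := by simp only [F, h2 x heq]; simp
        rw [h3, mem_ball_zero_iff, heq] at hyb
        exact lt_irrefl _ hyb
  -- derivative
  have hder : ∀ t, ∀ x ∈ ball (0 : E n) 1, HasFDerivWithinAt (F t)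
      (ContinuousLinearMap.id ℝ (E n) + t • A x) (ball (0 : E n) 1) x := by
    intro t x hx
    have h3 : DifferentiableAt ℝ f x :=
      (hf.differentiableOn one_ne_zero).differentiableAt (hV.mem_nhds (hballV hx))
    have h4 : HasFDerivAt (fun z => f z - z) (A x) x := h3.hasFDerivAt.sub (hasFDerivAt_id x)
    exact ((hasFDerivAt_id x).add (h4.const_smul t)).hasFDerivWithinAt
  -- the determinant is positive
  have hdet : ∀ t, 0 ≤ t → t ≤ t0 → ∀ x ∈ ball (0 : E n) 1,
      0 < (ContinuousLinearMap.id ℝ (E n) + t • A x).det := by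
    intro t ht htt x hx
    have hne : ∀ s ∈ Icc 0 t, (ContinuousLinearMap.id ℝ (E n) + s • A x).det ≠ 0 := by
      intro s hs h0
      have hnotinj : ∃ v : E n, v ≠ 0 ∧ (ContinuousLinearMap.id ℝ (E n) + s • A x) v = 0 := by
        by_contra hcon
        push Not at hcon
        have hker : LinearMap.ker ((ContinuousLinearMap.id ℝ (E n) + s • A x : E n →L[ℝ] E n) :
            E n →ₗ[ℝ] E n) = ⊥ := by
          rw [LinearMap.ker_eq_bot']
          intro v hv
          by_contra hv0
          exact hcon v hv0 hv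
        have hu : IsUnit ((ContinuousLinearMap.id ℝ (E n) + s • A x : E n →L[ℝ] E n) :
            E n →ₗ[ℝ] E n) := (LinearMap.isUnit_iff_ker_eq_bot _).2 hker
        have hu2 := LinearMap.isUnit_det _ hu
        exact hu2.ne_zero h0
      obtain ⟨v, hv0, hv⟩ := hnotinj
      have h3 : v = - (s • A x v) := by
        have : v + s • A x v = 0 := by simpa using hv
        exact eq_neg_of_add_eq_zero_left this
      have h4 : ‖v‖ ≤ s * L * ‖v‖ := by
        calc ‖v‖ = ‖s • A x v‖ := by conv_lhs => rw [h3, norm_neg]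
          _ = s * ‖A x v‖ := by rw [norm_smul, Real.norm_of_nonneg hs.1]
          _ ≤ s * (L * ‖v‖) := by
              refine mul_le_mul_of_nonneg_left ?_ hs.1
              exact ((A x).le_opNorm v).trans
                (mul_le_mul_of_nonneg_right (hLd x (ball_subset_closedBall hx)) (norm_nonneg v))
          _ = _ := by ring
      have h5 := ht0' s (hs.2.trans htt)
      have h6 : 0 < ‖v‖ := norm_pos_iff.2 hv0
      nlinarith
    have hcont : ContinuousOn (fun s : ℝ => (ContinuousLinearMap.id ℝ (E n) + s • A x).det)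
        (Icc 0 t) := by
      obtain ⟨P, -, hP⟩ := exists_poly (A x)
      have : (fun s : ℝ => (ContinuousLinearMap.id ℝ (E n) + s • A x).det) = fun s => P.eval s := by
        funext s; exact (hP s).symm
      rw [this]
      exact P.continuous.continuousOn
    by_contra hneg
    push Not at hneg
    have h0mem : (0 : ℝ) ∈ Icc ((ContinuousLinearMap.id ℝ (E n) + t • A x).det)
        ((ContinuousLinearMap.id ℝ (E n) + (0 : ℝ) • A x).det) := by
      refine ⟨hneg, ?_⟩
      have : (ContinuousLinearMap.id ℝ (E n) + (0 : ℝ) • A x).det = 1 := by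
        have h00 : (0 : ℝ) • A x = 0 := zero_smul ℝ (A x)
        rw [h00, add_zero]
        simp [ContinuousLinearMap.det]
      rw [this]; exact zero_le_one
    obtain ⟨s, hs, hs0⟩ := intermediate_value_Icc' ht hcont h0mem
    exact hne s hs hs0
  -- the volume identity
  have hvol : ∀ t, 0 ≤ t → t ≤ t0 →
      ∫ x in ball (0 : E n) 1, (ContinuousLinearMap.id ℝ (E n) + t • A x).det
        = (volume (ball (0 : E n) 1)).toReal := by
    intro t ht htt
    have h3 := integral_image_eq_integral_abs_det_fderiv_smul (volume : Measure (E n))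
      (measurableSet_ball (x := (0 : E n)) (ε := 1)) (hder t)
      ((hinj t ht htt).mono ball_subset_closedBall) (fun _ => (1 : ℝ))
    rw [himg t ht htt] at h3
    have h4 : ∫ x in ball (0 : E n) 1, (1 : ℝ) = (volume (ball (0 : E n) 1)).toReal := by
      simp [Measure.real]
    rw [← h4, h3]
    refine setIntegral_congr_fun measurableSet_ball fun x hx => ?_
    simp only [smul_eq_mul, mul_one]
    exact (abs_of_pos (hdet t ht htt x hx)).symm
  -- integrability
  have hint : ∀ t : ℝ, IntegrableOn
      (fun x => (ContinuousLinearMap.id ℝ (E n) + t • A x).det) (ball (0 : E n) 1) := by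
    intro t
    have hc : ContinuousOn (fun x => (ContinuousLinearMap.id ℝ (E n) + t • A x).det)
        (closedBall (0 : E n) 1) := by
      have h2' : ContinuousOn (fderiv ℝ f) (closedBall (0 : E n) 1) :=
        (hf.continuousOn_fderiv_of_isOpen hV le_rfl).mono hVs
      have h3 : ContinuousOn (fun x => ContinuousLinearMap.id ℝ (E n) + t • A x)
          (closedBall (0 : E n) 1) := by
        simp only [hA]
        fun_prop
      exact ContinuousLinearMap.continuous_det.comp_continuousOn h3
    exact (hc.integrableOn_compact (isCompact_closedBall _ _)).mono_set ball_subset_closedBall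
  -- determinant at time one
  have hdet1 : ∀ x ∈ ball (0 : E n) 1, (ContinuousLinearMap.id ℝ (E n) + (1 : ℝ) • A x).det = 0 := by
    intro x hx
    have h3 : ContinuousLinearMap.id ℝ (E n) + (1 : ℝ) • A x = fderiv ℝ f x := by
      simp [hA]
    rw [h3]
    have h4 : HasFDerivAt f (fderiv ℝ f x) x :=
      ((hf.differentiableOn one_ne_zero).differentiableAt (hV.mem_nhds (hballV hx))).hasFDerivAt
    have h5 : HasFDerivAt (fun y => ‖f y‖ ^ 2) (2 • (innerSL ℝ (f x)).comp (fderiv ℝ f x)) x :=
      h4.norm_sq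
    have h6 : (fun y => ‖f y‖ ^ 2) =ᶠ[𝓝 x] fun _ => (1 : ℝ) := by
      filter_upwards [isOpen_ball.mem_nhds hx] with y hy
      rw [h1 y (ball_subset_closedBall hy), one_pow]
    have h7 : HasFDerivAt (fun y => ‖f y‖ ^ 2) (0 : E n →L[ℝ] ℝ) x :=
      (hasFDerivAt_const (1 : ℝ) x).congr_of_eventuallyEq h6
    have h8 := h5.unique h7
    have h9 : ∀ v, inner ℝ (f x) (fderiv ℝ f x v) = (0 : ℝ) := by
      intro v
      have h10 : (2 • (innerSL ℝ (f x)).comp (fderiv ℝ f x) : E n →L[ℝ] ℝ) v = 0 := by
        rw [h8]; rfl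
      have h11 : (2 : ℕ) • inner ℝ (f x) (fderiv ℝ f x v) = (0 : ℝ) := h10
      simpa using h11
    by_contra hne
    have hu : IsUnit ((fderiv ℝ f x : E n →L[ℝ] E n) : E n →ₗ[ℝ] E n) := by
      rw [LinearMap.isUnit_iff_isUnit_det]
      exact isUnit_iff_ne_zero.2 hne
    have hsurj : Function.Surjective (fderiv ℝ f x) := by
      have := (LinearMap.isUnit_iff_range_eq_top _).1 hu
      exact LinearMap.range_eq_top.1 this
    obtain ⟨v, hv⟩ := hsurj (f x)
    have h10 := h9 v
    rw [hv, real_inner_self_eq_norm_sq, h1 x (ball_subset_closedBall hx)] at h10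
    norm_num at h10
  -- conclusion
  obtain ⟨τ, w, hτ, hw, hP⟩ := exists_weights n ht0
  have hfin : (0 : ℝ) = (volume (ball (0 : E n) 1)).toReal := by
    have h3 : ∀ x ∈ ball (0 : E n) 1, (ContinuousLinearMap.id ℝ (E n) + (1 : ℝ) • A x).det
        = ∑ i, w i * (ContinuousLinearMap.id ℝ (E n) + τ i • A x).det := by
      intro x _
      obtain ⟨P, hPd, hPe⟩ := exists_poly (A x)
      rw [← hPe 1, hP P hPd]
      exact Finset.sum_congr rfl fun i _ => by rw [hPe]
    calc (0 : ℝ) = ∫ x in ball (0 : E n) 1,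
          (ContinuousLinearMap.id ℝ (E n) + (1 : ℝ) • A x).det := by
            rw [setIntegral_congr_fun measurableSet_ball hdet1]; simp
      _ = ∫ x in ball (0 : E n) 1,
          ∑ i, w i * (ContinuousLinearMap.id ℝ (E n) + τ i • A x).det :=
            setIntegral_congr_fun measurableSet_ball h3
      _ = ∑ i, ∫ x in ball (0 : E n) 1,
          w i * (ContinuousLinearMap.id ℝ (E n) + τ i • A x).det :=
            integral_finsetSum _ fun i _ => (hint (τ i)).const_mul (w i)
      _ = ∑ i, w i * (volume (ball (0 : E n) 1)).toReal := by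
            refine Finset.sum_congr rfl fun i _ => ?_
            rw [integral_const_mul, hvol (τ i) (hτ i).1 (hτ i).2]
      _ = (volume (ball (0 : E n) 1)).toReal := by rw [← Finset.sum_mul, hw, one_mul]
  have hpos : 0 < (volume (ball (0 : E n) 1)).toReal :=
    ENNReal.toReal_pos (measure_ball_pos _ _ one_pos).ne' measure_ball_lt_top.ne
  linarith

end Pool.Agent.Lib.MP_591455_an
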