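import Pool.Agent.Lib.MP_591455_an.Defs

/-!
One dimensional estimate for functions with a pointwise Lipschitz bound a.e. and null images.
-/

open MeasureTheory Set Metric Filter Topology
open scoped ENNReal NNReal

namespace Pool.Agent.Lib.MP_591455_an

namespace OneDim

/-- A function which is K-Lipschitz at distances smaller than δ on A multiplies outer measure of
A by at most K. -/
lemma volume_image_le {φ : ℝ → ℝ} {A : Set ℝ} {K : ℝ≥0} {δ : ℝ} (hδ : 0 < δ)
    (h : ∀ t ∈ A, ∀ s ∈ A, |s - t| < δ → |φ s - φ t| ≤ K * |s - t|) :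
    volume (φ '' A) ≤ K * volume A := by
  set I : ℤ → Set ℝ := fun i => Ico (i • δ) ((i + 1) • δ) with hI
  have hU : ⋃ i, I i = univ := iUnion_Ico_zsmul hδ
  have hD : Pairwise (Function.onFun Disjoint I) := pairwise_disjoint_Ico_zsmul δ
  have hA : A = ⋃ i, (A ∩ I i) := by
    rw [← inter_iUnion, hU, inter_univ]
  have hp : ∀ i, volume (φ '' (A ∩ I i)) ≤ K * volume (A ∩ I i) := by
    intro i
    have hL : LipschitzOnWith K φ (A ∩ I i) := by
      apply LipschitzOnWith.of_dist_le_mul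
      intro s hs t ht
      rw [Real.dist_eq, Real.dist_eq]
      apply h t ht.1 s hs.1
      have h1 := hs.2
      have h2 := ht.2
      simp only [hI, mem_Ico, zsmul_eq_mul, Int.cast_add, Int.cast_one] at h1 h2
      rw [abs_lt]
      constructor <;> linarith [h1.1, h1.2, h2.1, h2.2]
    have := hL.hausdorffMeasure_image_le (d := 1) zero_le_one
    rw [hausdorffMeasure_real] at this
    simpa using this
  calc volume (φ '' A) = volume (⋃ i, φ '' (A ∩ I i)) := by
        rw [← image_iUnion, ← hA]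
    _ ≤ ∑' i, volume (φ '' (A ∩ I i)) := measure_iUnion_le _
    _ ≤ ∑' i, K * volume (A ∩ I i) := ENNReal.tsum_le_tsum hp
    _ = K * ∑' i, volume (A ∩ I i) := ENNReal.tsum_mul_left
    _ = K * volume A := by
        congr 1
        have h1 : ∀ i, volume (A ∩ I i) = (volume.restrict A) (I i) := by
          intro i
          rw [Measure.restrict_apply measurableSet_Ico, inter_comm]
        simp_rw [h1]
        rw [← measure_iUnion hD (fun i => measurableSet_Ico), hU, Measure.restrict_apply_univ]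

/-- The same with a pointwise Lipschitz bound. -/
lemma volume_image_le_of_pl {φ : ℝ → ℝ} {A : Set ℝ} {K K' : ℝ≥0} (hK : K < K')
    (h : ∀ t ∈ A, PL φ t K) : volume (φ '' A) ≤ K' * volume A := by
  set B : ℕ → Set ℝ := fun m => {t | t ∈ A ∧ ∀ s, |s - t| < 1 / (m + 1 : ℝ) →
    |φ s - φ t| ≤ K' * |s - t|} with hB
  have hmono : Monotone B := by
    intro m m' hmm t ht
    refine ⟨ht.1, fun s hs => ht.2 s (hs.trans_le ?_)⟩
    apply one_div_le_one_div_of_le (by positivity)
    have : (m : ℝ) ≤ m' := by exact_mod_cast hmm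
    linarith
  have hU : A = ⋃ m, B m := by
    apply Subset.antisymm
    · intro t ht
      have h1 := h t ht K' (by exact_mod_cast hK)
      rw [Metric.eventually_nhds_iff] at h1
      obtain ⟨ε, hε, h2⟩ := h1
      obtain ⟨m, hm⟩ := exists_nat_one_div_lt hε
      refine mem_iUnion.2 ⟨m, ht, fun s hs => ?_⟩
      have := h2 (y := s) (by rw [Real.dist_eq]; exact hs.trans hm)
      rwa [Real.dist_eq, Real.dist_eq] at this
    · exact iUnion_subset fun m t ht => ht.1
  have hmono2 : Monotone fun m => φ '' B m := fun m m' hmm => image_mono (hmono hmm)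
  calc volume (φ '' A) = volume (⋃ m, φ '' B m) := by rw [← image_iUnion, ← hU]
    _ = ⨆ m, volume (φ '' B m) := hmono2.measure_iUnion
    _ ≤ K' * volume A := by
        apply iSup_le
        intro m
        calc volume (φ '' B m) ≤ K' * volume (B m) :=
              volume_image_le (δ := 1 / (m + 1 : ℝ)) (by positivity)
                (fun t ht s _ hst => ht.2 s hst)
          _ ≤ K' * volume A := by
              gcongr
              intro t ht
              exact ht.1

lemma volume_image_Icc {φ : ℝ → ℝ} {τ : ℝ → ℝ≥0∞} (hτ : Measurable τ)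
    (hpl : ∀ᵐ t : ℝ, t ∈ Icc (0 : ℝ) 1 → PL φ t (τ t))
    (hN : ∀ N : Set ℝ, N ⊆ Icc 0 1 → volume N = 0 → volume (φ '' N) = 0) :
    volume (φ '' Icc 0 1) ≤ ∫⁻ t in Icc (0 : ℝ) 1, τ t := by
  by_cases hfin : ∫⁻ t in Icc (0 : ℝ) 1, τ t = ∞
  · rw [hfin]; exact le_top
  -- it is enough to prove the bound with an additional `3 * ε`
  refine ENNReal.le_of_forall_pos_le_add ?_
  intro ε₀ hε₀ _
  set ε : ℝ≥0 := ε₀ / 2 with hε
  have hε1 : 0 < ε := by positivity
  have hε2 : 2 * ε = ε₀ := by rw [hε]; field_simp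
  -- levels
  set B : ℕ → Set ℝ := fun j => {t | t ∈ Icc (0 : ℝ) 1 ∧ (j * ε : ℝ≥0∞) ≤ τ t ∧
    τ t < ((j + 1) * ε : ℝ≥0∞)} with hB
  have hBm : ∀ j, MeasurableSet (B j) := by
    intro j
    apply measurableSet_Icc.inter
    exact (measurableSet_le measurable_const hτ).inter (measurableSet_lt hτ measurable_const)
  have hBd : Pairwise (Function.onFun Disjoint B) := by
    have key : ∀ i j : ℕ, i < j → Disjoint (B i) (B j) := by
      intro i j hij
      rw [Set.disjoint_left]
      intro t hi hj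
      have h1 : τ t < ((i + 1) * ε : ℝ≥0∞) := hi.2.2
      have h2 : (j * ε : ℝ≥0∞) ≤ τ t := hj.2.1
      have h3 : ((i + 1) * ε : ℝ≥0∞) ≤ (j * ε : ℝ≥0∞) := by
        gcongr
        exact_mod_cast hij
      exact absurd (h1.trans_le (h3.trans h2)) (lt_irrefl _)
    intro i j hij
    rcases lt_or_gt_of_ne hij with h | h
    · exact key i j h
    · exact (key j i h).symm
  set P : Set ℝ := {t | t ∈ Icc (0 : ℝ) 1 ∧ ¬ (PL φ t (τ t))} with hP
  have hP0 : volume P = 0 := by
    have : P = {t | ¬ (t ∈ Icc (0 : ℝ) 1 → PL φ t (τ t))} := by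
      ext t
      simp only [hP, Classical.not_imp]
    rw [this]
    exact hpl
  set Q : Set ℝ := {t | t ∈ Icc (0 : ℝ) 1 ∧ τ t = ∞} with hQ
  have hQ0 : volume Q = 0 := by
    have h1 : ∀ᵐ t ∂(volume.restrict (Icc (0 : ℝ) 1)), τ t < ∞ := ae_lt_top hτ hfin
    rw [ae_restrict_iff' measurableSet_Icc] at h1
    have : Q = {t | ¬ (t ∈ Icc (0 : ℝ) 1 → τ t < ∞)} := by
      ext t
      simp only [hQ, Classical.not_imp, not_lt, top_le_iff]
    rw [this]
    exact h1
  have hcover : Icc (0 : ℝ) 1 ⊆ (⋃ j, (B j \ P)) ∪ (P ∪ Q) := by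
    intro t ht
    by_cases h1 : PL φ t (τ t)
    · by_cases h2 : τ t = ∞
      · exact Or.inr (Or.inr ⟨ht, h2⟩)
      · left
        obtain ⟨x, hx⟩ : ∃ x : ℝ≥0, (x : ℝ≥0∞) = τ t :=
          ⟨(τ t).toNNReal, ENNReal.coe_toNNReal h2⟩
        refine mem_iUnion.2 ⟨⌊x / ε⌋₊, ⟨ht, ?_, ?_⟩, fun h => h.2 h1⟩
        · rw [← hx]
          have := Nat.floor_le (a := x / ε) (by positivity)
          rw [le_div_iff₀ hε1] at this
          exact_mod_cast this
        · rw [← hx]
          have := Nat.lt_floor_add_one (x / ε)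
          rw [div_lt_iff₀ hε1] at this
          exact_mod_cast this
    · exact Or.inr (Or.inl ⟨ht, h1⟩)
  have hstep : ∀ j, volume (φ '' (B j \ P)) ≤ ∫⁻ t in B j, (τ t + 2 * ε) := by
    intro j
    have h1 : volume (φ '' (B j \ P)) ≤ (((j : ℝ≥0) + 2) * ε : ℝ≥0) * volume (B j \ P) := by
      apply volume_image_le_of_pl (K := ((j : ℝ≥0) + 1) * ε)
      · gcongr
        norm_num
      · intro t ht c' hc'
        have hb : τ t < ((j + 1) * ε : ℝ≥0∞) := ht.1.2.2
        have hpl' : PL φ t (τ t) := by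
          by_contra hcon
          exact ht.2 ⟨ht.1.1, hcon⟩
        apply hpl' c'
        refine hb.trans ?_
        have e : ((((j : ℝ≥0) + 1) * ε : ℝ≥0) : ℝ≥0∞) = ((j + 1) * ε : ℝ≥0∞) := by
          push_cast
          rfl
        rw [← e]
        exact hc'
    refine h1.trans ?_
    calc ((((j : ℝ≥0) + 2) * ε : ℝ≥0) : ℝ≥0∞) * volume (B j \ P)
        ≤ ((((j : ℝ≥0) + 2) * ε : ℝ≥0) : ℝ≥0∞) * volume (B j) := by
          gcongr
          exact sdiff_subset
      _ = ∫⁻ t in B j, ((((j : ℝ≥0) + 2) * ε : ℝ≥0) : ℝ≥0∞) := by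
          rw [setLIntegral_const]
      _ ≤ ∫⁻ t in B j, (τ t + 2 * ε) := by
          apply setLIntegral_mono' (hBm j)
          intro t ht
          have hb : (j * ε : ℝ≥0∞) ≤ τ t := ht.2.1
          calc ((((j : ℝ≥0) + 2) * ε : ℝ≥0) : ℝ≥0∞) = (j * ε : ℝ≥0∞) + 2 * ε := by
                push_cast
                ring
            _ ≤ τ t + 2 * ε := by gcongr
  have hBU : ⋃ j, B j ⊆ Icc (0 : ℝ) 1 := iUnion_subset fun j t ht => ht.1
  calc volume (φ '' Icc 0 1)
      ≤ volume (φ '' ((⋃ j, (B j \ P)) ∪ (P ∪ Q))) := by gcongr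
    _ = volume ((⋃ j, φ '' (B j \ P)) ∪ (φ '' P ∪ φ '' Q)) := by
        rw [image_union, image_iUnion, image_union]
    _ ≤ volume (⋃ j, φ '' (B j \ P)) + volume (φ '' P ∪ φ '' Q) := measure_union_le _ _
    _ ≤ (∑' j, volume (φ '' (B j \ P))) + (volume (φ '' P) + volume (φ '' Q)) := by
        gcongr
        · exact measure_iUnion_le _
        · exact measure_union_le _ _
    _ = ∑' j, volume (φ '' (B j \ P)) := by
        rw [hN P (fun t ht => ht.1) hP0, hN Q (fun t ht => ht.1) hQ0, add_zero, add_zero]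
    _ ≤ ∑' j, ∫⁻ t in B j, (τ t + 2 * ε) := ENNReal.tsum_le_tsum hstep
    _ = ∫⁻ t in ⋃ j, B j, (τ t + 2 * ε) := (lintegral_iUnion hBm hBd _).symm
    _ ≤ ∫⁻ t in Icc (0 : ℝ) 1, (τ t + 2 * ε) := lintegral_mono_set hBU
    _ = (∫⁻ t in Icc (0 : ℝ) 1, τ t) + 2 * ε := by
        rw [lintegral_add_left hτ, setLIntegral_const]
        simp
    _ = (∫⁻ t in Icc (0 : ℝ) 1, τ t) + ε₀ := by
        congr 1
        rw [← hε2]
        push_cast
        rfl

end OneDim

theorem onedim {φ : ℝ → ℝ} (hc : Continuous φ) {τ : ℝ → ℝ≥0∞} (hτ : Measurable τ)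
    (hpl : ∀ᵐ t : ℝ, t ∈ Icc (0 : ℝ) 1 → PL φ t (τ t))
    (hN : ∀ N : Set ℝ, N ⊆ Icc 0 1 → volume N = 0 → volume (φ '' N) = 0) :
    edist (φ 1) (φ 0) ≤ ∫⁻ t in Icc (0 : ℝ) 1, τ t := by
  refine le_trans ?_ (OneDim.volume_image_Icc hτ hpl hN)
  have h1 : IsPreconnected (φ '' Icc 0 1) :=
    isPreconnected_Icc.image _ hc.continuousOn
  have h2 : uIcc (φ 0) (φ 1) ⊆ φ '' Icc 0 1 := by
    apply h1.ordConnected.uIcc_subset
    · exact mem_image_of_mem _ (by simp)
    · exact mem_image_of_mem _ (by simp)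
  calc edist (φ 1) (φ 0) = volume (uIcc (φ 0) (φ 1)) := by
        rw [uIcc, Real.volume_Icc, edist_dist, Real.dist_eq, max_sub_min_eq_abs]
    _ ≤ volume (φ '' Icc 0 1) := measure_mono h2

end Pool.Agent.Lib.MP_591455_an
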